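import Pool.Agent.Lib.MP_15f43f_co.Mask

namespace Pool.Agent.Lib.MP_15f43f_co

variable {m k b n r d t v x : ℕ} {E : ℕ → Prop}

theorem att_fill0 {st : ℕ → ℕ} {i : ℕ} (hx : Bt x i) (N : ℕ) : Bt (fill st v x N) i := by
  cases N with
  | zero => exact hx
  | succ N => exact (bt_lor _ _ _).2 (.inl hx)

theorem att_fillS (st : ℕ → ℕ) (v x N i : ℕ) :
    Bt (fill st v x (N + 1)) i ↔ Bt x i ∨ (Bt (st (fill st v x N)) i ∧ Bt v i) := by
  rw [show fill st v x (N + 1) = Nat.lor x (Nat.land (st (fill st v x N)) v) from rfl, bt_lor, bt_land]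

/-- forward: the last square before the end of a slide lies in the filled set -/
theorem att_fwd {st c μ : ℕ → ℕ} {ok : ℕ → Prop} {N s : ℕ}
    (hst : ∀ s y, ok s → nxt d s < 32 → Bt y (c s) → Bt (st y) (c (nxt d s)))
    (hok : ∀ s, ok s → nxt d s < 32 → ok (nxt d s) ∧ μ (nxt d s) < μ s)
    (hv : ∀ s, ok s → nxt d s < 32 → E (nxt d s) → Bt v (c (nxt d s))) (hs : Sl E d s t) :
    ∀ i, ok s → (∀ l, i ≤ l → Bt (fill st v x l) (c s)) → i + μ s ≤ N + 1 →
      ∃ p, ok p ∧ nxt d p = t ∧ Bt (st (fill st v x N)) (c t) := by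
  induction hs with
  | @one s a =>
    intro i o H e
    have := (hok s o a).2
    exact ⟨s, o, rfl, hst s _ o a (H N (by omega))⟩
  | @more s t a b _ ih =>
    intro i o H e
    have := hok s o a
    refine ih (i + 1) this.1 (fun l hl => ?_) (by omega)
    obtain ⟨l, rfl⟩ : ∃ p, l = p + 1 := ⟨l - 1, by omega⟩
    exact (att_fillS _ _ _ _ _).2 (.inr ⟨hst s _ o a (H l (by omega)), hv s o a b⟩)

/-- backward -/
theorem att_bwd {st c μ : ℕ → ℕ} {D z : ℕ}
    (hst : ∀ s y, s < 32 → Bt D (c s) → Bt (st y) (c s) →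
      nxt d s < 32 ∧ μ (nxt d s) < μ s ∧ Bt y (c (nxt d s))) (N : ℕ) :
    ∀ s, s < 32 → μ s ≤ μ r → Bt D (c s) → Bt (st (fill st (Nat.land v D) z N)) (c s) →
      ∃ t, t ≠ r ∧ Sl (fun q => q ≠ r ∧ Bt v (c q)) d s t ∧ Bt z (c t) := by
  induction N with
  | zero =>
    intro s hs e hD H
    obtain ⟨a, b, f⟩ := hst s _ hs hD H
    exact ⟨_, fun g => by rw [g] at b; omega, .one a, f⟩
  | succ N ih =>
    intro s hs e hD H
    obtain ⟨a, b, f⟩ := hst s _ hs hD H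
    have ne : nxt d s ≠ r := fun g => by rw [g] at b; omega
    rcases (att_fillS _ _ _ _ _).1 f with f | ⟨f, g⟩
    · exact ⟨_, ne, .one a, f⟩
    · rw [bt_land] at g
      obtain ⟨t, p1, p2, p3⟩ := ih _ a (by omega) g.2 f
      exact ⟨t, p1, .more a ⟨ne, g.1⟩ p2, p3⟩

theorem att_shl {a i j y : ℕ} (e : j = a + i) : Bt (shl a y) j ↔ Bt y i := by
  rw [shl, bt_shl, e, Nat.add_sub_cancel_left, and_iff_right (Nat.le_add_right _ _)]
theorem att_shr {a i j y : ℕ} (e : i = a + j) : Bt (shr a y) j ↔ Bt y i := by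
  rw [shr, bt_shr, e]
theorem att_up {a i j y M : ℕ} (hy : Bt y i) (hM : Bt M i) (e : j = a + i) : Bt (up y M a) j :=
  (att_shl e).2 ((bt_land _ _ _).2 ⟨hy, hM⟩)
theorem att_dn {a i j y M : ℕ} (hy : Bt y i) (hM : Bt M i) (e : i = a + j) : Bt (dn y M a) j :=
  (att_shr e).2 ((bt_land _ _ _).2 ⟨hy, hM⟩)

theorem att_cr (m k b n q : ℕ) : cel m k b n q = cel m k b n 0 + q := by
  unfold cel
  omega

theorem att_F0 : ∀ s, s < 32 → nxt 0 s < 32 →
    nxt 0 s = 4 + s ∧ Nat.testBit 4294967280 (nxt 0 s) = true := by decide +kernel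
theorem att_F1 : ∀ s, s < 32 → nxt 1 s < 32 →
    s = 4 + nxt 1 s ∧ Nat.testBit 268435455 (nxt 1 s) = true := by decide +kernel
theorem att_F2 : ∀ s, s < 32 → nxt 2 s < 32 →
    nxt 2 s = 1 + s ∧ s % 4 < 3 ∧ Nat.testBit 4008636142 (nxt 2 s) = true := by decide +kernel
theorem att_F3 : ∀ s, s < 32 → nxt 3 s < 32 →
    s = 1 + nxt 3 s ∧ 0 < s % 4 ∧ Nat.testBit 2004318071 (nxt 3 s) = true := by decide +kernel
theorem att_G0 : ∀ s, s < 32 → Nat.testBit 4294967280 s = true → s = 4 + nxt 1 s := by decide +kernel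
theorem att_G1 : ∀ s, s < 32 → Nat.testBit 268435455 s = true → nxt 0 s = 4 + s ∧ s < 28 := by
  decide +kernel
theorem att_G2 : ∀ s, s < 32 → Nat.testBit 4008636142 s = true → s = 1 + nxt 3 s ∧ 0 < s % 4 := by
  decide +kernel
theorem att_G3 : ∀ s, s < 32 → Nat.testBit 2004318071 s = true → nxt 2 s = 1 + s ∧ s % 4 < 3 := by
  decide +kernel

theorem att_slR {st μ : ℕ → ℕ} {D N : ℕ} (h : Cel m k b n r) (hD : D < 4294967296) (hs : Sl E d r t)
    (hv : ∀ q, q < 32 → E q → Bt v (cel m k b n q)) (hx : Bt x (cel m k b n r)) (hμ : μ r ≤ N + 1)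
    (H : ∀ s, s < 32 → nxt d s < 32 → Bt D (nxt d s) ∧ μ (nxt d s) < μ s ∧
      ∀ y, Bt y (cel m k b n s) → Bt (st y) (cel m k b n (nxt d s))) :
    Bt (slR st (rep32 D) v x N) (cel m k b n t) := by
  have K : ∀ s, s < 32 → nxt d s < 32 → Bt (rep32 D) (cel m k b n (nxt d s)) := fun s a e =>
    (rep32_cel ⟨h.hk, h.hb, h.hn, e⟩ hD).2 (H s a e).1
  obtain ⟨p, a, rfl, e⟩ := att_fwd (st := st) (c := cel m k b n) (μ := μ) (ok := (· < 32)) (N := N)
    (v := Nat.land v (rep32 D)) (x := x) (fun s y a e => (H s a e).2.2 y) (fun s a e => ⟨e, (H s a e).2.1⟩)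
    (fun s a e f => (bt_land _ _ _).2 ⟨hv _ e f, K s a e⟩) hs 0 h.hr (fun l _ => att_fill0 hx l) (by omega)
  exact (bt_land _ _ _).2 ⟨e, K p a hs.lt⟩

theorem att_attR (h : Cel m k b n r) (hd : d < 4) (hs : Sl E d r t)
    (hv : ∀ q, q < 32 → E q → Bt v (cel m k b n q)) (hx : Bt x (cel m k b n r)) :
    Bt (attR v x) (cel m k b n t) := by
  have hr := h.hr
  rw [attR, bt_or4]
  obtain rfl | rfl | rfl | rfl : d = 0 ∨ d = 1 ∨ d = 2 ∨ d = 3 := by omega
  · refine .inl (att_slR (μ := fun s => 7 - s / 4) h (by omega) hs hv hx (by omega) fun s a e => ?_)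
    obtain ⟨f, g⟩ := att_F0 s a e
    exact ⟨g, by omega, fun y => (att_shl (by rw [att_cr _ _ _ _ s, att_cr]; omega)).2⟩
  · refine .inr (.inl (att_slR (μ := fun s => s / 4) h (by omega) hs hv hx (by omega) fun s a e => ?_))
    obtain ⟨f, g⟩ := att_F1 s a e
    exact ⟨g, by omega, fun y => (att_shr (by rw [att_cr _ _ _ _ (nxt 1 s), att_cr]; omega)).2⟩
  · refine .inr (.inr (.inl
      (att_slR (μ := fun s => 3 - s % 4) h (by omega) hs hv hx (by omega) fun s a e => ?_)))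
    obtain ⟨f, f', g⟩ := att_F2 s a e
    exact ⟨g, by omega, fun y => (att_shl (by rw [att_cr _ _ _ _ s, att_cr]; omega)).2⟩
  · refine .inr (.inr (.inr
      (att_slR (μ := fun s => s % 4) h (by omega) hs hv hx (by omega) fun s a e => ?_)))
    obtain ⟨f, f', g⟩ := att_F3 s a e
    exact ⟨g, by omega, fun y => (att_shr (by rw [att_cr _ _ _ _ (nxt 3 s), att_cr]; omega)).2⟩

theorem att_sel {M y i j : ℕ} (hx : Bt x i) (hM : Bt M i) (hy : Bt y j) : Bt (selN (dj x M) 0 y) j :=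
  (mask_sel' _ _ _).2 ⟨fun e => (dj_iff _ _).1 e i hx hM, hy⟩

theorem att_slB {st μ : ℕ → ℕ} {N : ℕ} (h : Cel m k b n r) (hb : b < 32) (hs : Sl E d b t)
    (hv : ∀ q, q < 32 → okB q → E q → Bt v (cel m k q n r)) (hx : Bt x (cel m k b n r)) (hμ : μ b ≤ N + 1)
    (H : ∀ s, s < 32 → okB s → nxt d s < 32 → okB (nxt d s) ∧ μ (nxt d s) < μ s ∧
      ∀ y, Bt y (cel m k s n r) → Bt (st y) (cel m k (nxt d s) n r)) :
    okB t ∧ Bt (st (fill st v x N)) (cel m k t n r) := by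
  obtain ⟨p, a, rfl, e⟩ := att_fwd (st := st) (c := fun q => cel m k q n r) (μ := μ)
    (ok := fun q => q < 32 ∧ okB q) (N := N) (v := v) (x := x) (fun s y a e => (H s a.1 a.2 e).2.2 y)
    (fun s a e => ⟨⟨e, (H s a.1 a.2 e).1⟩, (H s a.1 a.2 e).2.1⟩)
    (fun s a e f => hv _ e (H s a.1 a.2 e).1 f) hs 0 ⟨hb, h.hb⟩ (fun l _ => att_fill0 hx l) (by omega)
  exact ⟨(H p a.1 a.2 hs.lt).1, e⟩

set_option synthInstance.maxSize 2000 in
theorem att_B4 : ∀ s, s < 32 → okB s → nxt 4 s < 32 → okB (nxt 4 s) ∧ 3 - nxt 4 s % 4 < 3 - s % 4 ∧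
    bI (nxt 4 s) = bI s + 1 ∧ Nat.testBit 93 (bI s) = true := by
  unfold okB
  decide +kernel
set_option synthInstance.maxSize 2000 in
theorem att_B5 : ∀ s, s < 32 → okB s → nxt 5 s < 32 → okB (nxt 5 s) ∧
    min (nxt 5 s % 4) ((7 - nxt 5 s / 4) / 2) < min (s % 4) ((7 - s / 4) / 2) ∧
    bI (nxt 5 s) = bI s + 3 ∧ Nat.testBit 27 (bI s) = true := by
  unfold okB
  decide +kernel
set_option synthInstance.maxSize 2000 in
theorem att_B6 : ∀ s, s < 32 → okB s → nxt 6 s < 32 → okB (nxt 6 s) ∧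
    min (3 - nxt 6 s % 4) (nxt 6 s / 8) < min (3 - s % 4) (s / 8) ∧
    bI s = bI (nxt 6 s) + 3 ∧ Nat.testBit 216 (bI s) = true := by
  unfold okB
  decide +kernel
set_option synthInstance.maxSize 2000 in
theorem att_B7 : ∀ s, s < 32 → okB s → nxt 7 s < 32 → okB (nxt 7 s) ∧ nxt 7 s % 4 < s % 4 ∧
    bI s = bI (nxt 7 s) + 1 ∧ Nat.testBit 186 (bI s) = true := by
  unfold okB
  decide +kernel
set_option synthInstance.maxSize 2000 in
theorem att_N0 : ∀ d, d < 12 → 8 ≤ d → ∀ s, s < 32 → okN s → nxt d s < 32 → okN (nxt d s) := by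
  unfold okN
  decide +kernel
set_option synthInstance.maxSize 2000 in
theorem att_N1 : ∀ d, d < 10 → 8 ≤ d → ∀ s, s < 32 → (s / 4 + s % 4) % 2 = 0 → nxt d s < 32 →
    (nxt d s / 2 = s / 2 + 2 ∧ Nat.testBit 16383 (s / 2) = true) ∨
      (nxt d s / 2 = s / 2 + 1 ∧ Nat.testBit 8738 (s / 2) = true) ∨
      (nxt d s / 2 = s / 2 + 3 ∧ Nat.testBit 1092 (s / 2) = true) := by decide +kernel
set_option synthInstance.maxSize 2000 in
theorem att_N2 : ∀ d, d < 12 → 10 ≤ d → ∀ s, s < 32 → (s / 4 + s % 4) % 2 = 0 → nxt d s < 32 →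
    (s / 2 = nxt d s / 2 + 2 ∧ Nat.testBit 65532 (s / 2) = true) ∨
      (s / 2 = nxt d s / 2 + 1 ∧ Nat.testBit 17476 (s / 2) = true) ∨
      (s / 2 = nxt d s / 2 + 3 ∧ Nat.testBit 8736 (s / 2) = true) := by decide +kernel

theorem att_attB (h : Cel m k b n r) (hb : b < 32) (h4 : 4 ≤ d) (h8 : d < 8) (hs : Sl E d b t)
    (hv : ∀ q, q < 32 → okB q → E q → Bt v (cel m k q n r)) (hx : Bt x (cel m k b n r)) :
    okB t ∧ Bt (attB v x) (cel m k t n r) := by
  have M : ∀ s z, s < 32 → okB s → Bt z (bI s) → Bt (mB z) (cel m k s n r) := fun s z a o g =>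
    (mB_cel ⟨h.hk, o, h.hn, h.hr⟩).2 ⟨a, g⟩
  have hB := h.hb
  unfold okB at hB
  rw [attB, bt_or4]
  obtain rfl | rfl | rfl | rfl : d = 4 ∨ d = 5 ∨ d = 6 ∨ d = 7 := by omega
  · refine (att_slB (μ := fun s => 3 - s % 4) h hb hs hv hx (by omega) fun s a o e => ?_).imp_right .inl
    obtain ⟨f1, f2, f3, f4⟩ := att_B4 s a o e
    exact ⟨f1, f2, fun y hy => att_up hy (M s _ a o f4) (by unfold cel; omega)⟩
  · refine (att_slB (μ := fun s => min (s % 4) ((7 - s / 4) / 2)) h hb hs hv hx (by omega)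
      fun s a o e => ?_).imp_right fun e => .inr (.inl e)
    obtain ⟨f1, f2, f3, f4⟩ := att_B5 s a o e
    exact ⟨f1, f2, fun y hy => att_up hy (M s _ a o f4) (by unfold cel; omega)⟩
  · refine (att_slB (μ := fun s => min (3 - s % 4) (s / 8)) h hb hs hv hx (by omega)
      fun s a o e => ?_).imp_right fun e => .inr (.inr (.inl e))
    obtain ⟨f1, f2, f3, f4⟩ := att_B6 s a o e
    exact ⟨f1, f2, fun y hy => att_dn hy (M s _ a o f4) (by unfold cel; omega)⟩
  · refine (att_slB (μ := fun s => s % 4) h hb hs hv hx (by omega)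
      fun s a o e => ?_).imp_right fun e => .inr (.inr (.inr e))
    obtain ⟨f1, f2, f3, f4⟩ := att_B7 s a o e
    exact ⟨f1, f2, fun y hy => att_dn hy (M s _ a o f4) (by unfold cel; omega)⟩

theorem att_slZ {st μ : ℕ → ℕ} {D N z : ℕ} (h : Cel 2 k b n r) (hD : D < 4294967296) (hd : d < 4)
    (hz : Bt (slR st (rep32 D) v z N) (cel 2 k b n r))
    (H : ∀ s, s < 32 → Bt D s → nxt d s < 32 ∧ μ (nxt d s) < μ s ∧
      ∀ y, Bt (st y) (cel 2 k b n s) → Bt y (cel 2 k b n (nxt d s))) :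
    ∃ d t, d < 4 ∧ t ≠ r ∧ Sl (fun q => q ≠ r ∧ Bt v (cel 2 k b n q)) d r t ∧ Bt z (cel 2 k b n t) := by
  rw [slR, bt_land] at hz
  obtain ⟨t, p⟩ := att_bwd (st := st) (c := cel 2 k b n) (μ := μ) (D := rep32 D) (z := z) (d := d) (r := r)
    (v := v) (fun s y a e f => by
      obtain ⟨g1, g2, g3⟩ := H s a ((rep32_cel ⟨h.hk, h.hb, h.hn, a⟩ hD).1 e)
      exact ⟨g1, g2, g3 y f⟩) N r h.hr le_rfl hz.2 hz.1
  exact ⟨d, t, hd, p⟩

theorem att_r (h : Cel m k b n r) (hm : m < 2) (hd : d < 4) (hs : Sl E d r t)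
    (hv : ∀ q, q < 32 → E q → Bt v (cel m k b n q)) (hx : Bt x (cel m k b n r)) :
    Bt (att m v x) (cel m k b n t) := by
  have e := att_attR h hd hs hv hx
  rw [att, bt_lor, mask_sel', ble_iff, bt_sel]
  refine .inr ⟨by omega, ?_⟩
  cases Nat.beq m 0
  · exact .inr ⟨rfl, e⟩
  · exact .inl ⟨rfl, (bt_lor _ _ _).2 (.inl e)⟩

theorem att_b (h : Cel m k b n r) (hb : b < 32) (h4 : 4 ≤ d) (h8 : d < 8) (hs : Sl E d b t)
    (hv : ∀ q, q < 32 → okB q → E q → Bt v (cel m k q n r)) (hx : Bt x (cel m k b n r)) :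
    okB t ∧ Bt (att m v x) (cel m k t n r) := by
  obtain ⟨a, e⟩ := att_attB h hb h4 h8 hs hv hx
  have : ∀ i, i < 8 → Nat.testBit 255 i = true := by decide
  refine ⟨a, ?_⟩
  rw [att, bt_lor, bt_lor]
  exact .inl (.inl (att_sel hx ((mB_cel h).2 ⟨hb, this _ (bI_lt h.hb hb)⟩) e))

theorem att_n (h : Cel m k b n r) (hn : n < 32) (h8 : 8 ≤ d) (h12 : d < 12) (hs : nxt d n = t) (ht : t < 32)
    (hx : Bt x (cel m k b n r)) : okN t ∧ Bt (att m v x) (cel m k b t r) := by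
  subst hs
  have a := att_N0 d h12 h8 n hn h.hn ht
  have o := (h.hn.resolve_left (by omega)).2
  have : ∀ i, i < 16 → Nat.testBit 65535 i = true := by decide
  have M : ∀ z, Bt z (n / 2) → Bt (mN z) (cel m k b n r) := fun z g => (mN_cel h).2 ⟨hn, g⟩
  refine ⟨a, ?_⟩
  rw [att, bt_lor, bt_lor]
  refine .inl (.inr (att_sel hx (M _ (this _ (by omega))) ?_))
  rw [attN, bt_lor, bt_or3, bt_or3]
  rcases Nat.lt_or_ge d 10 with c | c
  · refine .inl ((att_N1 d c h8 n hn o ht).imp ?_ (Or.imp ?_ ?_)) <;>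
      exact fun e => att_up hx (M _ e.2) (by have := e.1; unfold cel; omega)
  · refine .inr ((att_N2 d h12 c n hn o ht).imp ?_ (Or.imp ?_ ?_)) <;>
      exact fun e => att_dn hx (M _ e.2) (by have := e.1; unfold cel; omega)

theorem att_k (h : Cel 0 k b n r) (h' : Cel 0 t b n r) (hd : d < 2) (hs : nxt d k = t)
    (hx : Bt x (cel 0 k b n r)) : Bt (att 0 v x) (cel 0 t b n r) := by
  have h1 := h.hk rfl
  have h2 := h'.hk rfl
  rw [att, bt_lor, mask_sel', ble_iff, bt_sel]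
  refine .inr ⟨by omega, .inl ⟨rfl, (bt_lor _ _ _).2 (.inr ?_)⟩⟩
  rw [attK, bt_lor]
  subst hs
  obtain rfl | rfl : d = 0 ∨ d = 1 := by omega
  · have := (att_F0 k (by omega) (by omega)).1
    exact .inl ((att_shr (by simp only [cel, if_true]; omega)).2 hx)
  · have := (att_F1 k (by omega) (by omega)).1
    exact .inr ((att_shl (by simp only [cel, if_true]; omega)).2 hx)

/-- backward: the rook of the slot slides from `r` to a target cell -/
theorem slZ_bwd {a z : ℕ} (h : Cel 2 k b n r) (hz : Bt (slZ a v z) (cel 2 k b n r)) :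
    ∃ d t, d < 4 ∧ t ≠ r ∧ Sl (fun q => q ≠ r ∧ Bt v (cel 2 k b n q)) d r t ∧ Bt z (cel 2 k b n t) := by
  rw [slZ, bt_or4, mask_sel, mask_sel, mask_sel, mask_sel] at hz
  rcases hz with e | e | e | e
  · refine att_slZ (d := 1) (μ := fun s => s) h (by omega) (by omega) e.2 fun s a f => ?_
    have := att_G0 s a f
    exact ⟨by omega, by omega, fun y => (att_shl (by rw [att_cr _ _ _ _ (nxt 1 s), att_cr]; omega)).1⟩
  · refine att_slZ (d := 0) (μ := fun s => 32 - s) h (by omega) (by omega) e.2 fun s a f => ?_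
    have := att_G1 s a f
    exact ⟨by omega, by omega, fun y => (att_shr (by rw [att_cr _ _ _ _ s, att_cr]; omega)).1⟩
  · refine att_slZ (d := 3) (μ := fun s => s) h (by omega) (by omega) e.2 fun s a f => ?_
    have := att_G2 s a f
    exact ⟨by omega, by omega, fun y => (att_shl (by rw [att_cr _ _ _ _ (nxt 3 s), att_cr]; omega)).1⟩
  · refine att_slZ (d := 2) (μ := fun s => 32 - s) h (by omega) (by omega) e.2 fun s a f => ?_
    have := att_G3 s a f
    exact ⟨by omega, by omega, fun y => (att_shr (by rw [att_cr _ _ _ _ s, att_cr]; omega)).1⟩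


end Pool.Agent.Lib.MP_15f43f_co
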