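import Pool.Agent.Lib.MP_15f43f_co.Chk

namespace Pool.Agent.Lib.MP_15f43f_co

/-! The table of the certificate. A node holds the keys `c` with one value of `c / 2^18`. -/

inductive Tr
  | nil
  | node (l : Tr) (key cnt mul dsp dir dat : Nat) (r : Tr)

inductive Tp
  | leaf (t : Tr)
  | br (l : Tp) (key : Nat) (r : Tp)

noncomputable section

def selT (b : Bool) (t e : Tr) : Tr := @Bool.rec (fun _ => Tr) e t b
def Tp.get (t : Tp) (g : Nat) : Tr :=
  @Tp.rec (fun _ => Tr) (fun x => x) (fun _ k _ a b => selT (Nat.ble k g) b a) t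
def Tr.find (t : Tr) (g : Nat) : Tr :=
  @Tr.rec (fun _ => Tr) .nil
    (fun l k c u f d x r a b => selT (Nat.ble k g) (selT (Nat.beq k g) (.node l k c u f d x r) b) a) t
def nd (top : Tp) (g : Nat) : Tr := (top.get g).find g
def ent (dir e : Nat) : Nat := Nat.land (Nat.shiftRight dir (Nat.mul 36 e)) 4722366482869645213695
/-- place of the tag `t` among the `cnt + 1` entries -/
def pos (cnt mul dsp t : Nat) : Nat :=
  Nat.mod (Nat.add (Nat.div (Nat.mod (Nat.mul t mul) 524287) (Nat.succ (Nat.div cnt 2)))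
    (Nat.land (Nat.shiftRight dsp
      (Nat.mul 12 (Nat.mod (Nat.mod (Nat.mul t mul) 524287) (Nat.succ (Nat.div cnt 2))))) 4095)) (Nat.succ cnt)
def jn (k a b : Nat) : Nat := Nat.lor a (Nat.shiftLeft b k)
def cN : Nat := Nat.div (Nat.pred (Nat.pow 2 527)) 2147483647
def kN : Nat := Nat.div f544 4294967295
def cW : Nat := Nat.div (Nat.pred (Nat.pow 2 14661)) (Nat.pred (Nat.pow 2 543))
def spW (z : Nat) : Nat :=
  Nat.land (Nat.mul (Nat.mul (Nat.mod z 512) (Nat.land (Nat.mul (Nat.div z 512) 65793) 262657)) cW) o544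
def spS (z : Nat) : Nat := spW (Nat.add z 512)
def box (sp : Nat → Nat) (w z : Nat) : Nat :=
  frN (Nat.land (Nat.shiftRight z 49) w) fun i => Nat.mul (sp i)
    (Nat.mul (Nat.land (Nat.mul (Nat.land (Nat.shiftRight z 32) 131071) cN) kN) (Nat.land z 4294967295))
def boxes (sp : Nat → Nat) (w a n : Nat) : Nat → Nat :=
  @Nat.rec (fun _ => Nat → Nat) (fun _ => 0)
    (fun _ go x => Nat.lor (box sp w x) (go (Nat.shiftRight x a))) n
def offA (y : Nat) : Nat := Nat.land (Nat.shiftRight y 15) 2097144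
def slice (dat y : Nat) : Nat :=
  Nat.land (Nat.shiftRight dat (offA y))
    (Nat.pred (Nat.shiftLeft 1 (Nat.sub (Nat.mul 8 (Nat.shiftRight y 54)) (offA y))))
def lk (x t y : Nat) : Nat := selN (Nat.beq (Nat.land y 262143) t) (slice x y) 0
/-- the record of a key: 10 bits box count, 1 bit wide, boxes, hints -/
def look (n : Tr) (t : Nat) : Nat :=
  @Tr.rec (fun _ => Nat) 0 (fun _ _ cnt u f d x _ _ _ => lk x t (ent d (pos cnt u f t))) n
def recd (top : Tp) (c : Nat) : Nat := 
  frN (Nat.shiftRight c 18) fun g => look (nd top g) (Nat.land c 262143)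
def decT (x : Nat) : Nat :=
  selN (Nat.beq (Nat.land x 1024) 0) (boxes spS 511 58 (Nat.land x 1023) (Nat.shiftRight x 11))
    (boxes spW 4095 61 (Nat.land x 1023) (Nat.shiftRight x 11))
def decH (x : Nat) : Nat :=
  Nat.shiftRight x
    (Nat.add 11 (Nat.mul (Nat.land x 1023) (selN (Nat.beq (Nat.land x 1024) 0) 58 61)))

def allN (g : Nat → Bool) (n : Nat) : Bool :=
  @Nat.rec (fun _ => Bool) true (fun i acc => band acc (g i)) n
def ckN (ck : Nat → Nat → Nat → Bool) (g cnt d : Nat) : Bool :=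
  frB (Nat.div g 32) fun j => frB (md j) fun m => frB (Nat.mul 262144 (Nat.mod g 32)) fun K =>
    allN (fun e => frB (Nat.add K (Nat.land (ent d e) 262143)) (ck j m)) (Nat.succ cnt)
/-- test all entries of all nodes -/
def ckT (ck : Nat → Nat → Nat → Bool) (t : Tr) : Bool :=
  @Tr.rec (fun _ => Bool) true (fun _ k cnt _ _ d _ _ a b => band a (band (ckN ck k cnt d) b)) t

end

end Pool.Agent.Lib.MP_15f43f_co
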