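import Pool.Agent.Lib.MP_15f43f_co.Val
import Pool.Agent.Lib.MP_15f43f_co.Tab

namespace Pool.Agent.Lib.MP_15f43f_co

/-! Meaning of the primitives of the checker, and the encoding of a state. -/

theorem frN_eq (x : ℕ) (f : ℕ → ℕ) : frN x f = f x := Eq.trans rfl rfl
theorem frB_eq (x : ℕ) (f : ℕ → Bool) : frB x f = f x := Eq.trans rfl rfl
theorem selN_eq (b : Bool) (t e : ℕ) : selN b t e = if b = true then t else e := by cases b <;> rfl
theorem selB_eq (b t e : Bool) : selB b t e = if b = true then t else e := by cases b <;> rfl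
theorem selT_eq (b : Bool) (t e : Tr) : selT b t e = if b = true then t else e := by cases b <;> rfl
theorem casB_zero (z : Bool) (s : ℕ → Bool) : casB 0 z s = z := Eq.trans rfl rfl
theorem casB_succ (n : ℕ) (z : Bool) (s : ℕ → Bool) : casB (n + 1) z s = s n := Eq.trans rfl rfl
theorem band_eq (a b : Bool) : band a b = (a && b) := by cases a <;> rfl
theorem bor_eq (a b : Bool) : bor a b = (a || b) := by cases a <;> rfl
theorem land_eq (a b : ℕ) : Nat.land a b = a &&& b := Eq.trans rfl rfl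
theorem lor_eq (a b : ℕ) : Nat.lor a b = a ||| b := Eq.trans rfl rfl
theorem xor_eq (a b : ℕ) : Nat.xor a b = a ^^^ b := Eq.trans rfl rfl
theorem shl_eq (a b : ℕ) : Nat.shiftLeft a b = a <<< b := Eq.trans rfl rfl
theorem shr_eq (a b : ℕ) : Nat.shiftRight a b = a >>> b := Eq.trans rfl rfl
theorem add_eq (a b : ℕ) : Nat.add a b = a + b := Eq.trans rfl rfl
theorem sub_eq (a b : ℕ) : Nat.sub a b = a - b := Eq.trans rfl rfl
theorem mul_eq (a b : ℕ) : Nat.mul a b = a * b := Eq.trans rfl rfl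
theorem div_eq (a b : ℕ) : Nat.div a b = a / b := Eq.trans rfl rfl
theorem mod_eq (a b : ℕ) : Nat.mod a b = a % b := Eq.trans rfl rfl
theorem pow_eq (a b : ℕ) : Nat.pow a b = a ^ b := Eq.trans rfl rfl
theorem beq_iff (a b : ℕ) : Nat.beq a b = true ↔ a = b := Nat.beq_eq ▸ Iff.rfl
theorem ble_iff (a b : ℕ) : Nat.ble a b = true ↔ a ≤ b := Nat.ble_eq ▸ Iff.rfl
theorem nx_eq : nx = nxt := rfl

/-- bit `i` of `x` is set -/
def Bt (x i : ℕ) : Prop := x.testBit i = true

theorem bt_zero (i : ℕ) : ¬ Bt 0 i := by simp [Bt]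
theorem bt_land (a b i : ℕ) : Bt (Nat.land a b) i ↔ Bt a i ∧ Bt b i := by simp [Bt]
theorem bt_lor (a b i : ℕ) : Bt (Nat.lor a b) i ↔ Bt a i ∨ Bt b i := by simp [Bt]
theorem bt_shl (a n i : ℕ) : Bt (Nat.shiftLeft a n) i ↔ n ≤ i ∧ Bt a (i - n) := by
  simp [Bt, Nat.testBit_shiftLeft]
theorem bt_shr (a n i : ℕ) : Bt (Nat.shiftRight a n) i ↔ Bt a (n + i) := by
  simp [Bt, Nat.testBit_shiftRight]
theorem bt_dif (a m i : ℕ) : Bt (dif a m) i ↔ Bt a i ∧ ¬ Bt m i := by
  simp only [Bt, dif, xor_eq, land_eq, Nat.testBit_xor, Nat.testBit_and]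
  cases a.testBit i <;> cases m.testBit i <;> simp
theorem bt_or3 (a b c i : ℕ) : Bt (or3 a b c) i ↔ Bt a i ∨ Bt b i ∨ Bt c i := by simp only [or3, bt_lor]
theorem bt_or4 (a b c d i : ℕ) : Bt (or4 a b c d) i ↔ Bt a i ∨ Bt b i ∨ Bt c i ∨ Bt d i := by
  simp only [or4, bt_lor, or_assoc]
theorem bt_sel (b : Bool) (t e i : ℕ) : Bt (selN b t e) i ↔ (b = true ∧ Bt t i) ∨ (b = false ∧ Bt e i) := by
  cases b <;> simp [selN_eq]
theorem bt_bit (q i : ℕ) : Bt (bit q) i ↔ i = q := by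
  simp only [Bt, bit, shl_eq, Nat.one_shiftLeft, Nat.testBit_two_pow, decide_eq_true_eq]
  exact eq_comm
theorem bt_orN (g : ℕ → ℕ) (n i : ℕ) : Bt (orN g n) i ↔ ∃ q, q < n ∧ Bt (g q) i := by
  induction n with
  | zero => simp [orN, bt_zero]
  | succ n ih =>
    rw [show orN g (n + 1) = Nat.lor (orN g n) (g n) from rfl, bt_lor, ih]
    constructor
    · rintro (⟨q, a, b⟩ | b)
      · exact ⟨q, by omega, b⟩
      · exact ⟨n, by omega, b⟩
    · rintro ⟨q, a, b⟩
      rcases Nat.lt_succ_iff_lt_or_eq.1 a with c | rfl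
      · exact .inl ⟨q, c, b⟩
      · exact .inr b
theorem tb_iff (m q : ℕ) : tb m q = true ↔ Bt m q := by
  simp only [tb, beq_iff, land_eq, shr_eq, Bt, Nat.testBit, Nat.and_comm 1, Nat.and_one_is_mod, bne_iff_ne]
  omega
theorem sub_iff (a b : ℕ) : sub a b = true ↔ ∀ i, Bt a i → Bt b i := by
  rw [sub, beq_iff]
  constructor
  · intro h i k
    rw [← h, bt_land] at k
    exact k.2
  · intro h
    refine Nat.eq_of_testBit_eq fun i => ?_
    have := h i
    simp only [Bt, land_eq, Nat.testBit_and] at *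
    cases e : a.testBit i <;> simp_all
theorem dj_iff (a b : ℕ) : dj a b = true ↔ ∀ i, Bt a i → ¬ Bt b i := by
  rw [dj, beq_iff]
  constructor
  · intro h i k l
    exact bt_zero i (h ▸ (bt_land a b i).2 ⟨k, l⟩)
  · intro h
    refine Nat.eq_of_testBit_eq fun i => ?_
    have := h i
    simp only [Bt, land_eq, Nat.testBit_and] at *
    cases e : a.testBit i <;> simp_all
theorem allN_iff (g : ℕ → Bool) (n : ℕ) : allN g n = true ↔ ∀ i, i < n → g i = true := by
  induction n with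
  | zero => simp [allN]
  | succ n ih =>
    rw [show allN g (n + 1) = band (allN g n) (g n) from rfl, band_eq, Bool.and_eq_true, ih]
    constructor
    · rintro ⟨a, b⟩ i h
      rcases Nat.lt_succ_iff_lt_or_eq.1 h with c | rfl
      · exact a i c
      · exact b
    · exact fun h => ⟨fun i c => h i (by omega), h n (by omega)⟩

def okB (q : ℕ) : Prop := q = 32 ∨ (q < 32 ∧ (q % 16 = 4 ∨ q % 16 = 6 ∨ q % 16 = 13 ∨ q % 16 = 15))
def okN (q : ℕ) : Prop := q = 32 ∨ (q < 32 ∧ (q / 4 + q % 4) % 2 = 0)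

/-- squares that have a cell: king `k` (used only for `m = 0`), bishop, knight, slot -/
structure Cel (m k b n r : ℕ) : Prop where
  hk : m = 0 → k = 22 ∨ k = 26 ∨ k = 30
  hb : okB b
  hn : okN n
  hr : r < 32

noncomputable def cel (m k b n r : ℕ) : ℕ :=
  (((if m = 0 then 7 - k / 4 else 0) * 9 + bI b) * 17 + n / 2) * 32 + r

def St.cl (s : St) : ℕ := if s.r < 32 then 0 else if s.R < 32 then 1 else 2
def St.pc (s : St) (f : ℕ) : ℕ := if s.r < 32 then s.p f else min (s.p f) 6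
def St.j (s : St) : ℕ :=
  16777216 * s.cl + 4096 * (s.w 0 + 8 * s.w 1 + 64 * s.w 2 + 512 * s.w 3) +
    (s.pc 0 + 8 * s.pc 1 + 64 * s.pc 2 + 512 * s.pc 3)
def St.R' (s : St) : ℕ := if s.r < 32 then s.R else 32
def St.u (s : St) : ℕ := 262144 * s.K + 4096 * s.B + 64 * s.N + s.R'
def St.c (s : St) : ℕ := 8388608 * s.j + s.u
def St.m (s : St) : ℕ := if s.r < 32 then (if 5 ≤ s.p 2 then 0 else 1) else if s.R < 32 then 2 else 3
def St.sl (s : St) : ℕ := if s.r < 32 then s.r else s.R % 32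
noncomputable def St.ix (s : St) : ℕ := cel s.m s.k s.b s.n s.sl
/-- the cell with the exact king -/
noncomputable def St.ix0 (s : St) : ℕ := cel 0 s.k s.b s.n s.sl

theorem cc_eq (j u : ℕ) : cc j u = 8388608 * j + u := Eq.trans rfl rfl

def InT (T : ℕ → ℕ) (s : St) : Prop := Bt (T s.c) s.ix
/-- White to move: Black has left the king attacked, or White has a move into the table -/
def Win (T : ℕ → ℕ) (s : St) : Prop := AttB s ∨ ∃ s'', WMove s s'' ∧ InT T s''

/-- geometry of a move of piece `a` (0 king, 1 rook, 2 bishop, 3 knight) -/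
def Mv (E : ℕ → Prop) (a s q : ℕ) : Prop :=
  (a = 0 ∧ ∃ d, d < 2 ∧ nxt d s = q) ∨ (a = 1 ∧ ∃ d, d < 4 ∧ Sl E d s q) ∨
    (a = 2 ∧ ∃ d, 4 ≤ d ∧ d < 8 ∧ Sl E d s q) ∨ (a = 3 ∧ ∃ d, 8 ≤ d ∧ d < 12 ∧ nxt d s = q)

/-- `t` is not one of the blocking squares of the test -/
def Fr (j z u t : ℕ) : Prop := ¬ Bt (wpn j) t ∧ ¬ Bt z t ∧ ¬ Bt (pm u) t

/-- unit of the field of piece `a` -/
def hA (a : ℕ) : ℕ := if a = 0 then 262144 else if a = 1 then 1 else if a = 2 then 4096 else 64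

/-- piece `a` of White stands on `q` (the rook counts only while the black rook is on the board) -/
def St.At (s : St) (a q : ℕ) : Prop :=
  (a = 0 ∧ s.K = q) ∨ (a = 1 ∧ s.r < 32 ∧ s.R = q) ∨ (a = 2 ∧ s.B = q) ∨ (a = 3 ∧ s.N = q)

def St.mv (s : St) (a q : ℕ) : St :=
  if a = 0 then { s.rem q with K := q } else if a = 1 then { s.rem q with R := q }
  else if a = 2 then { s.rem q with B := q } else { s.rem q with N := q }

/-- every valid state with key `(j, u)` and a cell in `y` is won back into the table -/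
def Cov (T : ℕ → ℕ) (y m j u : ℕ) : Prop :=
  ∀ s : St, Valid s → s.m = m → s.j = j → s.u = u → Bt y s.ix → Win T s

def Tp.All (P : Tr → Prop) (t : Tp) : Prop := @Tp.rec (fun _ => Prop) P (fun _ _ _ a b => a ∧ b) t

end Pool.Agent.Lib.MP_15f43f_co
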