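import Pool.Agent.Lib.MP_15f43f_co.White

namespace Pool.Agent.Lib.MP_15f43f_co

variable {T H : ℕ → ℕ} {s s' : St} {y m j u st : ℕ} {kf : ℕ → Bool}

theorem blk_items {g : ℕ → ℕ} {i : ℕ} (n : ℕ) :
    ∀ x, Bt (items g n x) i → ∃ k, k < 4096 ∧ Bt (g k) i := by
  induction n with
  | zero => exact fun x h => absurd h (bt_zero i)
  | succ n ih =>
    intro x h
    rw [show items g (n + 1) x = frN (Nat.land x 4095)
      (fun k => Nat.lor (g k) (items g n (Nat.shiftRight x 12))) from rfl, frN_eq, bt_lor] at h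
    rcases h with h | h
    · exact ⟨_, Nat.lt_succ_of_le (Nat.and_le_right (n := x) (m := 4095)), h⟩
    · exact ih _ h

theorem hd_bt {g : ℕ → ℕ} {i : ℕ} (h : Bt (hd g st) i) : ∃ k, k < 4096 ∧ Bt (g k) i :=
  blk_items _ _ h

theorem blk_obc (h : obc T y m j u kf st = true) : Cov T y m j u ∧ ∃ st', kf st' = true := by
  rw [obc, band_eq, Bool.and_eq_true, sub_iff, frB_eq] at h
  refine ⟨fun s hv hm hj hu hy => ?_, _, h.2⟩
  obtain ⟨k, hk, hi⟩ := hd_bt (h.1 _ hy)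
  subst hm hj hu
  exact item_sound hv hk hi

theorem blk_sel {a b : Bool} (h : selB (Nat.beq y 0) a b = true) : (y = 0 ∧ a = true) ∨ b = true := by
  rw [selB_eq] at h
  split_ifs at h with c
  · exact .inl ⟨(beq_iff _ _).1 c, h⟩
  · exact .inr h

theorem blk_cov0 : Cov T 0 m j u := fun _ _ _ _ _ hy => absurd hy (bt_zero _)

theorem ob0_sound (h : ob0 T y m j u kf st = true) : Cov T y m j u ∧ ∃ st', kf st' = true := by
  rcases blk_sel h with ⟨rfl, c⟩ | c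
  · exact ⟨blk_cov0, _, c⟩
  · exact blk_obc c
theorem obU_sound (h : obU T y m j u kf st = true) : Cov T y m j u ∧ ∃ st', kf st' = true := by
  rcases blk_sel h with ⟨rfl, c⟩ | c
  · exact ⟨blk_cov0, _, c⟩
  · rw [frB_eq] at c
    exact blk_obc c
theorem obJ_sound (h : obJ T y m j u kf st = true) : Cov T y m j u ∧ ∃ st', kf st' = true := by
  rcases blk_sel h with ⟨rfl, c⟩ | c
  · exact ⟨blk_cov0, _, c⟩
  · rw [frB_eq] at c
    exact blk_obc c

theorem blk_r (hm : s.m ≤ 1) : s.r < 32 := by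
  rcases fld_sl s with a | a | a
  · exact a.1
  · have := a.2.2.2.2
    omega
  · have := a.2.2.2
    omega

theorem obG_sound (h : obG T y j u kf st = true) :
    (∀ s : St, Valid s → s.m = 1 → Cel 0 s.k s.b s.n s.sl → s.j = j → s.u = u → Bt y s.ix0 → Win T s) ∧
      ∃ st', kf st' = true := by
  rcases blk_sel h with ⟨rfl, c⟩ | c
  · exact ⟨fun _ _ _ _ _ _ hy => absurd hy (bt_zero _), _, c⟩
  · rw [frB_eq, frB_eq] at c
    obtain ⟨c1, c2⟩ := ob0_sound c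
    refine ⟨fun s hv hm hc hj hu hy => ?_, c2⟩
    by_cases e : Bt (hd (iti j u) st) s.ix0
    · obtain ⟨k, -, hi⟩ := hd_bt e
      subst hj hu
      exact .inl (iti_sound hv (blk_r hm.le) hc hi)
    · refine c1 s hv hm hj hu ?_
      rw [St.ix, hm]
      exact fold3_cel hc ((bt_dif _ _ _).2 ⟨hy, e⟩)

theorem obP_sound (h : obP y m j u kf st = true) :
    (∀ i, Bt y i → m = 0 ∧ ∀ s : St, Valid s → s.r < 32 → Cel 0 s.k s.b s.n s.sl → s.j = j → s.u = u →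
      s.ix0 = i → AttB s) ∧ ∃ st', kf st' = true := by
  rcases blk_sel h with ⟨rfl, c⟩ | c
  · exact ⟨fun _ hy => absurd hy (bt_zero _), _, c⟩
  · rw [band_eq, Bool.and_eq_true, beq_iff, frB_eq, band_eq, Bool.and_eq_true, sub_iff, frB_eq] at c
    refine ⟨fun i hy => ⟨c.1, fun s hv hr hc hj hu hi => ?_⟩, _, c.2.2⟩
    obtain ⟨k, -, hk⟩ := hd_bt (c.2.1 i hy)
    subst hj hu hi
    exact iti_sound hv hr hc hk

/-- what the test of the pushes on file `f` gives -/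
structure BlkP (T : ℕ → ℕ) (j m u x f : ℕ) : Prop where
  one : pk j m f = 1 ∨ pk j m f = 2 → Cov T (y1 j m u x f) m (jd j f) u
  two : pk j m f = 2 → Cov T (y2 j m u (y1 j m u x f) f) m (jd (jd j f) f) u
  gho : pk j m f = 3 → ∀ s : St, Valid s → s.m = 1 → Cel 0 s.k s.b s.n s.sl → s.j = jd j f → s.u = u →
    Bt (y1 j m u x f) s.ix0 → Win T s
  pro : pk j m f = 4 → ∀ i, Bt (y1 j m u x f) i → m = 0 ∧ ∀ s : St, Valid s → s.r < 32 →
    Cel 0 s.k s.b s.n s.sl → s.j = jd j f → s.u = u → s.ix0 = i → AttB s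

theorem blk_ckP {x f : ℕ} (h : ckP T j m u x f kf st = true) :
    BlkP T j m u x f ∧ ∃ st', kf st' = true := by
  unfold ckP at h
  generalize e : pk j m f = c at h
  rcases c with _ | _ | _ | _ | c
  · rw [casB_zero] at h
    exact ⟨⟨by omega, by omega, by omega, by omega⟩, _, h⟩
  · rw [casB_succ, casB_zero] at h
    exact ⟨⟨fun _ => (obJ_sound h).1, by omega, by omega, by omega⟩, (obJ_sound h).2⟩
  · rw [casB_succ, casB_succ, casB_zero] at h
    obtain ⟨a, _, b⟩ := obJ_sound h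
    exact ⟨⟨fun _ => a, fun _ => (obJ_sound b).1, by omega, by omega⟩, (obJ_sound b).2⟩
  · rw [casB_succ, casB_succ, casB_succ, casB_zero] at h
    exact ⟨⟨by omega, by omega, fun _ => (obG_sound h).1, by omega⟩, (obG_sound h).2⟩
  · rw [casB_succ, casB_succ, casB_succ, casB_succ] at h
    exact ⟨⟨by omega, by omega, by omega, fun _ => (obP_sound h).1⟩, (obP_sound h).2⟩

theorem blk_ckS {x a : ℕ} (h : ckS T j m u x a kf st = true) :
    (m = 2 → Cov T (fold32 (Nat.lor (Nat.land a dR) (Nat.land x (kzM j)))) 3 (j + 16777216) u) ∧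
      ∃ st', kf st' = true := by
  rw [ckS, selB_eq] at h
  split_ifs at h with c
  · exact ⟨fun _ => (obJ_sound h).1, (obJ_sound h).2⟩
  · exact ⟨fun e => absurd ((beq_iff _ _).2 e) c, _, h⟩

/-- all obligations of one key -/
structure BlkO (T : ℕ → ℕ) (j m u v x a : ℕ) : Prop where
  dK : ∀ i, Bt a i → ¬ Bt (oK m u) i
  c0 : Cov T (selN (Nat.beq m 0) (Nat.land a v) (Nat.lor (Nat.land a v) x)) m j u
  cR : Cov T (cp j x a (oR m u) (uR u)) m j (u - uR u + 32)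
  cB : Cov T (cp j x a (oB m u) (uB u)) m j (u - uB u * 4096 + 131072)
  cN : Cov T (cp j x a (oN m u) (uN u)) m j (u - uN u * 64 + 2048)
  cW : ∀ f, f < 4 → Cov T (Nat.land a (oW j m f)) m (jx j f) u
  cS : m = 2 → Cov T (fold32 (Nat.lor (Nat.land a dR) (Nat.land x (kzM j)))) 3 (j + 16777216) u
  cP : ∀ f, f < 4 → BlkP T j m u x f

theorem blk_ckX {v x a : ℕ} (h : ckX T j m u v x a st = true) : BlkO T j m u v x a := by
  rw [ckX, band_eq, Bool.and_eq_true, dj_iff] at h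
  obtain ⟨h0, h⟩ := h
  obtain ⟨h1, _, h⟩ := ob0_sound h
  obtain ⟨h2, _, h⟩ := obU_sound h
  obtain ⟨h3, _, h⟩ := obU_sound h
  obtain ⟨h4, _, h⟩ := obU_sound h
  obtain ⟨w0, _, h⟩ := obJ_sound h
  obtain ⟨w1, _, h⟩ := obJ_sound h
  obtain ⟨w2, _, h⟩ := obJ_sound h
  obtain ⟨w3, _, h⟩ := obJ_sound h
  obtain ⟨h5, _, h⟩ := blk_ckS h
  obtain ⟨p0, _, h⟩ := blk_ckP h
  obtain ⟨p1, _, h⟩ := blk_ckP h
  obtain ⟨p2, _, h⟩ := blk_ckP h
  obtain ⟨p3, -⟩ := blk_ckP h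
  refine ⟨h0, h1, h2, h3, h4, fun f hf => ?_, h5, fun f hf => ?_⟩
  · rcases fld_four hf with rfl | rfl | rfl | rfl
    exacts [w0, w1, w2, w3]
  · rcases fld_four hf with rfl | rfl | rfl | rfl
    exacts [p0, p1, p2, p3]

theorem blk_chk (h : Valid s) (hT : InT T s) (hc : chk T H s.j s.m s.u = true) :
    ∃ x, Bt x s.ix ∧ BlkO T s.j s.m s.u (vv s.j s.m s.u) x (att s.m (vv s.j s.m s.u) x) := by
  rw [chk, frB_eq] at hc
  exact ⟨_, (bt_land _ _ _).2 ⟨hT, vv_ix h⟩, blk_ckX hc⟩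

theorem blk_sl (hr : s.r < 32) : s.sl = s.r ∧ s.m < 2 := by
  rcases fld_sl s with a | a | a
  · exact ⟨a.2.1, by have := a.2.2.2; omega⟩
  · exact absurd hr a.1
  · exact absurd hr a.1

variable {x d t : ℕ}

theorem blk_ar (h : Valid s) (hx : Bt x s.ix) (hd : d < 4) (hr : s.r < 32) (l : Sl s.E d s.r t) :
    Bt (att s.m (vv s.j s.m s.u) x) (cel s.m s.k s.b s.n t) ∧ Bt (on s.m t) (cel s.m s.k s.b s.n t) := by
  obtain ⟨e, hm⟩ := blk_sl hr
  have c := cel_ok h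
  rw [St.ix, e] at hx
  rw [e] at c
  exact ⟨att_r c hm hd l (fun q hq hE => vv_r h hr hq hE) hx,
    (on_cel ⟨c.hk, c.hb, c.hn, l.lt⟩).2 ⟨l.lt, .inr (.inr (.inl ⟨by omega, rfl⟩))⟩⟩

theorem blk_ab (h : Valid s) (hx : Bt x s.ix) (h4 : 4 ≤ d) (h8 : d < 8) (hb : s.b < 32)
    (l : Sl s.E d s.b t) :
    Bt (att s.m (vv s.j s.m s.u) x) (cel s.m s.k t s.n s.sl) ∧ Bt (on s.m t) (cel s.m s.k t s.n s.sl) := by
  have c := cel_ok h
  obtain ⟨a, b⟩ := att_b c hb h4 h8 l (fun q hq o hE => vv_b h hq o hE) hx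
  exact ⟨b, (on_cel ⟨c.hk, a, c.hn, c.hr⟩).2 ⟨l.lt, .inl rfl⟩⟩

theorem blk_an (h : Valid s) (hx : Bt x s.ix) (h8 : 8 ≤ d) (h12 : d < 12) (hn : s.n < 32)
    (l : nxt d s.n = t) (ht : t < 32) :
    Bt (att s.m (vv s.j s.m s.u) x) (cel s.m s.k s.b t s.sl) ∧ Bt (on s.m t) (cel s.m s.k s.b t s.sl) := by
  have c := cel_ok h
  obtain ⟨a, b⟩ := att_n (v := vv s.j s.m s.u) c hn h8 h12 l ht hx
  exact ⟨b, (on_cel ⟨c.hk, c.hb, a, c.hr⟩).2 ⟨ht, .inr (.inl rfl)⟩⟩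

theorem chk_K (h : Valid s) (hT : InT T s) (hc : chk T H s.j s.m s.u = true) : ¬ AttW s := by
  obtain ⟨x, hx, o⟩ := blk_chk h hT hc
  have k := o.dK
  rw [oK, frN_eq, uK_u h] at k
  rintro (⟨a, d, b, l⟩ | ⟨a, d, b, c, l⟩ | ⟨a, d, b, c, l⟩)
  · exact k _ (blk_ar h hx b a l).1 (blk_ar h hx b a l).2
  · exact k _ (blk_ab h hx b c a l).1 (blk_ab h hx b c a l).2
  · exact k _ (blk_an h hx b c a l h.hK.1).1 (blk_an h hx b c a l h.hK.1).2

theorem blk_cp {a o q i : ℕ} (h : (Bt a i ∧ Bt o i) ∨ (Bt x i ∧ Bt (kz j) q)) : Bt (cp j x a o q) i := by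
  rw [cp, selN_eq]
  split_ifs with c
  · rw [bt_lor, bt_land]
    exact h.imp id And.left
  · rw [bt_land]
    exact h.resolve_right fun e => c ((tb_iff _ _).2 e.2)

/-- a black piece has gone to `t`; `i` is the new cell in the old coordinates -/
theorem blk_piece {a i σ : ℕ} (h : Valid s) (h' : Valid s') (ha : Aft s t s')
    (o : BlkO T s.j s.m s.u (vv s.j s.m s.u) x a) (hσ : σ = if s.r < 32 then s'.r else s.sl)
    (hi : i = cel s.m s'.k s'.b s'.n σ)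
    (hm : (Bt a i ∧ Bt (on s.m t) i ∧ (s.m = 2 → s'.b = t ∨ s'.n = t)) ∨
      (s.m ≠ 0 ∧ Bt x i ∧ Bt (kz s.j) t ∧ ¬ s.isW t)) : Win T s' := by
  have ix (e : s'.m = s.m) (e' : s.r < 32 ∨ s'.R = s.R) : s'.ix = i := by
    rw [hi, St.ix, e, hσ, St.sl, St.sl]
    by_cases c : s.r < 32
    · rw [if_pos c, if_pos (ha.r.2 c)]
    · rw [if_neg c, if_neg c, if_neg (fun z => c (ha.r.1 z)), e'.resolve_left c]
  have cpx {q : ℕ} (e : q = t) : Bt (cp s.j x a (frN q (on s.m)) q) i := by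
    rw [frN_eq, e]
    exact blk_cp (hm.imp (fun z => ⟨z.1, z.2.1⟩) fun z => ⟨z.2.1, z.2.2.1⟩)
  by_cases hW : s.Wh t
  · rcases hW with e | e | e | e | e
    · exact absurd e ha.nK
    · by_cases hr : s.r < 32
      · obtain ⟨a1, a2, a3, a4⟩ := aft_R0 h ha e hr
        refine o.cR s' h' a3 a1 a2 ?_
        rw [ix a3 (.inl hr)]
        exact cpx a4
      · obtain ⟨a1, a2, a3, a4, a5, a6⟩ := aft_R1 h ha e hr
        refine o.cS a4 s' h' a3 a1 a2 ?_
        have c := cel_ok h'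
        have c2 : Cel s.m s'.k s'.b s'.n t := ⟨by omega, c.hb, c.hn, ha.lt⟩
        rw [if_neg hr, a6] at hσ
        subst hσ
        rw [St.ix, a5]
        refine fold32_cel c2 (by omega) (by omega) ?_
        rw [← hi, bt_lor, bt_land, bt_land]
        refine hm.imp (fun z => ⟨z.1, ?_⟩) fun z => ⟨z.2.1, ?_⟩
        · rw [hi]
          exact (dR_cel c2).2 (z.2.2 a4)
        · rw [hi, kzM, frN_eq]
          exact (rep32_cel c2 (kz_lt _)).2 z.2.2.1
    · obtain ⟨a1, a2, a3, a4⟩ := aft_B h ha e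
      refine o.cB s' h' a3 a1 a2 ?_
      rw [ix a3 (.inr a4)]
      exact cpx ((uB_u h).trans e.symm)
    · obtain ⟨a1, a2, a3, a4⟩ := aft_N h ha e
      refine o.cN s' h' a3 a1 a2 ?_
      rw [ix a3 (.inr a4)]
      exact cpx ((uN_u h).trans e.symm)
    · obtain ⟨a1, a2, a3, a4⟩ := aft_W h ha e
      refine o.cW _ (Nat.mod_lt t (by decide)) s' h' a3 a1 a2 ?_
      rw [ix a3 (.inr a4), bt_land, oW, frN_eq, wsq_j h ha.lt e]
      rcases hm with z | z
      · exact ⟨z.1, z.2.1⟩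
      · exact absurd e z.2.2.2
  · obtain ⟨a1, a2, a3, a4⟩ := aft_E h ha ⟨hW, ha.nb⟩
    refine o.c0 s' h' a3 a1 a2 ?_
    have v := vv_ix h'
    rw [a1, a2, a3] at v
    rw [ix a3 (.inr a4)] at v ⊢
    rw [selN_eq]
    split_ifs with c
    · rcases hm with z | z
      · exact (bt_land _ _ _).2 ⟨z.1, v⟩
      · exact absurd ((beq_iff _ _).1 c) z.1
    · rw [bt_lor, bt_land]
      exact hm.imp (fun z => ⟨z.1, v⟩) fun z => z.2.1

theorem blk_rem (hb : ¬ s.Bl t) : (s.rem t).r = s.r ∧ (s.rem t).b = s.b ∧ (s.rem t).n = s.n :=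
  ⟨if_neg fun e => hb (.inr (.inl e.symm)), if_neg fun e => hb (.inr (.inr (.inl e.symm))),
    if_neg fun e => hb (.inr (.inr (.inr (.inl e.symm))))⟩

theorem blk_sig (s : St) : s.sl = if s.r < 32 then s.r else s.sl := by
  unfold St.sl
  split_ifs <;> rfl

variable {f q : ℕ}

theorem blk_nq (h : Valid s) (hE : s.E q) : Bt (nq s.m q) s.ix := by
  have c := cel_ok h
  rw [St.ix, nq_cel c, on_cel c]
  rintro ⟨-, e | e | ⟨e, e'⟩ | ⟨-, e⟩⟩
  · exact hE.2 (.inr (.inr (.inl e)))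
  · exact hE.2 (.inr (.inr (.inr (.inl e))))
  · rcases fld_sl s with a | a | a
    · exact hE.2 (.inr (.inl (e'.trans a.2.1)))
    · exact hE.1 (.inr (.inl (e'.trans a.2.2.1)))
    · exact e a.2.2.2
  · exact hE.2 (.inl e)

theorem blk_pm (h : Valid s) (hq : q < 32) (hE : s.E q) : ¬ Bt (pm s.u) q := by
  obtain ⟨-, -, a, b, c, e⟩ := fld_emp hq hE
  rw [pm_u h hq]
  tauto

theorem blk_wp (h : Valid s) (hq : q < 32) (hE : s.E q) : ¬ tb (wpn s.j) q = true := by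
  rw [tb_iff, wpn_j h hq]
  exact (fld_emp hq hE).1

theorem blk_y1 (h : Valid s) (hx : Bt x s.ix) (e : q1 s.j f = q) (hq : q < 32) (hE : s.E q) :
    Bt (y1 s.j s.m s.u x f) s.ix := by
  rw [y1, selN_eq, if_pos, bt_land, nq1, frN_eq, e]
  · exact ⟨hx, blk_nq h hE⟩
  · rw [dj_iff, bq1, e]
    intro i a b
    rw [bt_bit] at b
    exact blk_pm h hq hE (b ▸ a)

theorem blk_y2 (h : Valid s) (hy : Bt y s.ix) (hf : f < 4) (hE : s.E (16 + f)) :
    Bt (y2 s.j s.m s.u y f) s.ix := by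
  have hq : 16 + f < 32 := by omega
  rw [y2, selN_eq, add_eq, if_neg (by rw [tb_iff]; exact blk_pm h hq hE), bt_land, nq2, selN_eq, add_eq,
    if_neg (blk_wp h hq hE), frN_eq]
  exact ⟨hy, blk_nq h hE⟩

theorem blk_pk {z : ℕ} (h : Valid s) (hz : jp s.j f = z) (h2 : 2 ≤ z) (hq : 4 * (z - 2) + f < 32)
    (hE : s.E (4 * (z - 2) + f)) : q1 s.j f = 4 * (z - 2) + f ∧ pk s.j s.m f =
      if z = 7 then 2 else if z = 2 then 4 else if s.m = 0 ∧ f = 2 ∧ z = 5 then 3 else 1 := by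
  have e : q1 s.j f = 4 * (z - 2) + f := by rw [q1, hz]; rfl
  refine ⟨e, ?_⟩
  rw [pk, e, hz, selN_eq, if_neg]
  · simp only [selN_eq, band_eq, Bool.and_eq_true, beq_iff, and_assoc]
  · rw [bor_eq, Bool.or_eq_true, ble_iff]
    rintro (a | a)
    · omega
    · exact blk_wp h hq hE a

theorem blk_ix {z : ℕ} (e : (s.setP f z).m = s.m) : (s.setP f z).ix = s.ix := by
  rw [St.ix, St.ix, e, (setP_u z).2.1]
  rfl

theorem blk_ix0 (hm : s.m = 0) : s.ix0 = s.ix := by rw [St.ix, hm, St.ix0]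

theorem blk_c0 {z : ℕ} (h : Valid s) (hm : s.m = 0) :
    Cel 0 (s.setP f z).k (s.setP f z).b (s.setP f z).n (s.setP f z).sl := by
  have c := cel_ok h
  rw [hm] at c
  exact c

theorem chk_B (h : Valid s) (hT : InT T s) (hc : chk T H s.j s.m s.u = true) (hm : BMove s s') :
    Win T s' := by
  obtain ⟨x, hx, o⟩ := blk_chk h hT hc
  have h' := hm.valid h
  cases hm with
  | rook d t hd hr l a b =>
    obtain ⟨-, e2, e3⟩ := blk_rem a
    obtain ⟨c1, c2⟩ := blk_ar h hx hd hr l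
    refine blk_piece (σ := t) h h' ⟨rfl, rfl, rfl, rfl, rfl, rfl, iff_of_true l.lt hr, l.lt, a, b⟩ o
      (if_pos hr).symm ?_ (.inl ⟨c1, c2, fun z => absurd (blk_sl hr).2 (by omega)⟩)
    rw [← e2, ← e3]
    rfl
  | bishop d t h4 h8 hb l a b =>
    obtain ⟨e1, -, e3⟩ := blk_rem a
    obtain ⟨c1, c2⟩ := blk_ab h hx h4 h8 hb l
    refine blk_piece (σ := s.sl) h h' ⟨rfl, rfl, rfl, rfl, rfl, rfl, e1 ▸ Iff.rfl, l.lt, a, b⟩ o
      (e1 ▸ blk_sig s) ?_ (.inl ⟨c1, c2, fun _ => .inl rfl⟩)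
    rw [← e3]
    rfl
  | knight d t h8 h12 hn l ht a b =>
    obtain ⟨e1, e2, -⟩ := blk_rem a
    obtain ⟨c1, c2⟩ := blk_an h hx h8 h12 hn l ht
    refine blk_piece (σ := s.sl) h h' ⟨rfl, rfl, rfl, rfl, rfl, rfl, e1 ▸ Iff.rfl, ht, a, b⟩ o
      (e1 ▸ blk_sig s) ?_ (.inl ⟨c1, c2, fun _ => .inr rfl⟩)
    rw [← e2]
    rfl
  | king d t hd l ht a b =>
    obtain ⟨e1, e2, e3⟩ := blk_rem a
    have ha : Aft s t { s.rem t with k := t } :=
      ⟨rfl, rfl, rfl, rfl, rfl, rfl, e1 ▸ Iff.rfl, ht, a, b⟩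
    have hi : cel s.m t s.b s.n s.sl = cel s.m t (s.rem t).b (s.rem t).n s.sl := by rw [e2, e3]
    refine blk_piece (σ := s.sl) h h' ha o (e1 ▸ blk_sig s) hi ?_
    have k1 : t % 4 = 2 := h'.hk.2
    have k2 : s.p 2 < t / 4 + 1 := ha.pp ▸ h'.e.2
    by_cases z : s.m = 0
    · have c := cel_ok h
      have p5 : 5 ≤ s.p 2 := by
        have := blk_r (s := s) (by omega)
        rw [St.m, if_pos this] at z
        by_contra y
        rw [if_neg y] at z
        exact one_ne_zero z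
      rw [St.ix] at hx
      rw [z] at c hx ⊢
      have c' : Cel 0 t s.b s.n s.sl := ⟨fun _ => by omega, c.hb, c.hn, c.hr⟩
      exact .inl ⟨att_k c c' hd l hx, (on_cel c').2 ⟨ht, .inr (.inr (.inr ⟨rfl, rfl⟩))⟩, by omega⟩
    · refine .inr ⟨z, ?_, kz_j h z ht k1 (by omega), fun w => ?_⟩
      · rw [cel_m (k' := s.k) z z]
        exact hx
      · rw [St.isW, k1] at w
        have := (h.pw 2 (by decide)).2.2
        have := h.e.1
        omega
  | pawn f hf h3 hE =>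
    have p7 := (h.pw f hf).2.1
    by_cases z : s.r < 32 ∨ s.p f ≤ 6
    · obtain ⟨a1, a2, a3⟩ := setP_one h hf (by omega) z
      obtain ⟨b1, b2⟩ := blk_pk h a1 (by omega) (by omega) hE
      have y := blk_y1 h hx b1 (by omega) hE
      by_cases g : s.m = 0 ∧ f = 2 ∧ s.p f = 5
      · rw [if_pos g] at a3
        rw [if_neg (by omega), if_neg (by omega), if_pos g] at b2
        refine (o.cP f hf).gho b2 _ h' a3 (blk_c0 h g.1) a2 (setP_u _).1 ?_
        rw [(setP_u _).2.2, blk_ix0 g.1]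
        exact y
      · rw [if_neg g] at a3
        refine (o.cP f hf).one ?_ _ h' a3 a2 (setP_u _).1 (blk_ix a3 ▸ y)
        rw [b2, if_neg g]
        split_ifs <;> omega
    · have r : ¬ s.r < 32 := fun c => z (.inl c)
      have e7 : s.p f = 7 := by omega
      obtain ⟨a1, a2, -⟩ := setP_far h hf r e7
      rw [e7] at h' ⊢
      refine o.c0 _ h' a2 a1 (setP_u _).1 ?_
      rw [blk_ix a2, selN_eq, if_neg, bt_lor]
      · exact .inr hx
      · rw [beq_iff]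
        exact fun c => r (blk_r (by omega))
  | pawn2 f hf h7 hE hE' =>
    by_cases r : s.r < 32
    · obtain ⟨a1, -⟩ := setP_one h hf (by omega) (.inl r)
      obtain ⟨a2, a3⟩ := setP_two h hf r h7
      rw [h7] at a1
      obtain ⟨b1, b2⟩ := blk_pk h a1 (by omega) (by omega) hE
      exact (o.cP f hf).two b2 _ h' a3 a2 (setP_u _).1
        (blk_ix a3 ▸ blk_y2 h (blk_y1 h hx b1 (by omega) hE) hf hE')
    · obtain ⟨-, -, a1, a2, a3⟩ := setP_far h hf r h7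
      obtain ⟨b1, b2⟩ := blk_pk h a1 (by omega) (by omega) hE'
      refine (o.cP f hf).one (.inl ?_) _ h' a3 a2 (setP_u _).1
        (blk_ix a3 ▸ blk_y1 h hx b1 (by omega) hE')
      rw [b2, if_neg (by omega), if_neg (by omega), if_neg (by omega)]

theorem chk_P (h : Valid s) (hT : InT T s) (hc : chk T H s.j s.m s.u = true) {f : ℕ} (hf : f < 4)
    (h2 : s.p f = 2) (hE : s.E f) : AttB (s.setP f 1) := by
  obtain ⟨x, hx, o⟩ := blk_chk h hT hc
  obtain ⟨a1, a2, -⟩ := setP_one h hf (by omega) (.inr (by omega))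
  rw [h2] at a1 a2
  have hE' : s.E (4 * (2 - 2) + f) := by simpa using hE
  obtain ⟨b1, b2⟩ := blk_pk h a1 le_rfl (by omega) hE'
  obtain ⟨c1, c2⟩ := (o.cP f hf).pro b2 _ (blk_y1 h hx b1 (by omega) hE')
  exact c2 _ (valid_promo h hf h2 hE) (blk_r (s := s) (by omega)) (blk_c0 h c1) a2 (setP_u _).1
    ((setP_u _).2.2.trans (blk_ix0 c1))

end Pool.Agent.Lib.MP_15f43f_co
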