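namespace Pool.Agent.Lib.MP_15f43f_co

/-! Bit vector checker (core library only). A cell is `((k * 9 + b) * 17 + n) * 32 + slot`.
A key is `c = j * 2^23 + u`, `u = K * 2^18 + B * 2^12 + N * 2^6 + R`,
`j = class * 2^24 + white pawns * 2^12 + black pawns` (three bits per file). -/

noncomputable section

/-- `frN x f = f x`; the kernel evaluates `x` first -/
def frN (x : Nat) (f : Nat → Nat) : Nat := @Nat.rec (fun _ => Nat) 0 (fun n _ => f n) (Nat.succ x)
def frB (x : Nat) (f : Nat → Bool) : Bool := @Nat.rec (fun _ => Bool) false (fun n _ => f n) (Nat.succ x)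
def selN (b : Bool) (t e : Nat) : Nat := @Bool.rec (fun _ => Nat) e t b
def selB (b t e : Bool) : Bool := @Bool.rec (fun _ => Bool) e t b
def casB (x : Nat) (z : Bool) (s : Nat → Bool) : Bool := @Nat.rec (fun _ => Bool) z (fun n _ => s n) x
def band (a b : Bool) : Bool := @Bool.rec (fun _ => Bool) false b a
def bor (a b : Bool) : Bool := @Bool.rec (fun _ => Bool) b true a
def dif (a m : Nat) : Nat := Nat.xor a (Nat.land a m)
def sub (a b : Nat) : Bool := Nat.beq (Nat.land a b) a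
def dj (a b : Nat) : Bool := Nat.beq (Nat.land a b) 0
def tb (m q : Nat) : Bool := Nat.beq (Nat.land (Nat.shiftRight m q) 1) 1
def or3 (a b c : Nat) : Nat := Nat.lor a (Nat.lor b c)
def or4 (a b c d : Nat) : Nat := Nat.lor (Nat.lor a b) (Nat.lor c d)
/-- union of `g q` over `q < n` -/
def orN (g : Nat → Nat) (n : Nat) : Nat :=
  @Nat.rec (fun _ => Nat) 0 (fun q acc => Nat.lor acc (frN q g)) n
def nxT : Nat := 0x81a65881655481245080e34c80a24880614480204082082082081b69981759581349180f38d80b28980718580308182082082082081e75c81a65881655481245080e34c80a24880614482082082081f79d81b69981759581349180f38d80b28980718581655481245080e34c80a24880614480204082082082082082081759581349180f38d80b28980718580308182082082082082082082082081e75c81a65881655481245080e34c80a24882082082082082081f79d81b69981759581349180f38d80b28981e75c81a65881655481245080e34c80a24880614480204082081f79d81b69981759581349180f38d80b28980718580308181b69961759551349140f38d30b2892071851030810208208208208207de75c6da6585d65544d24503ce34c2ca2481c6144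
def nx (d s : Nat) : Nat := Nat.land (Nat.shiftRight nxT (Nat.mul 6 (Nat.add (Nat.mul 33 d) s))) 63

/-! masks -/
def all3 : Nat := Nat.pred (Nat.pow 2 14688)
def all1 : Nat := Nat.pred (Nat.pow 2 4896)
def allM (m : Nat) : Nat := selN (Nat.beq m 0) all3 all1
def o32 : Nat := Nat.div all3 4294967295
def f544 : Nat := Nat.pred (Nat.pow 2 544)
def o544 : Nat := Nat.div all3 f544
def o4896 : Nat := Nat.div all3 all1
def col0 : Nat := Nat.land o32 all1
def rep32 (z : Nat) : Nat := Nat.mul z o32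
def n0 : Nat := Nat.mul 4294967295 o544
def b0 : Nat := Nat.mul f544 o4896
def onNi (i : Nat) : Nat := Nat.shiftLeft n0 (Nat.mul 32 i)
def onBi (i : Nat) : Nat := Nat.shiftLeft b0 (Nat.mul 544 i)
/-- index of the black bishop: squares 6 15 4 13 22 31 20 29 32 have indices 0..8 -/
def bI (q : Nat) : Nat := Nat.land (Nat.shiftRight 153843040237108855296 (Nat.mul 4 (Nat.div q 2))) 15
def onR (q : Nat) : Nat := selN (Nat.ble 32 q) 0 (Nat.shiftLeft o32 q)
def onN (q : Nat) : Nat := selN (tb 2779096485 q) (onNi (Nat.div q 2)) 0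
def onB (q : Nat) : Nat := selN (tb 2689638480 q) (onBi (bI q)) 0
def onK (q : Nat) : Nat :=
  selN (tb 1145044992 q) (Nat.shiftLeft all1 (Nat.mul 4896 (Nat.sub 7 (Nat.div q 4)))) 0
/-- cells with a black piece (or the white rook of the slot) on `q` -/
def on (m q : Nat) : Nat :=
  Nat.land (allM m) (Nat.lor (Nat.lor (onB q) (onN q))
    (selN (Nat.beq m 3) 0 (Nat.lor (onR q) (selN (Nat.beq m 0) (onK q) 0))))
def nq (m q : Nat) : Nat := dif (allM m) (on m q)
def dB : Nat := orN (fun q => Nat.land (onB q) (onR q)) 32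
def dN : Nat := orN (fun q => Nat.land (onN q) (onR q)) 32
def dBN : Nat := orN (fun q => Nat.land (onB q) (onN q)) 32
def dK : Nat := orN (fun q => Nat.land (onK q) (or3 (onR q) (onB q) (onN q))) 32
def dR : Nat := Nat.lor dB dN
def coll (m : Nat) : Nat :=
  Nat.lor dBN (selN (Nat.beq m 3) 0 (Nat.lor dR (selN (Nat.beq m 0) dK 0)))
def mN (z : Nat) : Nat := orN (fun i => selN (tb z i) (onNi i) 0) 16
def mB (z : Nat) : Nat := orN (fun i => selN (tb z i) (onBi i) 0) 8

/-! one step of a black man (or of the rook in the slot) -/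
def up (x m a : Nat) : Nat := Nat.shiftLeft (Nat.land x m) a
def dn (x m a : Nat) : Nat := Nat.shiftRight (Nat.land x m) a
def stB4 (x : Nat) : Nat := up x (mB 93) 544
def stB5 (x : Nat) : Nat := up x (mB 27) 1632
def stB6 (x : Nat) : Nat := dn x (mB 216) 1632
def stB7 (x : Nat) : Nat := dn x (mB 186) 544
def fill (st : Nat → Nat) (v x n : Nat) : Nat :=
  @Nat.rec (fun _ => Nat) x (fun _ g => Nat.lor x (Nat.land (st g) v)) n
def shl (a x : Nat) : Nat := Nat.shiftLeft x a
def shr (a x : Nat) : Nat := Nat.shiftRight x a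
def slR (st : Nat → Nat) (d v x n : Nat) : Nat := Nat.land (st (fill st (Nat.land v d) x n)) d
def slR0 (v x : Nat) : Nat := slR (shl 4) (rep32 4294967280) v x 6
def slR1 (v x : Nat) : Nat := slR (shr 4) (rep32 268435455) v x 6
def slR2 (v x : Nat) : Nat := slR (shl 1) (rep32 4008636142) v x 2
def slR3 (v x : Nat) : Nat := slR (shr 1) (rep32 2004318071) v x 2
def attR (v x : Nat) : Nat := or4 (slR0 v x) (slR1 v x) (slR2 v x) (slR3 v x)
def attB (v x : Nat) : Nat :=
  or4 (stB4 (fill stB4 v x 2)) (stB5 (fill stB5 v x 1)) (stB6 (fill stB6 v x 1)) (stB7 (fill stB7 v x 2))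
def attN (x : Nat) : Nat :=
  Nat.lor (or3 (up x (mN 16383) 64) (up x (mN 8738) 32) (up x (mN 1092) 96))
    (or3 (dn x (mN 65532) 64) (dn x (mN 17476) 32) (dn x (mN 8736) 96))
def attK (x : Nat) : Nat := Nat.lor (Nat.shiftRight x 4896) (Nat.shiftLeft x 4896)
/-- cells reached from `x` by a move of a black piece; `v` are the valid cells -/
def att (m v x : Nat) : Nat :=
  Nat.lor (Nat.lor (selN (dj x (mB 255)) 0 (attB v x)) (selN (dj x (mN 65535)) 0 (attN x)))
    (selN (Nat.ble 2 m) 0 (selN (Nat.beq m 0) (Nat.lor (attR v x) (attK x)) (attR v x)))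
def fold3 (x : Nat) : Nat := Nat.land (or3 x (Nat.shiftRight x 4896) (Nat.shiftRight x 9792)) all1
def fs (x a : Nat) : Nat := Nat.lor x (Nat.shiftRight x a)
def fold32 (x : Nat) : Nat := Nat.land (fs (fs (fs (fs (fs x 1) 2) 4) 8) 16) col0
def ds (x a : Nat) : Nat := Nat.lor x (Nat.shiftLeft x a)

/-! fields of a key -/
def uR (u : Nat) : Nat := Nat.mod u 64
def uN (u : Nat) : Nat := Nat.mod (Nat.div u 64) 64
def uB (u : Nat) : Nat := Nat.mod (Nat.div u 4096) 64
def uK (u : Nat) : Nat := Nat.div u 262144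
def cc (j u : Nat) : Nat := Nat.add (Nat.mul 8388608 j) u
def p8 (f : Nat) : Nat := Nat.pow 8 f
def jp (j f : Nat) : Nat := Nat.mod (Nat.div j (p8 f)) 8
def jw (j f : Nat) : Nat := Nat.mod (Nat.div j (Nat.mul 4096 (p8 f))) 8
def jc (j : Nat) : Nat := Nat.div j 16777216
def md (j : Nat) : Nat := selN (Nat.beq (jc j) 0) (selN (Nat.ble 5 (jp j 2)) 0 1) (Nat.succ (jc j))
def psq (x f : Nat) : Nat := @Nat.rec (fun _ => Nat) 32 (fun y _ => Nat.add (Nat.mul 4 y) f) x
def wsq (j f : Nat) : Nat := psq (jw j f) f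
def far (j f : Nat) : Bool := band (Nat.ble 1 (jc j)) (Nat.beq (jp j f) 6)
def pex (j f : Nat) : Nat := selN (far j f) 32 (psq (jp j f) f)
def bit (q : Nat) : Nat := Nat.shiftLeft 1 q
def wpn (j : Nat) : Nat := or4 (bit (wsq j 0)) (bit (wsq j 1)) (bit (wsq j 2)) (bit (wsq j 3))
def bo (j : Nat) : Nat := or4 (bit (pex j 0)) (bit (pex j 1)) (bit (pex j 2)) (bit (pex j 3))
def kz (j : Nat) : Nat :=
  selN (Nat.beq (md j) 0) 0
    (Nat.shiftLeft (Nat.shiftRight 1145324612 (Nat.mul 4 (jp j 2))) (Nat.mul 4 (jp j 2)))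
def fz1 (j f : Nat) : Nat := selN (far j f) (Nat.shiftLeft 17825792 f) 0
def gz (j : Nat) : Nat := Nat.lor (kz j) (or4 (fz1 j 0) (fz1 j 1) (fz1 j 2) (fz1 j 3))
def pm (u : Nat) : Nat := or4 (bit (uK u)) (bit (uR u)) (bit (uB u)) (bit (uN u))
def oK (m u : Nat) : Nat := frN (uK u) (on m)
def oR (m u : Nat) : Nat := frN (uR u) (on m)
def oB (m u : Nat) : Nat := frN (uB u) (on m)
def oN (m u : Nat) : Nat := frN (uN u) (on m)
def oW (j m f : Nat) : Nat := frN (wsq j f) (on m)
def oP (j m f : Nat) : Nat := frN (pex j f) (on m)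
def vj (j m : Nat) : Nat :=
  dif (allM m) (or3 (coll m) (or4 (oW j m 0) (oW j m 1) (oW j m 2) (oW j m 3))
    (or4 (oP j m 0) (oP j m 1) (oP j m 2) (oP j m 3)))
def vp (m u : Nat) : Nat := dif (allM m) (or4 (oK m u) (oR m u) (oB m u) (oN m u))
/-- valid cells -/
def vv (j m u : Nat) : Nat := Nat.land (vj j m) (vp m u)
def cap1 (j f : Nat) : Nat := selN (Nat.beq (jp j f) 7) (p8 f) 0
def capJ (j : Nat) : Nat :=
  Nat.sub j (Nat.add (Nat.add (cap1 j 0) (cap1 j 1)) (Nat.add (cap1 j 2) (cap1 j 3)))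
/-- key after the black rook has gone -/
def cB (j u : Nat) : Nat :=
  cc (Nat.add (capJ j) (selN (Nat.ble 32 (uR u)) 33554432 16777216)) (Nat.add (Nat.sub u (uR u)) 32)
/-- blocking squares (bits 0..31), bit 32, the key at bit 33, its complement at bit 82 -/
def bU (u : Nat) : Nat := or3 (pm u) (Nat.shiftLeft u 33) (Nat.shiftLeft (Nat.sub 8388607 u) 82)
def bX (j z : Nat) : Nat :=
  or4 (Nat.lor (wpn j) z) 4294967296 (Nat.shiftLeft j 56) (Nat.shiftLeft (Nat.sub 67108863 j) 105)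
def bJ (j : Nat) : Nat := bX j (Nat.lor (bo j) (gz j))
def bJ0 (j : Nat) : Nat := bX j (bo j)

/-- `0` if `q` is not on the ray, else `2^32 +` the set of squares strictly between -/
def rayP (d q fuel : Nat) : Nat → Nat → Nat :=
  @Nat.rec (fun _ => Nat → Nat → Nat) (fun _ _ => 0)
    (fun _ go s pa => frN (nx d s) fun t =>
      selN (Nat.ble 32 t) 0 (selN (Nat.beq t q) (Nat.add 4294967296 pa) (go t (Nat.lor pa (bit t))))) fuel
def fst0 (a b : Nat) : Nat := selN (Nat.beq a 0) b a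
def ray4 (d0 fuel s q : Nat) : Nat :=
  fst0 (rayP d0 q fuel s 0) (fst0 (rayP (Nat.add d0 1) q fuel s 0)
    (fst0 (rayP (Nat.add d0 2) q fuel s 0) (rayP (Nat.add d0 3) q fuel s 0)))
/-- piece `a`: 0 king, 1 rook, 2 bishop, 3 knight -/
def geo (a s q : Nat) : Nat :=
  selN (Nat.beq a 0) (fst0 (rayP 0 q 1 s 0) (rayP 1 q 1 s 0))
    (selN (Nat.beq a 1) (ray4 0 7 s q) (selN (Nat.beq a 2) (ray4 4 3 s q) (ray4 8 1 s q)))
def pgeo (s q : Nat) : Nat :=
  selN (band (Nat.beq q (Nat.add s 4)) (Nat.ble s 23)) 4294967296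
    (selN (band (Nat.beq q (Nat.add s 8)) (Nat.beq (Nat.div s 4) 1))
      (Nat.add 4294967296 (bit (Nat.add s 4))) 0)
def pathM (m fuel : Nat) : Nat → Nat :=
  @Nat.rec (fun _ => Nat → Nat) (fun _ => all3)
    (fun _ go g => selN (Nat.beq g 0) 0
      (frN (Nat.log2 g) fun t => Nat.lor (on m t) (go (Nat.xor g (bit t))))) fuel

/-! A hint is `k = 512 * type + index`; the index names piece, source and target. Types: 0 move to an
empty square, 1 takes b, 2 takes n, 3 takes a pawn, 4 pawn push, 5 takes r, 6 attacks k, 7 rook of the slot -/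
def mvT : Nat := 0xef0ce0ad08c2fb2b92982772352141f31b119016f12d10c0eb0a9088fd9fdbf99f76f7ef34f36f3cf3eed1ed3ed9edbe91e99e6ee76e2ce2ee34e36dc9dcbdd1dd3d89d91d66d6ed24d26d2cd2ecc1cc3cc9ccbc81c89c66c24c26b48b51b53b03b0ab11a61a6aa7aa28a23a2aa38a3a94194395895195390191a91187887186a82883382a7fc7fd7fe7e37e77eb7ef7f37f77fb7dc7dd7df7c27c67ca7ce7d27d67da7bc7bf7be7a17a57a97ad7b17b57b979f79e79d78078478878c79079479877877977a76376776b76f77377777f75875975b74274674a74e75275675e73873b73a72172572972d73173573d71b71a71970070470870c71071471c6f46f56f66e36e76eb6ef6f36ff6fb6d46d56d76c26c66ca6ce6d26de6da6b46b76b66a16a56a96ad6b16bd6b969769669568068468868c69069c69867067167266366766b66f67f67b67765065165364264664a64e65e65a65663063363262162562962d63d63963561361261160060460860c61c6186145ec5ed5ee5e35e75eb5ff5fb5f75f35cc5cd5cf5c25c65ca5de5da5d65d25ac5af5ae5a15a55a95bd5b95b55b158f58e58d58058458859c59859459056856956a56356757f57b57757356f54854954b54254655e55a55655254e52852b52a52152553d53953553152d50b50a50950050451c51851451050c4e44e54e64e34ff4fb4f74f34ef4eb4c44c54c74c24de4da4d64d24ce4ca4a44a74a64a14bd4b94b54b14ad4a948748648548049c49849449048c48846046146247f47b47747346f46b46744044144345e45a45645244e44a44642042342243d43943543142d42942540340240141c41841441040c4084042d22da24e2561ca1d214614e0c20ca046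
def kmv (k : Nat) : Nat := Nat.land (Nat.shiftRight mvT (Nat.mul 12 (Nat.mod k 512))) 4095
def kt (k : Nat) : Nat := Nat.div k 512
def ka (k : Nat) : Nat := Nat.div (kmv k) 1024
def ks (k : Nat) : Nat := Nat.mod (Nat.div (kmv k) 32) 32
def kq (k : Nat) : Nat := Nat.mod (kmv k) 32
def kG (k : Nat) : Nat :=
  frN (ks k) fun s => frN (kq k) fun q => selN (Nat.beq (kt k) 4) (pgeo s q) (geo (ka k) s q)
/-- shift of the field that changes -/
def kH (k : Nat) : Nat :=
  selN (Nat.beq (kt k) 4) (Nat.add 35 (Nat.mul 3 (Nat.mod (ks k) 4)))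
    (Nat.mod (Nat.shiftRight 101449746 (Nat.mul 8 (ka k))) 256)
def kV (k x : Nat) : Nat := selN (Nat.beq (kt k) 4) (Nat.succ (Nat.div x 4)) x
def kW (k : Nat) : Nat := selN (Nat.beq (kt k) 4) 7 (selN (Nat.beq (ka k) 0) 31 63)
def kP (k x : Nat) : Nat :=
  selN (Nat.beq (kt k) 3) (Nat.shiftLeft x (Nat.add 23 (Nat.mul 3 (Nat.mod (kq k) 4)))) 0
def kA (k : Nat) : Nat := Nat.shiftLeft (kV k (kq k)) (kH k)
def kD (k : Nat) : Nat := Nat.add (Nat.shiftLeft (kV k (ks k)) (kH k)) (kP k (Nat.succ (Nat.div (kq k) 4)))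
def kF (k : Nat) : Nat := Nat.add (Nat.shiftLeft (kW k) (kH k)) (kP k 7)
def gq (k : Nat) : Nat :=
  selN (Nat.beq (kt k) 7) 0
    (or4 (Nat.xor (kG k) 4294967296) (selN (Nat.beq (Nat.mod (kt k) 4) 0) (bit (kq k)) 0)
      (Nat.shiftLeft (Nat.xor (kF k) (kD k)) 33) (Nat.shiftLeft (kD k) 82))
def kS (k : Nat) : Nat :=
  selN (Nat.beq (kt k) 1) (Nat.mul 544 (Nat.sub 8 (bI (kq k))))
    (selN (Nat.beq (kt k) 2) (Nat.mul 32 (Nat.sub 16 (Nat.div (kq k) 2))) 0)
def kB (m t a q : Nat) : Nat :=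
  selN (Nat.beq (Nat.mod t 4) 0) (nq m q) (selN (Nat.beq t 1) (onB q) (selN (Nat.beq t 2) (onN q)
    (selN (Nat.beq t 3)
      (selN (bor (Nat.beq (Nat.mod q 4) 2) (band (Nat.ble 2 m) (Nat.beq (Nat.div q 4) 5))) 0 (allM m))
      (selN (Nat.beq t 5) (selN (Nat.ble 2 m) 0 (allM m))
        (selN (band (Nat.beq m 0) (Nat.ble 1 a)) (onK q) 0)))))
def kM (m k : Nat) : Nat :=
  dif (frN (kq k) (kB m (kt k) (ka k))) (pathM m 7 (Nat.mod (kG k) 4294967296))
def kC (m k : Nat) : Nat := Nat.shiftLeft (selN (Nat.beq m 0) o4896 1) (kq k)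
def kA1 (k : Nat) : Nat := selN (Nat.beq (ka k) 1) 0 (kA k)
def kD1 (k : Nat) : Nat := selN (Nat.beq (ka k) 1) 0 (kD k)
def kb (k i : Nat) : Bool := tb k i

def oQ (j f : Nat) : Nat := frN (pex j f) onR
def pcap (T : Nat → Nat) (j u f : Nat) : Nat :=
  frN (cc (Nat.sub j (Nat.mul (jp j f) (p8 f))) u) fun c => Nat.land (T c) (oQ j f)
def vg1 (j : Nat) : Nat := dif (vj j 2) (frN (gz j) rep32)
def vg (j u : Nat) : Nat := Nat.land (vg1 j) (vp 2 u)
def zB (t : Nat) : Nat :=
  Nat.land (ds (ds (ds (Nat.land (Nat.shiftRight t 4352) f544) 544) 1088) 2176) dB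
def zN (t : Nat) : Nat :=
  Nat.land (ds (ds (ds (ds (Nat.land (Nat.shiftRight t 512) n0) 32) 64) 128) 256) dN
/-- target cells of the white rook in the slot -/
def rookZ (T : Nat → Nat) (t j u k : Nat) : Nat :=
  Nat.lor (selN (kb k 4) (or3 (Nat.land t (vg j u)) (zB t) (zN t)) (Nat.land t (vg j u)))
    (selN (Nat.ble 32 (Nat.mod k 256))
      (or3 (selN (kb k 5) (pcap T j u 0) 0) (selN (kb k 6) (pcap T j u 1) 0)
        (selN (kb k 7) (pcap T j u 3) 0)) 0)
def slZ (k v z : Nat) : Nat :=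
  or4 (selN (kb k 0) (slR0 v z) 0) (selN (kb k 1) (slR1 v z) 0) (selN (kb k 2) (slR2 v z) 0)
    (selN (kb k 3) (slR3 v z) 0)
def slide (T : Nat → Nat) (m j u k : Nat) : Nat :=
  selN (Nat.beq m 2) (frN (cc j u) fun c => slZ k (vg j u) (rookZ T (T c) j u k)) 0
def capR (T : Nat → Nat) (m j u k : Nat) : Nat :=
  frN (Nat.sub (Nat.add (cB j u) (kA1 k)) (kD1 k)) fun c =>
    Nat.land (Nat.mul (Nat.land
      (Nat.shiftRight (T c) (Nat.mod (Nat.sub (Nat.add u (kA k)) (kD k)) 32)) col0) (kC m k)) (kM m k)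
/-- cells from which the move named by `k` reaches `T` (or the black king is attacked) -/
def item (T : Nat → Nat) (m j u k : Nat) : Nat :=
  selN (dj (gq k) (Nat.lor (bJ j) (bU u)))
    (selN (Nat.ble 2560 k)
      (selN (Nat.ble 3072 k) (selN (Nat.ble 3584 k) (slide T m j u k) (Nat.lor 0 (kM m k))) (capR T m j u k))
      (frN (Nat.sub (Nat.add (cc j u) (kA k)) (kD k)) fun c =>
        Nat.land (Nat.shiftRight (T c) (kS k)) (kM m k))) 0
def items (g : Nat → Nat) (n : Nat) : Nat → Nat :=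
  @Nat.rec (fun _ => Nat → Nat) (fun _ => 0)
    (fun _ go x => frN (Nat.land x 4095) fun k => Nat.lor (g k) (go (Nat.shiftRight x 12))) n
/-- cells (exact black king) in which the black king is attacked -/
def iti (j u x : Nat) : Nat :=
  frN (Nat.add 3072 (Nat.mod x 512)) fun k => selN (dj (gq k) (Nat.lor (bJ0 j) (bU u))) (Nat.lor 0 (kM 0 k)) 0
def hd (g : Nat → Nat) (st : Nat) : Nat := items g (Nat.land st 63) (Nat.shiftRight st 6)
def tl (st : Nat) : Nat := Nat.shiftRight st (Nat.add 6 (Nat.mul 12 (Nat.land st 63)))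

/-! obligations; `st` is the stream of hints, `kf` the rest of the test -/
def obc (T : Nat → Nat) (y m j u : Nat) (kf : Nat → Bool) (st : Nat) : Bool :=
  band (sub y (hd (item T m j u) st)) (frB (tl st) kf)
def ob0 (T : Nat → Nat) (y m j u : Nat) (kf : Nat → Bool) (st : Nat) : Bool :=
  selB (Nat.beq y 0) (kf st) (obc T y m j u kf st)
def obU (T : Nat → Nat) (y m j u : Nat) (kf : Nat → Bool) (st : Nat) : Bool :=
  selB (Nat.beq y 0) (kf st) (frB u fun u => obc T y m j u kf st)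
def obJ (T : Nat → Nat) (y m j u : Nat) (kf : Nat → Bool) (st : Nat) : Bool :=
  selB (Nat.beq y 0) (kf st) (frB j fun j => obc T y m j u kf st)
/-- cells after Black has taken the piece on `q`; `o` is `on m q` -/
def cp (j x a o q : Nat) : Nat := selN (tb (kz j) q) (Nat.lor (Nat.land a o) x) (Nat.land a o)
def q1 (j f : Nat) : Nat := Nat.add (Nat.mul 4 (Nat.sub (jp j f) 2)) f
def nq1 (j m f : Nat) : Nat := frN (q1 j f) (nq m)
def bq1 (j f : Nat) : Nat := bit (q1 j f)
def nq2 (j m f : Nat) : Nat := selN (tb (wpn j) (Nat.add 16 f)) 0 (frN (Nat.add 16 f) (nq m))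
def jd (j f : Nat) : Nat := Nat.sub j (p8 f)
/-- 0 no push, 1 single, 2 single and double, 3 the king turns into a ghost, 4 promotion -/
def pk (j m f : Nat) : Nat :=
  selN (bor (Nat.ble (jp j f) 1) (tb (wpn j) (q1 j f))) 0
    (selN (Nat.beq (jp j f) 7) 2 (selN (Nat.beq (jp j f) 2) 4
      (selN (band (band (Nat.beq m 0) (Nat.beq f 2)) (Nat.beq (jp j f) 5)) 3 1)))
def y1 (j m u x f : Nat) : Nat := selN (dj (pm u) (bq1 j f)) (Nat.land x (nq1 j m f)) 0
def y2 (j m u y f : Nat) : Nat := selN (tb (pm u) (Nat.add 16 f)) 0 (Nat.land y (nq2 j m f))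
def obG (T : Nat → Nat) (y j u : Nat) (kf : Nat → Bool) (st : Nat) : Bool :=
  selB (Nat.beq y 0) (kf st)
    (frB j fun j => frB (tl st) (ob0 T (fold3 (dif y (hd (iti j u) st))) 1 j u kf))
def obP (y m j u : Nat) (kf : Nat → Bool) (st : Nat) : Bool :=
  selB (Nat.beq y 0) (kf st)
    (band (Nat.beq m 0) (frB j fun j => band (sub y (hd (iti j u) st)) (frB (tl st) kf)))
def ckP (T : Nat → Nat) (j m u x f : Nat) (kf : Nat → Bool) (st : Nat) : Bool :=
  casB (pk j m f) (kf st) fun i =>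
    casB i (obJ T (y1 j m u x f) m (jd j f) u kf st) fun i =>
      casB i (obJ T (y1 j m u x f) m (jd j f) u
          (obJ T (y2 j m u (y1 j m u x f) f) m (jd (jd j f) f) u kf) st) fun i =>
        casB i (obG T (y1 j m u x f) (jd j f) u kf st) fun _ => obP (y1 j m u x f) m (jd j f) u kf st
def jx (j f : Nat) : Nat := Nat.sub j (Nat.mul (jw j f) (Nat.mul 4096 (p8 f)))
def ckW (T : Nat → Nat) (j m u a f : Nat) (kf : Nat → Bool) (st : Nat) : Bool :=
  obJ T (Nat.land a (oW j m f)) m (jx j f) u kf st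
def kzM (j : Nat) : Nat := frN (kz j) rep32
def ckS (T : Nat → Nat) (j m u x a : Nat) (kf : Nat → Bool) (st : Nat) : Bool :=
  selB (Nat.beq m 2)
    (obJ T (fold32 (Nat.lor (Nat.land a dR) (Nat.land x (kzM j)))) 3 (Nat.add j 16777216) u kf st) (kf st)
def ckX (T : Nat → Nat) (j m u v x a st : Nat) : Bool :=
  band (dj a (oK m u))
    (ob0 T (selN (Nat.beq m 0) (Nat.land a v) (Nat.lor (Nat.land a v) x)) m j u
    (obU T (cp j x a (oR m u) (uR u)) m j (Nat.add (Nat.sub u (uR u)) 32)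
    (obU T (cp j x a (oB m u) (uB u)) m j (Nat.add (Nat.sub u (Nat.mul (uB u) 4096)) 131072)
    (obU T (cp j x a (oN m u) (uN u)) m j (Nat.add (Nat.sub u (Nat.mul (uN u) 64)) 2048)
    (ckW T j m u a 0 (ckW T j m u a 1 (ckW T j m u a 2 (ckW T j m u a 3
    (ckS T j m u x a
    (ckP T j m u x 0 (ckP T j m u x 1 (ckP T j m u x 2 (ckP T j m u x 3 fun _ => true)))))))))))) st)
def ckV (T : Nat → Nat) (j m u v x st : Nat) : Bool := ckX T j m u v x (att m v x) st
/-- the test of one key -/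
def chk (T H : Nat → Nat) (j m u : Nat) : Bool :=
  frB (cc j u) fun c => ckV T j m u (vv j m u) (Nat.land (T c) (vv j m u)) (H c)

end

end Pool.Agent.Lib.MP_15f43f_co
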