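import Pool.Agent.Lib.MP_15f43f_co.Game

namespace Pool.Agent.Lib.MP_15f43f_co

/-! The 4 x 8 model: squares are `q = 4 * rank + file < 32` (rank 0..7, file 0..3 = a, c, e, g),
32 means off the board. Pawns: `w f`, `p f` are ranks 1..8 on file `f`, 0 means no pawn. -/

def lit (q : ℕ) : Sq := (⟨2 * (q % 4), by omega⟩, ⟨q / 4 % 8, by omega⟩)

/-- directions: 0..3 rook (0, 1 also king), 4..7 bishop, 8..11 knight -/
def df : ℕ → ℤ
  | 0 => 0 | 1 => 0 | 2 => 1 | 3 => -1 | 4 => 1 | 5 => -1 | 6 => 1 | 7 => -1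
  | 8 => 1 | 9 => -1 | 10 => 1 | _ => -1

def dr : ℕ → ℤ
  | 0 => 1 | 1 => -1 | 2 => 0 | 3 => 0 | 4 => 2 | 5 => 2 | 6 => -2 | 7 => -2
  | 8 => 1 | 9 => 1 | 10 => -1 | _ => -1

def nxTab : ℕ := 0x81a65881655481245080e34c80a24880614480204082082082081b69981759581349180f38d80b28980718580308182082082082081e75c81a65881655481245080e34c80a24880614482082082081f79d81b69981759581349180f38d80b28980718581655481245080e34c80a24880614480204082082082082082081759581349180f38d80b28980718580308182082082082082082082082081e75c81a65881655481245080e34c80a24882082082082082081f79d81b69981759581349180f38d80b28981e75c81a65881655481245080e34c80a24880614480204082081f79d81b69981759581349180f38d80b28980718580308181b69961759551349140f38d30b2892071851030810208208208208207de75c6da6585d65544d24503ce34c2ca2481c6144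

def nxt (d s : ℕ) : ℕ := Nat.land (Nat.shiftRight nxTab (Nat.mul 6 (Nat.add (Nat.mul 33 d) s))) 63

inductive Sl (E : ℕ → Prop) (d : ℕ) : ℕ → ℕ → Prop
  | one {s : ℕ} : nxt d s < 32 → Sl E d s (nxt d s)
  | more {s t : ℕ} : nxt d s < 32 → E (nxt d s) → Sl E d (nxt d s) t → Sl E d s t

structure St where
  w : ℕ → ℕ
  p : ℕ → ℕ
  K : ℕ
  R : ℕ
  B : ℕ
  N : ℕ
  k : ℕ
  r : ℕ
  b : ℕ
  n : ℕ

def St.isW (s : St) (q : ℕ) : Prop := s.w (q % 4) = q / 4 + 1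
def St.isP (s : St) (q : ℕ) : Prop := s.p (q % 4) = q / 4 + 1
def St.Wh (s : St) (q : ℕ) : Prop := q = s.K ∨ q = s.R ∨ q = s.B ∨ q = s.N ∨ s.isW q
def St.Bl (s : St) (q : ℕ) : Prop := q = s.k ∨ q = s.r ∨ q = s.b ∨ q = s.n ∨ s.isP q
def St.E (s : St) (q : ℕ) : Prop := ¬ s.Wh q ∧ ¬ s.Bl q

def St.man (s : St) (q : ℕ) : Option (Color × Kind) :=
  if q = s.K then some (.white, .king) else if q = s.R then some (.white, .rook)
  else if q = s.B then some (.white, .bishop) else if q = s.N then some (.white, .knight)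
  else if s.w (q % 4) = q / 4 + 1 then some (.white, .pawn)
  else if q = s.k then some (.black, .king) else if q = s.r then some (.black, .rook)
  else if q = s.b then some (.black, .bishop) else if q = s.n then some (.black, .knight)
  else if s.p (q % 4) = q / 4 + 1 then some (.black, .pawn) else none

def St.board (s : St) : Board := fun u =>
  if (u.1 : ℕ) % 2 = 1 then none else s.man (4 * (u.2 : ℕ) + (u.1 : ℕ) / 2)

/-- two men are not on one square -/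
def Df (x y : ℕ) : Prop := x = y → x = 32

structure Valid (s : St) : Prop where
  hK : s.K < 32 ∧ s.K % 4 = 2
  hk : s.k < 32 ∧ s.k % 4 = 2
  le : s.R ≤ 32 ∧ s.B ≤ 32 ∧ s.N ≤ 32 ∧ s.r ≤ 32 ∧ s.b ≤ 32 ∧ s.n ≤ 32
  colb : s.b = 32 ∨ s.b % 16 = 4 ∨ s.b % 16 = 6 ∨ s.b % 16 = 13 ∨ s.b % 16 = 15
  coln : s.n = 32 ∨ (s.n / 4 + s.n % 4) % 2 = 0
  dK : Df s.K s.R ∧ Df s.K s.B ∧ Df s.K s.N ∧ Df s.K s.k ∧ Df s.K s.r ∧ Df s.K s.b ∧ Df s.K s.n
  dR : Df s.R s.B ∧ Df s.R s.N ∧ Df s.R s.k ∧ Df s.R s.r ∧ Df s.R s.b ∧ Df s.R s.n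
  dB : Df s.B s.N ∧ Df s.B s.k ∧ Df s.B s.r ∧ Df s.B s.b ∧ Df s.B s.n
  dN : Df s.N s.k ∧ Df s.N s.r ∧ Df s.N s.b ∧ Df s.N s.n
  dk : Df s.k s.r ∧ Df s.k s.b ∧ Df s.k s.n
  dr : Df s.r s.b ∧ Df s.r s.n ∧ Df s.b s.n
  nop : ∀ q, q = s.K ∨ q = s.R ∨ q = s.B ∨ q = s.N ∨ q = s.k ∨ q = s.r ∨ q = s.b ∨ q = s.n →
    ¬ s.isW q ∧ ¬ s.isP q
  pw : ∀ f, f < 4 → s.w f ≤ 7 ∧ s.p f ≤ 7 ∧ (s.w f ≠ 0 → s.p f ≠ 0 → s.w f < s.p f)
  e : s.K / 4 + 1 < s.p 2 ∧ s.p 2 < s.k / 4 + 1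

/-- remove the man on `q` (never a king) -/
def St.rem (s : St) (q : ℕ) : St :=
  { s with
    w := fun f => if f = q % 4 ∧ s.w f = q / 4 + 1 then 0 else s.w f
    p := fun f => if f = q % 4 ∧ s.p f = q / 4 + 1 then 0 else s.p f
    R := if s.R = q then 32 else s.R
    B := if s.B = q then 32 else s.B
    N := if s.N = q then 32 else s.N
    r := if s.r = q then 32 else s.r
    b := if s.b = q then 32 else s.b
    n := if s.n = q then 32 else s.n }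

def St.setP (s : St) (f x : ℕ) : St := { s with p := fun g => if g = f then x else s.p g }
def St.setW (s : St) (f x : ℕ) : St := { s with w := fun g => if g = f then x else s.w g }

inductive BMove (s : St) : St → Prop
  | rook (d t : ℕ) : d < 4 → s.r < 32 → Sl s.E d s.r t → ¬ s.Bl t → t ≠ s.K →
      BMove s { s.rem t with r := t }
  | bishop (d t : ℕ) : 4 ≤ d → d < 8 → s.b < 32 → Sl s.E d s.b t → ¬ s.Bl t → t ≠ s.K →
      BMove s { s.rem t with b := t }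
  | knight (d t : ℕ) : 8 ≤ d → d < 12 → s.n < 32 → nxt d s.n = t → t < 32 → ¬ s.Bl t → t ≠ s.K →
      BMove s { s.rem t with n := t }
  | king (d t : ℕ) : d < 2 → nxt d s.k = t → t < 32 → ¬ s.Bl t → t ≠ s.K →
      BMove s { s.rem t with k := t }
  | pawn (f : ℕ) : f < 4 → 3 ≤ s.p f → s.E (4 * (s.p f - 2) + f) → BMove s (s.setP f (s.p f - 1))
  | pawn2 (f : ℕ) : f < 4 → s.p f = 7 → s.E (20 + f) → s.E (16 + f) → BMove s (s.setP f 5)

/-- a square a white piece may go to: no white man, not the black king, not the black e-pawn -/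
def St.Ok (s : St) (t : ℕ) : Prop := ¬ s.Wh t ∧ t ≠ s.k ∧ ¬ (s.isP t ∧ t % 4 = 2)

inductive WMove (s : St) : St → Prop
  | rook (d t : ℕ) : d < 4 → s.R < 32 → Sl s.E d s.R t → s.Ok t → WMove s { s.rem t with R := t }
  | bishop (d t : ℕ) : 4 ≤ d → d < 8 → s.B < 32 → Sl s.E d s.B t → s.Ok t →
      WMove s { s.rem t with B := t }
  | knight (d t : ℕ) : 8 ≤ d → d < 12 → s.N < 32 → nxt d s.N = t → t < 32 → s.Ok t →
      WMove s { s.rem t with N := t }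
  | king (d t : ℕ) : d < 2 → nxt d s.K = t → t < 32 → s.Ok t → WMove s { s.rem t with K := t }
  | pawn (f : ℕ) : f < 4 → 1 ≤ s.w f → s.w f ≤ 6 → s.E (4 * s.w f + f) →
      WMove s (s.setW f (s.w f + 1))
  | pawn2 (f : ℕ) : f < 4 → s.w f = 2 → s.E (8 + f) → s.E (12 + f) → WMove s (s.setW f 4)

/-- the white king is attacked -/
def AttW (s : St) : Prop :=
  (s.r < 32 ∧ ∃ d, d < 4 ∧ Sl s.E d s.r s.K) ∨ (s.b < 32 ∧ ∃ d, 4 ≤ d ∧ d < 8 ∧ Sl s.E d s.b s.K) ∨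
    (s.n < 32 ∧ ∃ d, 8 ≤ d ∧ d < 12 ∧ nxt d s.n = s.K)

/-- the black king is attacked -/
def AttB (s : St) : Prop :=
  (s.R < 32 ∧ ∃ d, d < 4 ∧ Sl s.E d s.R s.k) ∨ (s.B < 32 ∧ ∃ d, 4 ≤ d ∧ d < 8 ∧ Sl s.E d s.B s.k) ∨
    (s.N < 32 ∧ ∃ d, 8 ≤ d ∧ d < 12 ∧ nxt d s.N = s.k)

/-- the initial position -/
def st0 : St := ⟨fun _ => 2, fun _ => 7, 2, 0, 1, 3, 30, 28, 29, 31⟩

/-- the position after 1. a4 -/
def root : St := st0.setW 0 4

end Pool.Agent.Lib.MP_15f43f_co
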