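import Pool.Agent.Lib.MP_15f43f_co.Mask

namespace Pool.Agent.Lib.MP_15f43f_co

variable {s : St} {f q : ℕ}

theorem fld_cl (s : St) : s.cl ≤ 2 := by
  unfold St.cl
  split_ifs <;> omega

theorem fld_pc (h : Valid s) (hf : f < 4) : s.pc f ≤ 7 := by
  have := (h.pw f hf).2.1
  unfold St.pc
  split_ifs <;> omega

theorem fld_bd (h : Valid s) : s.cl ≤ 2 ∧ (s.w 0 ≤ 7 ∧ s.w 1 ≤ 7 ∧ s.w 2 ≤ 7 ∧ s.w 3 ≤ 7) ∧
    (s.pc 0 ≤ 7 ∧ s.pc 1 ≤ 7 ∧ s.pc 2 ≤ 7 ∧ s.pc 3 ≤ 7) :=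
  ⟨fld_cl s, ⟨(h.pw 0 (by decide)).1, (h.pw 1 (by decide)).1, (h.pw 2 (by decide)).1,
    (h.pw 3 (by decide)).1⟩, fld_pc h (by decide), fld_pc h (by decide), fld_pc h (by decide),
    fld_pc h (by decide)⟩

theorem fld_R (h : Valid s) : s.R' ≤ 32 := by
  have := h.le.1
  unfold St.R'
  split_ifs <;> omega

theorem fld_p8 : p8 0 = 1 ∧ p8 1 = 8 ∧ p8 2 = 64 ∧ p8 3 = 512 := by decide

theorem fld_four (hf : f < 4) : f = 0 ∨ f = 1 ∨ f = 2 ∨ f = 3 := by omega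

theorem fld_mod (q : ℕ) : q % 4 = 0 ∨ q % 4 = 1 ∨ q % 4 = 2 ∨ q % 4 = 3 := by omega

theorem j_lt (h : Valid s) : s.j < 67108864 := by
  have := fld_bd h
  unfold St.j
  omega

theorem u_lt (h : Valid s) : s.u < 8388608 := by
  have := fld_R h
  have := h.le
  have := h.hK
  unfold St.u
  omega

theorem jp_j (h : Valid s) (hf : f < 4) : jp s.j f = s.pc f := by
  have := fld_bd h
  obtain ⟨a, b, c, d⟩ := fld_p8
  rw [jp, mod_eq, div_eq]
  unfold St.j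
  obtain rfl | rfl | rfl | rfl := fld_four hf
  exacts [by rw [a]; omega, by rw [b]; omega, by rw [c]; omega, by rw [d]; omega]

theorem jw_j (h : Valid s) (hf : f < 4) : jw s.j f = s.w f := by
  have := fld_bd h
  obtain ⟨a, b, c, d⟩ := fld_p8
  rw [jw, mod_eq, div_eq, mul_eq]
  unfold St.j
  obtain rfl | rfl | rfl | rfl := fld_four hf
  exacts [by rw [a]; omega, by rw [b]; omega, by rw [c]; omega, by rw [d]; omega]

theorem jc_j (h : Valid s) : jc s.j = s.cl := by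
  have := fld_bd h
  rw [jc, div_eq]
  unfold St.j
  omega

theorem md_j (h : Valid s) : md s.j = s.m := by
  rw [md, jc_j h, jp_j h (by decide), selN_eq, selN_eq]
  simp only [beq_iff, ble_iff]
  unfold St.cl St.m St.pc
  split_ifs <;> first | omega | rfl | contradiction

theorem uK_u (h : Valid s) : uK s.u = s.K := by
  have := fld_R h
  have := h.le
  rw [uK, div_eq]
  unfold St.u
  omega

theorem uB_u (h : Valid s) : uB s.u = s.B := by
  have := fld_R h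
  have := h.le
  rw [uB, mod_eq, div_eq]
  unfold St.u
  omega

theorem uN_u (h : Valid s) : uN s.u = s.N := by
  have := fld_R h
  have := h.le
  rw [uN, mod_eq, div_eq]
  unfold St.u
  omega

theorem uR_u (h : Valid s) : uR s.u = s.R' := by
  have := fld_R h
  have := h.le
  rw [uR, mod_eq]
  unfold St.u
  omega

theorem cel_ok (h : Valid s) : Cel s.m s.k s.b s.n s.sl := by
  have a := h.hk
  have b := h.e.2
  have c := h.le
  have d := h.colb
  have e := h.coln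
  refine ⟨fun hm => ?_, ?_, ?_, ?_⟩
  · unfold St.m at hm
    split_ifs at hm
    omega
  · unfold okB
    omega
  · unfold okN
    omega
  · unfold St.sl
    split_ifs <;> omega

theorem fld_psq (x f : ℕ) : psq x f = if x = 0 then 32 else 4 * (x - 1) + f := by
  cases x with
  | zero => rfl
  | succ y => rw [if_neg (Nat.succ_ne_zero y)]; rfl

theorem fld_wsq (h : Valid s) (hf : f < 4) (hq : q < 32) :
    q = wsq s.j f ↔ q % 4 = f ∧ s.w f = q / 4 + 1 := by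
  rw [wsq, jw_j h hf, fld_psq]
  split_ifs <;> omega

theorem wsq_j (h : Valid s) (hq : q < 32) (hw : s.isW q) : wsq s.j (q % 4) = q :=
  ((fld_wsq h (Nat.mod_lt _ (by decide)) hq).2 ⟨rfl, hw⟩).symm

theorem wpn_j (h : Valid s) (hq : q < 32) : Bt (wpn s.j) q ↔ s.isW q := by
  rw [wpn, bt_or4, bt_bit, bt_bit, bt_bit, bt_bit, fld_wsq h (by decide) hq, fld_wsq h (by decide) hq,
    fld_wsq h (by decide) hq, fld_wsq h (by decide) hq, St.isW]
  obtain e | e | e | e := fld_mod q <;> rw [e] <;> omega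

theorem fld_far (h : Valid s) (hf : f < 4) : far s.j f = true ↔ ¬ s.r < 32 ∧ 6 ≤ s.p f := by
  rw [far, band_eq, Bool.and_eq_true, ble_iff, beq_iff, jc_j h, jp_j h hf]
  unfold St.cl St.pc
  split_ifs <;> omega

theorem fld_pex (h : Valid s) (hf : f < 4) (hq : q < 32) :
    q = pex s.j f ↔ q % 4 = f ∧ s.p f = q / 4 + 1 ∧ (s.r < 32 ∨ s.p f < 6) := by
  rw [pex, selN_eq, jp_j h hf, fld_psq]
  simp only [fld_far h hf]
  unfold St.pc
  split_ifs <;> omega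

theorem bo_j (h : Valid s) (hq : q < 32) : Bt (bo s.j) q ↔ s.isP q ∧ (s.r < 32 ∨ s.p (q % 4) < 6) := by
  rw [bo, bt_or4, bt_bit, bt_bit, bt_bit, bt_bit, fld_pex h (by decide) hq, fld_pex h (by decide) hq,
    fld_pex h (by decide) hq, fld_pex h (by decide) hq, St.isP]
  obtain e | e | e | e := fld_mod q <;> rw [e] <;> omega

theorem pex_j (h : Valid s) (hf : f < 4) (hq : pex s.j f < 32) :
    s.isP (pex s.j f) ∧ pex s.j f % 4 = f ∧ jp s.j f = s.p f ∧ (s.r < 32 ∨ s.p f < 6) := by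
  obtain ⟨a, b, c⟩ := (fld_pex h hf hq).1 rfl
  refine ⟨by rw [St.isP, a]; exact b, a, ?_, c⟩
  rw [jp_j h hf]
  unfold St.pc
  split_ifs <;> omega

theorem kz_lt (j : ℕ) : kz j < 4294967296 := by
  rw [kz, selN_eq]
  split_ifs
  · omega
  · rw [shl_eq, shr_eq, Nat.shiftLeft_eq, Nat.shiftRight_eq_div_pow]
    exact lt_of_le_of_lt (Nat.div_mul_le_self _ _) (by omega)

theorem fld_fz (j : ℕ) (hf : f < 4) : fz1 j f < 2 ^ 32 := by
  rw [fz1, selN_eq]
  split_ifs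
  · obtain rfl | rfl | rfl | rfl := fld_four hf <;> decide
  · omega

theorem gz_lt (h : Valid s) : gz s.j < 4294967296 := by
  have _ := h
  have a : kz s.j < 2 ^ 32 := kz_lt _
  rw [gz, or4]
  simp only [lor_eq]
  exact Nat.or_lt_two_pow a (Nat.or_lt_two_pow
    (Nat.or_lt_two_pow (fld_fz _ (by decide)) (fld_fz _ (by decide)))
    (Nat.or_lt_two_pow (fld_fz _ (by decide)) (fld_fz _ (by decide))))

theorem fld_e : ∀ q, q < 32 → q % 4 = 2 → Nat.testBit 1145324612 q = true := by decide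

theorem kz_j (h : Valid s) (hm : s.m ≠ 0) (hq : q < 32) (h2 : q % 4 = 2) (hp : s.p 2 ≤ q / 4) :
    Bt (kz s.j) q := by
  have a : 4 * s.pc 2 ≤ q := by
    unfold St.pc
    split_ifs <;> omega
  rw [kz, selN_eq, md_j h, if_neg (by rwa [beq_iff]), bt_shl, bt_shr, jp_j h (by decide), mul_eq,
    Nat.add_sub_cancel' a]
  exact ⟨a, fld_e q hq h2⟩

theorem gz_k (h : Valid s) (hm : s.m ≠ 0) : Bt (gz s.j) s.k := by
  have := h.e.2
  rw [gz, bt_lor]
  exact .inl (kz_j h hm h.hk.1 h.hk.2 (by omega))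

theorem gz_p (h : Valid s) (hq : q < 32) (hr : ¬ s.r < 32) (hp : s.isP q) (h6 : 6 ≤ s.p (q % 4)) :
    Bt (gz s.j) q := by
  have _ := hq
  have hf : q % 4 < 4 := Nat.mod_lt _ (by decide)
  have a : Bt (fz1 s.j (q % 4)) q := by
    have b := (h.pw _ hf).2.1
    rw [fz1, selN_eq, if_pos ((fld_far h hf).2 ⟨hr, h6⟩), bt_shl]
    unfold St.isP at hp
    refine ⟨Nat.mod_le _ _, ?_⟩
    have c : q - q % 4 = 20 ∨ q - q % 4 = 24 := by omega
    obtain c | c := c <;> rw [c, Bt] <;> decide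
  rw [gz, bt_lor, bt_or4]
  obtain e | e | e | e := fld_mod q <;> rw [e] at a
  exacts [.inr (.inl a), .inr (.inr (.inl a)), .inr (.inr (.inr (.inl a))), .inr (.inr (.inr (.inr a)))]

theorem pm_u (h : Valid s) (hq : q < 32) : Bt (pm s.u) q ↔ q = s.K ∨ q = s.R' ∨ q = s.B ∨ q = s.N := by
  have _ := hq
  rw [pm, bt_or4, bt_bit, bt_bit, bt_bit, bt_bit, uK_u h, uR_u h, uB_u h, uN_u h]

/-- nothing that the key describes stands on `q` -/
def FldFree (s : St) (q : ℕ) : Prop :=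
  ¬ s.isW q ∧ ¬ s.isP q ∧ q ≠ s.K ∧ q ≠ s.R' ∧ q ≠ s.B ∧ q ≠ s.N

theorem fld_vv {b r : ℕ} (h : Valid s) (hc : Cel s.m s.k b s.n r)
    (h1 : ¬ ((b < 32 ∧ b = s.n) ∨ (s.m ≠ 3 ∧ (b = r ∨ s.n = r)) ∨
      (s.m = 0 ∧ (s.k = r ∨ s.k = b ∨ s.k = s.n))))
    (h2 : ∀ q, q < 32 → q = b ∨ q = s.n ∨ (s.m ≠ 3 ∧ q = r) ∨ (s.m = 0 ∧ q = s.k) → FldFree s q) :
    Bt (vv s.j s.m s.u) (cel s.m s.k b s.n r) := by
  have o {q : ℕ} (e : Bt (on s.m q) (cel s.m s.k b s.n r)) : q < 32 ∧ FldFree s q :=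
    ⟨((on_cel hc).1 e).1, h2 q ((on_cel hc).1 e).1 ((on_cel hc).1 e).2⟩
  have w {f : ℕ} (hf : f < 4) : ¬ Bt (oW s.j s.m f) (cel s.m s.k b s.n r) := fun e => by
    rw [oW, frN_eq] at e
    obtain ⟨a, c⟩ := (fld_wsq h hf (o e).1).1 rfl
    exact (o e).2.1 (by rw [St.isW, a]; exact c)
  have p {f : ℕ} (hf : f < 4) : ¬ Bt (oP s.j s.m f) (cel s.m s.k b s.n r) := fun e => by
    rw [oP, frN_eq] at e
    exact (o e).2.2.1 (pex_j h hf (o e).1).1
  rw [vv, bt_land, vj, vp, bt_dif, bt_dif, bt_or3, bt_or4, bt_or4, bt_or4, oK, oR, oB, oN, frN_eq, frN_eq,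
    frN_eq, frN_eq, uK_u h, uR_u h, uB_u h, uN_u h]
  refine ⟨⟨allM_cel hc, ?_⟩, allM_cel hc, ?_⟩
  · rintro (e | (e | e | e | e) | e | e | e | e)
    exacts [h1 (coll_cel hc e), w (by decide) e, w (by decide) e, w (by decide) e, w (by decide) e,
      p (by decide) e, p (by decide) e, p (by decide) e, p (by decide) e]
  · rintro (e | e | e | e)
    exacts [(o e).2.2.2.1 rfl, (o e).2.2.2.2.1 rfl, (o e).2.2.2.2.2.1 rfl, (o e).2.2.2.2.2.2 rfl]

theorem fld_sl (s : St) : (s.r < 32 ∧ s.sl = s.r ∧ s.R' = s.R ∧ s.m ≤ 1) ∨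
    (¬ s.r < 32 ∧ s.R < 32 ∧ s.sl = s.R ∧ s.R' = 32 ∧ s.m = 2) ∨
    (¬ s.r < 32 ∧ ¬ s.R < 32 ∧ s.R' = 32 ∧ s.m = 3) := by
  unfold St.sl St.R' St.m
  split_ifs <;> omega

theorem fld_man (h : Valid s) (hq : q < 32)
    (ho : q = s.b ∨ q = s.n ∨ (s.m ≠ 3 ∧ q = s.sl) ∨ (s.m = 0 ∧ q = s.k)) : FldFree s q := by
  have a := fld_sl s
  have o : q = s.b ∨ q = s.n ∨ q = s.r ∨ q = s.k ∨ (q = s.R ∧ s.R' = 32) := by omega
  have r : s.R' = s.R ∨ s.R' = 32 := by omega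
  clear a ho
  have n := h.nop q (by omega)
  obtain ⟨b1, -, -, b4, b5, b6, b7⟩ := h.dK
  obtain ⟨c1, c2, c3, c4, c5, c6⟩ := h.dR
  obtain ⟨-, d2, d3, d4, d5⟩ := h.dB
  obtain ⟨e1, e2, e3, e4⟩ := h.dN
  unfold Df at *
  refine ⟨n.1, n.2, fun e => ?_, fun e => ?_, fun e => ?_, fun e => ?_⟩
  · clear * - hq o e b1 b4 b5 b6 b7
    obtain o | o | o | o | o := o <;> omega
  · clear * - hq o e r c3 c4 c5 c6
    obtain o | o | o | o | o := o <;> omega
  · clear * - hq o e c1 d2 d3 d4 d5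
    obtain o | o | o | o | o := o <;> omega
  · clear * - hq o e c2 e1 e2 e3 e4
    obtain o | o | o | o | o := o <;> omega

/-- the slot is free of the bishop, the knight and the king -/
theorem fld_slot (h : Valid s) (hm : s.m ≠ 3) : s.b ≠ s.sl ∧ s.n ≠ s.sl ∧ s.k ≠ s.sl := by
  obtain ⟨-, -, c3, -, c5, c6⟩ := h.dR
  obtain ⟨d1, d2, -⟩ := h.dr
  have e := h.dk.1
  unfold Df at *
  obtain a | a | a := fld_sl s <;> refine ⟨?_, ?_, ?_⟩ <;> omega

theorem fld_emp (hq : q < 32) (hE : s.E q) : FldFree s q := by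
  have a := fld_sl s
  simp only [St.E, St.Wh, St.Bl, not_or] at hE
  obtain ⟨⟨b, c, d, e, g⟩, _, _, _, _, i⟩ := hE
  exact ⟨g, i, b, by omega, d, e⟩

theorem vv_ix (h : Valid s) : Bt (vv s.j s.m s.u) s.ix := by
  refine fld_vv h (cel_ok h) ?_ fun q hq ho => fld_man h hq ho
  have a := fld_slot h
  obtain ⟨-, c, g⟩ := h.dk
  have d := h.dr.2.2
  have e := h.hk.1
  unfold Df at c d g
  omega

theorem vv_r (h : Valid s) (hr : s.r < 32) (hq : q < 32) (hE : s.E q) :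
    Bt (vv s.j s.m s.u) (cel s.m s.k s.b s.n q) := by
  have _ := hr
  have k := cel_ok h
  refine fld_vv h ⟨k.hk, k.hb, k.hn, hq⟩ ?_ fun t ht ho => ?_
  · have c := h.dk
    have d := h.dr
    have e := h.hk.1
    simp only [St.E, St.Wh, St.Bl, not_or] at hE
    obtain ⟨_, _, _, _, _, _⟩ := hE
    unfold Df at c d
    omega
  · obtain e | e | ⟨_, rfl⟩ | e := ho
    exacts [fld_man h ht (.inl e), fld_man h ht (.inr (.inl e)), fld_emp ht hE,
      fld_man h ht (.inr (.inr (.inr e)))]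

theorem vv_b (h : Valid s) (hq : q < 32) (hb : okB q) (hE : s.E q) :
    Bt (vv s.j s.m s.u) (cel s.m s.k q s.n s.sl) := by
  have k := cel_ok h
  refine fld_vv h ⟨k.hk, hb, k.hn, k.hr⟩ ?_ fun t ht ho => ?_
  · have a := fld_slot h
    have b := fld_sl s
    have c := h.dk.2.2
    have e := h.hk.1
    simp only [St.E, St.Wh, St.Bl, not_or] at hE
    obtain ⟨⟨-, i1, -⟩, i2, i3, -, i4, -⟩ := hE
    have i5 : s.m ≠ 3 → q ≠ s.sl := by omega
    clear b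
    unfold Df at c
    omega
  · obtain rfl | e := ho
    exacts [fld_emp ht hE, fld_man h ht (.inr e)]

theorem empty_of (h : Valid s) (hq : q < 32) (hf : Fr s.j (Nat.lor (bo s.j) (gz s.j)) s.u q)
    (ho : ¬ Bt (on s.m q) s.ix) : s.E q := by
  obtain ⟨a, b, c⟩ := hf
  rw [wpn_j h hq] at a
  rw [bt_lor, not_or, bo_j h hq] at b
  rw [pm_u h hq] at c
  rw [St.ix, on_cel (cel_ok h)] at ho
  have d := fld_sl s
  have l := h.le
  have k : q ≠ s.k := fun e => by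
    by_cases hm : s.m = 0
    · exact ho ⟨hq, .inr (.inr (.inr ⟨hm, e⟩))⟩
    · exact b.2 (e ▸ gz_k h hm)
  have p : ¬ s.isP q := fun e => by
    by_cases g : s.r < 32 ∨ s.p (q % 4) < 6
    · exact b.1 ⟨e, g⟩
    · exact b.2 (gz_p h hq (by omega) e (by omega))
  clear b
  simp only [St.E, St.Wh, St.Bl, not_or]
  exact ⟨⟨by omega, by omega, by omega, by omega, a⟩, k, by omega, by omega, by omega, p⟩

theorem empty_of0 (h : Valid s) (hr : s.r < 32) (hc : Cel 0 s.k s.b s.n s.sl) (hq : q < 32)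
    (hf : Fr s.j (bo s.j) s.u q) (ho : ¬ Bt (on 0 q) s.ix0) : s.E q := by
  obtain ⟨a, b, c⟩ := hf
  rw [wpn_j h hq] at a
  rw [bo_j h hq] at b
  rw [pm_u h hq] at c
  rw [St.ix0, on_cel hc] at ho
  have d := fld_sl s
  have p : ¬ s.isP q := fun e => b ⟨e, .inl hr⟩
  clear b
  simp only [St.E, St.Wh, St.Bl, not_or]
  exact ⟨⟨by omega, by omega, by omega, by omega, a⟩, by omega, by omega, by omega, by omega, p⟩

theorem vg_empty (h : Valid s) (hm : s.m = 2) (hq : q < 32) (hR : q ≠ s.R)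
    (hv : Bt (vg s.j s.u) (cel 2 s.k s.b s.n q)) : s.E q := by
  have k := cel_ok h
  have hc : Cel 2 s.k s.b s.n q := ⟨fun e => absurd e (by decide), k.hb, k.hn, hq⟩
  have o : Bt (on 2 q) (cel 2 s.k s.b s.n q) :=
    (on_cel hc).2 ⟨hq, .inr (.inr (.inl ⟨by decide, rfl⟩))⟩
  rw [vg, bt_land, vg1, bt_dif, frN_eq, rep32_cel hc (gz_lt h), vj, vp, bt_dif, bt_dif, bt_or3, bt_or4,
    bt_or4, bt_or4, oK, oR, oB, oN, frN_eq, frN_eq, frN_eq, frN_eq, uK_u h, uB_u h, uN_u h] at hv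
  simp only [not_or] at hv
  obtain ⟨⟨⟨_, c, w, p⟩, g⟩, _, a1, _, a2, a3⟩ := hv
  have d := fld_sl s
  have l := h.le
  have hd : ¬ (s.b = q ∨ s.n = q) := fun e => c (by
    rw [coll, bt_lor, bt_sel, bt_lor]
    exact .inr (.inr ⟨by decide, .inl ((dR_cel hc).2 e)⟩))
  have hw : ¬ s.isW q := fun e => by
    have x : Bt (oW s.j 2 (q % 4)) (cel 2 s.k s.b s.n q) := by
      rw [oW, frN_eq, wsq_j h hq e]
      exact o
    obtain e | e | e | e := fld_mod q <;> rw [e] at x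
    exacts [w.1 x, w.2.1 x, w.2.2.1 x, w.2.2.2 x]
  have hp : ¬ s.isP q := fun e => by
    by_cases y : s.p (q % 4) < 6
    · have x : Bt (oP s.j 2 (q % 4)) (cel 2 s.k s.b s.n q) := by
        rw [oP, frN_eq, ← (fld_pex h (Nat.mod_lt _ (by decide)) hq).2 ⟨rfl, e, .inr y⟩]
        exact o
      obtain e | e | e | e := fld_mod q <;> rw [e] at x
      exacts [p.1 x, p.2.1 x, p.2.2.1 x, p.2.2.2 x]
    · exact g (gz_p h hq (by omega) e (by omega))
  simp only [St.E, St.Wh, St.Bl, not_or]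
  exact ⟨⟨fun e => a1 (e ▸ o), hR, fun e => a2 (e ▸ o), fun e => a3 (e ▸ o), hw⟩,
    fun e => g (e ▸ gz_k h (by omega)), by omega, by omega, by omega, hp⟩

end Pool.Agent.Lib.MP_15f43f_co
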