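import Pool.Agent.Lib.MP_15f43f_co.Game

/-! Mirror of ranks and colours; an invariant kept by the defender excludes a forced win. -/

namespace Pool.Agent.Lib.MP_15f43f_co

def flS (s : Sq) : Sq := (s.1, s.2.rev)

def flM (m : Color × Kind) : Color × Kind := (m.1.opp, m.2)

def flB (β : Board) : Board := fun s => (β (flS s)).map flM

def flP (p : Pos) : Pos := ⟨flB p.board, p.turn.opp⟩

theorem opp_opp (c : Color) : c.opp.opp = c := by cases c <;> rfl

theorem flS_flS (s : Sq) : flS (flS s) = s := by simp [flS]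

theorem flS_inj {s t : Sq} (h : flS s = flS t) : s = t := by
  rw [← flS_flS s, h, flS_flS]

theorem flB_flB (β : Board) : flB (flB β) = β := by
  funext s
  simp only [flB, flS_flS]
  rcases β s with _ | ⟨c, k⟩
  · rfl
  · simp [flM, opp_opp]

theorem flP_flP (p : Pos) : flP (flP p) = p := by
  cases p; simp [flP, flB_flB, opp_opp]

theorem flB_none {β : Board} {s : Sq} : flB β (flS s) = none ↔ β s = none := by
  simp [flB, flS_flS]

theorem flB_some {β : Board} {s : Sq} {c : Color} {k : Kind} :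
    flB β (flS s) = some (c.opp, k) ↔ β s = some (c, k) := by
  simp only [flB, flS_flS]
  rcases β s with _ | ⟨c', k'⟩
  · simp
  · cases c <;> cases c' <;> simp [flM, Color.opp]

theorem Off.fl {s t : Sq} {a b : ℤ} (h : Off s t a b) : Off (flS s) (flS t) a (-b) := by
  obtain ⟨h1, h2⟩ := h
  refine ⟨h1, ?_⟩
  have := s.2.2
  have := t.2.2
  simp only [flS, Fin.val_rev]
  omega

theorem Slide.fl {β : Board} {s t : Sq} {a b : ℤ} (h : Slide β s t a b) :
    Slide (flB β) (flS s) (flS t) a (-b) := by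
  obtain ⟨n, h0, h1, h2⟩ := h
  refine ⟨n, h0, by simpa using h1.fl, fun m m0 m1 u hu => ?_⟩
  have := hu.fl
  rw [flS_flS] at this
  rw [← flS_flS u, flB_none]
  exact h2 m m0 m1 _ (by simpa using this)

theorem Straight.fl {β : Board} {s t : Sq} (h : Straight β s t) :
    Straight (flB β) (flS s) (flS t) := by
  rcases h with h | h | h | h
  · exact .inl (by simpa using h.fl)
  · exact .inr (.inl (by simpa using h.fl))
  · exact .inr (.inr (.inr h.fl))
  · exact .inr (.inr (.inl (by simpa using h.fl)))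

theorem Diagonal.fl {β : Board} {s t : Sq} (h : Diagonal β s t) :
    Diagonal (flB β) (flS s) (flS t) := by
  rcases h with h | h | h | h
  · exact .inr (.inl h.fl)
  · exact .inl (by simpa using h.fl)
  · exact .inr (.inr (.inr h.fl))
  · exact .inr (.inr (.inl (by simpa using h.fl)))

theorem Geo.fl {β : Board} {s t : Sq} {k : Kind} (h : Geo β s t k) :
    Geo (flB β) (flS s) (flS t) k := by
  cases k with
  | king => obtain ⟨a, b, h1, h2⟩ := h; exact ⟨a, -b, h1.fl, by rwa [abs_neg]⟩
  | queen => exact h.imp Straight.fl Diagonal.fl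
  | rook => exact Straight.fl h
  | bishop => exact Diagonal.fl h
  | knight => obtain ⟨a, b, h1, h2⟩ := h; exact ⟨a, -b, h1.fl, by rwa [abs_neg]⟩
  | pawn => exact h

theorem PieceMove.fl {β : Board} {c : Color} {k : Kind} {s t : Sq} (h : PieceMove β c k s t) :
    PieceMove (flB β) c.opp k (flS s) (flS t) :=
  ⟨flB_some.2 h.1, h.2.1, h.2.2.1.fl, fun k' e => h.2.2.2 k' (flB_some.1 e)⟩

theorem fwd_opp (c : Color) : fwd c.opp = -fwd c := by cases c <;> rfl

theorem PawnMove.fl {β : Board} {c : Color} {s t : Sq} (h : PawnMove β c s t) :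
    PawnMove (flB β) c.opp (flS s) (flS t) := by
  obtain ⟨h1, h2, h3, h4⟩ := h
  refine ⟨flB_some.2 h1, h2, flB_none.2 h3, ?_⟩
  rw [fwd_opp]
  rcases h4 with h | ⟨a, b, e⟩
  · exact .inl h.fl
  · refine .inr ⟨?_, by simpa using b.fl, fun u hu => ?_⟩
    · simp only [flS, a]; cases c <;> rfl
    · have := hu.fl
      rw [flS_flS] at this
      rw [← flS_flS u, flB_none]
      exact e _ (by simpa using this)

theorem put_fl (β : Board) (s t : Sq) (c : Color) (k : Kind) :
    flB (put β s t c k) = put (flB β) (flS s) (flS t) c.opp k := by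
  funext u
  rw [← flS_flS u]
  generalize flS u = v
  simp only [flB, put, flS_flS]
  by_cases h1 : v = t
  · subst h1; simp [flM]
  · rw [Function.update_of_ne h1, Function.update_of_ne (fun e => h1 (flS_inj e))]
    by_cases h2 : v = s
    · subst h2; simp
    · rw [Function.update_of_ne h2, Function.update_of_ne (fun e => h2 (flS_inj e))]
      simp [flB, flS_flS]

theorem last_fl {t : Sq} {c : Color} : (flS t).2 = lastRank c.opp ↔ t.2 = lastRank c := by
  simp only [flS]
  cases c <;> simp only [lastRank, Color.opp] <;> rw [Fin.rev_eq_iff] <;> rfl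

theorem Pseudo.fl {β β' : Board} {c : Color} (h : Pseudo β c β') :
    Pseudo (flB β) c.opp (flB β') := by
  rcases h with ⟨k, s, t, h, rfl⟩ | ⟨s, t, h, e, rfl⟩ | ⟨s, t, k, h, e, g, rfl⟩
  · exact .inl ⟨k, _, _, h.fl, put_fl _ _ _ _ _⟩
  · exact .inr (.inl ⟨_, _, h.fl, fun a => e (last_fl.1 a), put_fl _ _ _ _ _⟩)
  · exact .inr (.inr ⟨_, _, k, h.fl, last_fl.2 e, g, put_fl _ _ _ _ _⟩)

theorem InCheck.fl {β : Board} {c : Color} (h : InCheck β c) : InCheck (flB β) c.opp := by
  obtain ⟨k, s, t, h1, h2⟩ := h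
  exact ⟨k, _, _, h1.fl, flB_some.2 h2⟩

theorem inCheck_fl {β : Board} {c : Color} : InCheck (flB β) c.opp ↔ InCheck β c :=
  ⟨fun h => by simpa only [flB_flB, opp_opp] using h.fl, InCheck.fl⟩

theorem Legal.fl {p q : Pos} (h : Legal p q) : Legal (flP p) (flP q) :=
  ⟨congrArg Color.opp h.1, h.2.1.fl, fun a => h.2.2 (inCheck_fl.1 a)⟩

theorem flB_init : flB initBoard = initBoard := by
  funext ⟨f, r⟩
  fin_cases f <;> fin_cases r <;> rfl

/-- The defender `c.opp` keeps `I`, or is stalemated. -/
theorem not_force (c : Color) (I : Pos → Prop) (h0 : I init)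
    (hd : ∀ p, I p → p.turn = c.opp →
      (∃ q, Legal p q ∧ I q) ∨ (¬ InCheck p.board p.turn ∧ ¬ ∃ q, Legal p q))
    (ha : ∀ p q, I p → p.turn = c → Legal p q → I q) : ¬ CanForceWin c := by
  rintro ⟨σ, hσ, h⟩
  have k : ∀ (l : List Pos) (p : Pos), ∃ q, (I p → I q) ∧
      ((∃ q, Legal p q) → Legal p q ∧ (p.turn = c → q = σ (l ++ [p]))) ∧
      ((¬ ∃ q, Legal p q) → q = p) := fun l p => by
    by_cases L : ∃ q, Legal p q
    · by_cases e : p.turn = c
      · exact ⟨_, fun i => ha p _ i e (hσ l p e L), fun _ => ⟨hσ l p e L, fun _ => rfl⟩,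
          fun n => (n L).elim⟩
      · by_cases i : I p
        · have e' : p.turn = c.opp := by
            revert e; cases p.turn <;> cases c <;> simp [Color.opp]
          obtain ⟨q, a, b⟩ := (hd p i e').resolve_right fun x => x.2 L
          exact ⟨q, fun _ => b, fun _ => ⟨a, fun x => (e x).elim⟩, fun n => (n L).elim⟩
        · obtain ⟨q, a⟩ := id L
          exact ⟨q, fun j => (i j).elim, fun _ => ⟨a, fun x => (e x).elim⟩, fun n => (n L).elim⟩
    · exact ⟨p, id, fun n => (L n).elim, fun _ => rfl⟩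
  choose st k1 k2 k3 using k
  obtain ⟨s, s0, s1⟩ : ∃ s : ℕ → List Pos × Pos, s 0 = ([], init) ∧
      ∀ n, s (n + 1) = ((s n).1 ++ [(s n).2], st (s n).1 (s n).2) :=
    ⟨fun n => n.rec ([], init) fun _ x => (x.1 ++ [x.2], st x.1 x.2), rfl, fun _ => rfl⟩
  have e : ∀ n, (s n).1 = (List.range n).map fun n => (s n).2 := fun n => by
    induction n with
    | zero => rw [s0]; rfl
    | succ n ih => rw [s1, List.range_succ, List.map_append, ← ih]; rfl
  have i : ∀ n, I (s n).2 := fun n => by
    induction n with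
    | zero => rwa [s0]
    | succ n ih => rw [s1]; exact k1 _ _ ih
  obtain ⟨n, a, g, b⟩ := h (fun n => (s n).2) ⟨congrArg Prod.snd s0, fun n => by
    rw [← e]
    dsimp only
    rw [s1]
    exact ⟨k2 _ _, k3 _ _⟩⟩
  rcases hd _ (i n) a with x | x
  · exact b (x.imp fun _ => And.left)
  · exact x.1 g

/-- An invariant that White keeps, holding for the initial placement with Black to move, excludes
a forced win of White in the true game. -/
theorem not_force_white (I : Pos → Prop) (h0 : I ⟨initBoard, .black⟩)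
    (hw : ∀ p, I p → p.turn = .white →
      (∃ q, Legal p q ∧ I q) ∨ (¬ InCheck p.board .white ∧ ¬ ∃ q, Legal p q))
    (hb : ∀ p q, I p → p.turn = .black → Legal p q → I q) : ¬ CanForceWin .white := by
  refine not_force .white (fun p => I (flP p)) (by simpa [flP, init, flB_init, Color.opp] using h0)
    (fun p i e => ?_) fun p q i e l => hb _ _ i (by simp [flP, e, Color.opp]) l.fl
  have e' : (flP p).turn = .white := by simp [flP, e, Color.opp]
  rcases hw _ i e' with ⟨q, a, b⟩ | ⟨a, b⟩
  · exact .inl ⟨flP q, by simpa only [flP_flP] using a.fl, by rwa [flP_flP]⟩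
  · refine .inr ⟨fun x => a ?_, fun ⟨q, x⟩ => b ⟨_, x.fl⟩⟩
    have := x.fl
    rwa [e] at this

end Pool.Agent.Lib.MP_15f43f_co
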