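import Pool.Agent.Lib.MP_15f43f_co.Safe
import Pool.Agent.Lib.MP_15f43f_co.Flip

/-! The safety criterion on coded states, for the second player. -/

namespace Pool.Agent.Lib.MP_15f43f_co

/-- A safe set of coded states that holds the initial placement with Black to move excludes a
forced win of White in the true game. -/
theorem safe_white_of_inv (IT : St → Prop) (hV : ∀ s, IT s → Valid s) (hK : ∀ s, IT s → ¬ AttW s)
    (hB : ∀ s s', IT s → BMove s s' → AttB s' ∨ ∃ s'', WMove s' s'' ∧ IT s'')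
    (hP : ∀ s f, IT s → f < 4 → s.p f = 2 → s.E f → AttB (s.setP f 1))
    (h0 : IT st0) : ¬ CanForceWin .white := by
  refine not_force_white (fun p => (∃ s, IT s ∧ p = ⟨s.board, .black⟩) ∨
    ∃ s s'', Valid s ∧ WMove s s'' ∧ IT s'' ∧ p = ⟨s.board, .white⟩)
    (.inl ⟨st0, h0, by rw [board_st0]⟩) ?_ ?_
  · rintro _ (⟨s, -, rfl⟩ | ⟨s, s'', a, b, c, rfl⟩) e
    · cases e
    · exact .inl ⟨_, legal_of_wmove a b (hK _ c), .inl ⟨s'', c, rfl⟩⟩
  · rintro _ q (⟨s, a, rfl⟩ | ⟨s, s'', -, -, -, rfl⟩) e l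
    · rcases bmove_of_legal (hV s a) (hK s a) l with ⟨s', b, rfl, c⟩ | ⟨f, b, c, d, n⟩
      · obtain ⟨s'', m, i⟩ := (hB s s' a b).resolve_left c
        exact .inr ⟨s', s'', b.valid (hV s a), m, i, rfl⟩
      · exact (n (hP s f a b c d)).elim
    · cases e

end Pool.Agent.Lib.MP_15f43f_co
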