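import Mathlib

namespace Pool.Agent.Lib.MP_15f43f_co

inductive Color
  | white
  | black

inductive Kind
  | king
  | queen
  | rook
  | bishop
  | knight
  | pawn

def Color.opp : Color → Color
  | .white => .black
  | .black => .white

/-- A square of the ordinary board: (file, rank); file 0 is file a, rank 0 is the first rank. -/
abbrev Sq : Type := Fin 8 × Fin 8

abbrev Board : Type := Sq → Option (Color × Kind)

structure Pos where
  board : Board
  turn : Color

/-- `t` is `s` shifted by `a` files and `b` ranks. -/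
def Off (s t : Sq) (a b : ℤ) : Prop :=
  ((t.1 : ℕ) : ℤ) = (s.1 : ℕ) + a ∧ ((t.2 : ℕ) : ℤ) = (s.2 : ℕ) + b

/-- `t` is reached from `s` by a positive number of steps `(a, b)` over empty squares. -/
def Slide (β : Board) (s t : Sq) (a b : ℤ) : Prop :=
  ∃ n : ℕ, 0 < n ∧ Off s t (n * a) (n * b) ∧
    ∀ m : ℕ, 0 < m → m < n → ∀ u : Sq, Off s u (m * a) (m * b) → β u = none

def Straight (β : Board) (s t : Sq) : Prop :=
  Slide β s t 1 0 ∨ Slide β s t (-1) 0 ∨ Slide β s t 0 1 ∨ Slide β s t 0 (-1)

def Diagonal (β : Board) (s t : Sq) : Prop :=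
  Slide β s t 1 1 ∨ Slide β s t 1 (-1) ∨ Slide β s t (-1) 1 ∨ Slide β s t (-1) (-1)

/-- Standard chess geometry of the pieces other than pawns (pawns: see `PawnMove`). -/
def Geo (β : Board) (s t : Sq) : Kind → Prop
  | .king => ∃ a b : ℤ, Off s t a b ∧ max |a| |b| = 1
  | .queen => Straight β s t ∨ Diagonal β s t
  | .rook => Straight β s t
  | .bishop => Diagonal β s t
  | .knight => ∃ a b : ℤ, Off s t a b ∧ ((|a| = 1 ∧ |b| = 2) ∨ (|a| = 2 ∧ |b| = 1))
  | .pawn => False

/-- The files a, c, e, g. -/
def GoodFile (t : Sq) : Prop := (t.1 : ℕ) % 2 = 0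

/-- A move or capture of a piece of kind `k` (not a pawn) of colour `c` from `s` to `t`, before the
test for check. -/
def PieceMove (β : Board) (c : Color) (k : Kind) (s t : Sq) : Prop :=
  β s = some (c, k) ∧ GoodFile t ∧ Geo β s t k ∧ ∀ k' : Kind, β t ≠ some (c, k')

def fwd : Color → ℤ
  | .white => 1
  | .black => -1

def startRank : Color → Fin 8
  | .white => 1
  | .black => 6

def lastRank : Color → Fin 8
  | .white => 7
  | .black => 0

/-- A pawn step or initial double step; pawns never capture. -/
def PawnMove (β : Board) (c : Color) (s t : Sq) : Prop :=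
  β s = some (c, .pawn) ∧ GoodFile t ∧ β t = none ∧
    (Off s t 0 (fwd c) ∨
      (s.2 = startRank c ∧ Off s t 0 (2 * fwd c) ∧ ∀ u : Sq, Off s u 0 (fwd c) → β u = none))

/-- The board after the man on `s` leaves and a man `(c, k)` stands on `t`. -/
def put (β : Board) (s t : Sq) (c : Color) (k : Kind) : Board :=
  Function.update (Function.update β s none) t (some (c, k))

def Pseudo (β : Board) (c : Color) (β' : Board) : Prop :=
  (∃ k s t, PieceMove β c k s t ∧ β' = put β s t c k) ∨
  (∃ s t, PawnMove β c s t ∧ t.2 ≠ lastRank c ∧ β' = put β s t c .pawn) ∨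
  (∃ s t k, PawnMove β c s t ∧ t.2 = lastRank c ∧
    (k = .queen ∨ k = .rook ∨ k = .bishop ∨ k = .knight) ∧ β' = put β s t c k)

def InCheck (β : Board) (c : Color) : Prop :=
  ∃ k s t, PieceMove β c.opp k s t ∧ β t = some (c, .king)

def Legal (p q : Pos) : Prop :=
  q.turn = p.turn.opp ∧ Pseudo p.board p.turn q.board ∧ ¬ InCheck q.board p.turn

def Checkmated (p : Pos) : Prop :=
  InCheck p.board p.turn ∧ ¬ ∃ q, Legal p q

/-- The man of the back rank on a file. -/
def backRank (f : Fin 8) : Option Kind :=
  if f = 0 then some .rook else if f = 2 then some .bishop else if f = 4 then some .king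
  else if f = 6 then some .knight else none

def initBoard : Board := fun s =>
  if (s.1 : ℕ) % 2 = 1 then none
  else if s.2 = 0 then (backRank s.1).map fun k => (.white, k)
  else if s.2 = 1 then some (.white, .pawn)
  else if s.2 = 6 then some (.black, .pawn)
  else if s.2 = 7 then (backRank s.1).map fun k => (.black, k)
  else none

def init : Pos := ⟨initBoard, .white⟩

/-- A strategy of `c` maps the list of all positions so far to the next position, by a legal move
whenever `c` is to move and has one. -/
def IsStrategy (c : Color) (σ : List Pos → Pos) : Prop :=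
  ∀ (h : List Pos) (p : Pos), p.turn = c → (∃ q, Legal p q) → Legal p (σ (h ++ [p]))

/-- A play from the initial position in which `c` follows `σ`; a finished play stays at its last
position. -/
def IsPlay (c : Color) (σ : List Pos → Pos) (p : ℕ → Pos) : Prop :=
  p 0 = init ∧ ∀ n,
    ((∃ q, Legal (p n) q) → Legal (p n) (p (n + 1)) ∧
      ((p n).turn = c → p (n + 1) = σ ((List.range (n + 1)).map p))) ∧
    ((¬ ∃ q, Legal (p n) q) → p (n + 1) = p n)

def CanForceWin (c : Color) : Prop :=
  ∃ σ, IsStrategy c σ ∧ ∀ p, IsPlay c σ p → ∃ n, (p n).turn = c.opp ∧ Checkmated (p n)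

end Pool.Agent.Lib.MP_15f43f_co
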