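import Pool.Agent.Lib.MP_15f43f_co.Cmp

/-! The geometry of the four file model against the geometry of the board. -/

namespace Pool.Agent.Lib.MP_15f43f_co

theorem nxt_spec : ∀ d, d < 12 → ∀ s, s < 32 → ∀ t, t < 32 →
    (nxt d s = t ↔ ((t % 4 : ℕ) : ℤ) = (s % 4 : ℕ) + df d ∧ ((t / 4 : ℕ) : ℤ) = (s / 4 : ℕ) + dr d) := by
  decide +kernel
theorem nxt_le : ∀ d, d < 12 → ∀ s, s < 33 → nxt d s ≤ 32 := by decide +kernel
theorem Sl.lt {E : ℕ → Prop} {d s t : ℕ} (h : Sl E d s t) : t < 32 := by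
  induction h with
  | one h => exact h
  | more _ _ _ ih => exact ih
theorem Sl.mono {E E' : ℕ → Prop} {d s t : ℕ} (h : Sl E d s t) (hE : ∀ q, q < 32 → E q → E' q) :
    Sl E' d s t := by
  induction h with
  | one h => exact .one h
  | more a b _ ih => exact .more a (hE _ a b) ih
theorem lit_inj {s t : ℕ} (hs : s < 32) (ht : t < 32) (h : lit s = lit t) : s = t := by
  simp only [lit, Prod.mk.injEq, Fin.mk.injEq] at h
  omega
theorem good_lit (u : Sq) : GoodFile u ↔ ∃ q, q < 32 ∧ u = lit q := by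
  obtain ⟨⟨x, hx⟩, ⟨y, hy⟩⟩ := u
  simp only [GoodFile, lit, Prod.mk.injEq, Fin.mk.injEq]
  exact ⟨fun h => ⟨4 * y + x / 2, by omega, by omega, by omega⟩, fun ⟨q, _, h, _⟩ => by omega⟩

/-- shift in the model -/
def GeoOf (s t : ℕ) (a b : ℤ) : Prop :=
  ((t % 4 : ℕ) : ℤ) = (s % 4 : ℕ) + a ∧ ((t / 4 : ℕ) : ℤ) = (s / 4 : ℕ) + b

theorem geo_mid {x a N : ℤ} {n : ℕ} (h0 : 0 ≤ x) (h1 : x < N) (k0 : 0 ≤ x + (n + 1) * a)
    (k1 : x + (n + 1) * a < N) : 0 ≤ x + a ∧ x + a < N := by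
  have : (0 : ℤ) ≤ n := Int.natCast_nonneg n
  rcases le_total 0 a with h | h <;> constructor <;> nlinarith [mul_nonneg this (abs_nonneg a)]

theorem geo_sl {E : ℕ → Prop} {d s t : ℕ} (hd : d < 12) (hs : s < 32) (ht : t < 32) :
    Sl E d s t ↔ ∃ n : ℕ, 0 < n ∧ GeoOf s t (n * df d) (n * dr d) ∧
      ∀ m : ℕ, 0 < m → m < n → ∀ u, u < 32 → GeoOf s u (m * df d) (m * dr d) → E u := by
  constructor
  · intro h
    induction h with
    | one h =>
      exact ⟨1, one_pos, by simpa [GeoOf] using (nxt_spec d hd _ hs _ h).1 rfl,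
        fun m a b => by omega⟩
    | @more s t a b _ ih =>
      obtain ⟨n, -, o, k⟩ := ih a ht
      have e := (nxt_spec d hd s hs _ a).1 rfl
      refine ⟨n + 1, n.succ_pos, ?_, fun m m0 m1 u hu l => ?_⟩
      · simp only [GeoOf] at o ⊢
        push_cast at *
        constructor <;> linarith [o.1, o.2, e.1, e.2]
      · obtain ⟨m, rfl⟩ : ∃ k, m = k + 1 := ⟨m - 1, by omega⟩
        rcases m.eq_zero_or_pos with rfl | p
        · exact (nxt_spec d hd s hs u hu).2 (by simpa [GeoOf] using l) ▸ b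
        · refine k m p (by omega) u hu ?_
          simp only [GeoOf] at l ⊢
          push_cast at *
          constructor <;> linarith [l.1, l.2, e.1, e.2]
  · rintro ⟨n, hn, o, k⟩
    obtain ⟨n, rfl⟩ : ∃ k, n = k + 1 := ⟨n - 1, by omega⟩
    clear hn
    induction n generalizing s with
    | zero =>
      have e := (nxt_spec d hd s hs t ht).2 (by simpa [GeoOf] using o)
      exact e ▸ .one (e ▸ ht)
    | succ n ih =>
      rw [GeoOf, Nat.cast_add (n + 1), Nat.cast_one] at o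
      have a := geo_mid (x := (s % 4 : ℕ)) (a := df d) (n := n + 1) (N := 4) (by omega) (by omega)
        (by omega) (by omega)
      have b := geo_mid (x := (s / 4 : ℕ)) (a := dr d) (n := n + 1) (N := 8) (by omega) (by omega)
        (by omega) (by omega)
      obtain ⟨u, hu, e⟩ : ∃ u, u < 32 ∧ GeoOf s u (df d) (dr d) :=
        ⟨(4 * ((s / 4 : ℕ) + dr d) + ((s % 4 : ℕ) + df d)).toNat, by omega, by omega, by omega⟩
      obtain rfl := (nxt_spec d hd s hs u hu).2 e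
      refine .more hu (k 1 one_pos (by omega) _ hu (by simpa using e)) (ih hu ?_
        fun m m0 m1 u h l => k (m + 1) m.succ_pos (by omega) u h ?_)
      · simp only [GeoOf] at e ⊢
        constructor <;> linarith [o.1, o.2, e.1, e.2]
      · simp only [GeoOf, Nat.cast_add, Nat.cast_one] at e l ⊢
        constructor <;> linarith [l.1, l.2, e.1, e.2]

theorem geo_off {s t : ℕ} (hs : s < 32) (ht : t < 32) (a b : ℤ) : Off (lit s) (lit t) a b ↔
    2 * (((t % 4 : ℕ) : ℤ) - (s % 4 : ℕ)) = a ∧ ((t / 4 : ℕ) : ℤ) - (s / 4 : ℕ) = b := by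
  simp only [Off, lit]
  omega

theorem geo_slide {β : Board} (hβ : ∀ u, ¬ GoodFile u → β u = none) {s t : ℕ} (hs : s < 32)
    (ht : t < 32) {d : ℕ} (hd : d < 12) (c : ℕ) (hc : c = 1 ∨ c = 2) {a b : ℤ}
    (key : ∀ (m : ℕ) (X Y : ℤ), 2 * X = m * a ∧ Y = m * b ↔
      m % c = 0 ∧ X = (m / c : ℕ) * df d ∧ Y = (m / c : ℕ) * dr d) :
    Slide β (lit s) (lit t) a b ↔ Sl (fun q => β (lit q) = none) d s t := by
  have k : ∀ (m q : ℕ), q < 32 → (Off (lit s) (lit q) (m * a) (m * b) ↔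
      m % c = 0 ∧ GeoOf s q ((m / c : ℕ) * df d) ((m / c : ℕ) * dr d)) := fun m q hq => by
    rw [geo_off hs hq, key, GeoOf, sub_eq_iff_eq_add', sub_eq_iff_eq_add']
  have c0 : 0 < c := by omega
  rw [geo_sl hd hs ht]
  constructor
  · rintro ⟨n, n0, o, l⟩
    obtain ⟨o1, o2⟩ := (k n t ht).1 o
    refine ⟨n / c, by rcases hc with rfl | rfl <;> omega, o2, fun m m0 m1 u hu e =>
      l (c * m) (Nat.mul_pos c0 m0) (by rcases hc with rfl | rfl <;> omega) _ ((k _ u hu).2 ?_)⟩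
    rwa [Nat.mul_mod_right, Nat.mul_div_cancel_left _ c0, and_iff_right rfl]
  · rintro ⟨n, n0, o, l⟩
    refine ⟨c * n, Nat.mul_pos c0 n0, (k _ t ht).2 ?_, fun m m0 m1 u e => ?_⟩
    · rwa [Nat.mul_mod_right, Nat.mul_div_cancel_left _ c0, and_iff_right rfl]
    · by_cases g : GoodFile u
      · obtain ⟨q, hq, rfl⟩ := (good_lit u).1 g
        obtain ⟨o1, o2⟩ := (k m q hq).1 e
        exact l (m / c) (by rcases hc with rfl | rfl <;> omega)
          (by rcases hc with rfl | rfl <;> omega) q hq o2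
      · exact hβ u g

theorem geo_rook {β : Board} (hβ : ∀ u, ¬ GoodFile u → β u = none) {s t : ℕ} (hs : s < 32) (ht : t < 32) :
    Geo β (lit s) (lit t) .rook ↔ ∃ d, d < 4 ∧ Sl (fun q => β (lit q) = none) d s t := by
  rw [Geo, Straight,
    geo_slide hβ hs ht (d := 2) (by omega) 2 (.inr rfl) fun m X Y => by simp only [df, dr]; omega,
    geo_slide hβ hs ht (d := 3) (by omega) 2 (.inr rfl) fun m X Y => by simp only [df, dr]; omega,
    geo_slide hβ hs ht (d := 0) (by omega) 1 (.inl rfl) fun m X Y => by simp only [df, dr]; omega,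
    geo_slide hβ hs ht (d := 1) (by omega) 1 (.inl rfl) fun m X Y => by simp only [df, dr]; omega]
  constructor
  · rintro (h | h | h | h) <;> exact ⟨_, by omega, h⟩
  · rintro ⟨d, hd, h⟩
    interval_cases d <;> simp only [h, true_or, or_true]
theorem geo_bishop {β : Board} (hβ : ∀ u, ¬ GoodFile u → β u = none) {s t : ℕ} (hs : s < 32) (ht : t < 32) :
    Geo β (lit s) (lit t) .bishop ↔ ∃ d, 4 ≤ d ∧ d < 8 ∧ Sl (fun q => β (lit q) = none) d s t := by
  rw [Geo, Diagonal,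
    geo_slide hβ hs ht (d := 4) (by omega) 2 (.inr rfl) fun m X Y => by simp only [df, dr]; omega,
    geo_slide hβ hs ht (d := 6) (by omega) 2 (.inr rfl) fun m X Y => by simp only [df, dr]; omega,
    geo_slide hβ hs ht (d := 5) (by omega) 2 (.inr rfl) fun m X Y => by simp only [df, dr]; omega,
    geo_slide hβ hs ht (d := 7) (by omega) 2 (.inr rfl) fun m X Y => by simp only [df, dr]; omega]
  constructor
  · rintro (h | h | h | h) <;> exact ⟨_, by omega, by omega, h⟩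
  · rintro ⟨d, h4, hd, h⟩
    interval_cases d <;> simp only [h, true_or, or_true]

theorem geo_jump {s t : ℕ} (hs : s < 32) (ht : t < 32) (P : ℤ → ℤ → Prop) :
    (∃ a b : ℤ, Off (lit s) (lit t) a b ∧ P a b) ↔
      P (2 * (((t % 4 : ℕ) : ℤ) - (s % 4 : ℕ))) (((t / 4 : ℕ) : ℤ) - (s / 4 : ℕ)) :=
  ⟨fun ⟨_, _, h, k⟩ => ((geo_off hs ht _ _).1 h).1 ▸ ((geo_off hs ht _ _).1 h).2 ▸ k,
    fun h => ⟨_, _, (geo_off hs ht _ _).2 ⟨rfl, rfl⟩, h⟩⟩

theorem geo_knight {β : Board} {s t : ℕ} (hs : s < 32) (ht : t < 32) :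
    Geo β (lit s) (lit t) .knight ↔ ∃ d, 8 ≤ d ∧ d < 12 ∧ nxt d s = t := by
  rw [Geo, geo_jump hs ht fun a b => (|a| = 1 ∧ |b| = 2) ∨ (|a| = 2 ∧ |b| = 1)]
  simp only [and_left_comm (a := 8 ≤ _)]
  revert t
  revert s
  decide +kernel
theorem geo_king {β : Board} {s t : ℕ} (hs : s < 32) (ht : t < 32) :
    Geo β (lit s) (lit t) .king ↔ ∃ d, d < 2 ∧ nxt d s = t := by
  rw [Geo, geo_jump hs ht fun a b => max |a| |b| = 1]
  revert t
  revert s
  decide +kernel

end Pool.Agent.Lib.MP_15f43f_co
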