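import Pool.Agent.Lib.MP_15f43f_co.Mask

namespace Pool.Agent.Lib.MP_15f43f_co

variable {a s q k j u z : ℕ}

theorem ka_lt (k : ℕ) : ka k < 4 := by
  have : kmv k ≤ 4095 := Nat.and_le_right
  rw [ka, div_eq]
  omega

theorem ks_lt (k : ℕ) : ks k < 32 := Nat.mod_lt _ (by decide)

theorem kq_lt (k : ℕ) : kq k < 32 := Nat.mod_lt _ (by decide)

theorem geoS_ray_succ (d q f s pa : ℕ) : rayP d q (f + 1) s pa =
    if 32 ≤ nxt d s then 0 else if nxt d s = q then 4294967296 + pa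
    else rayP d q f (nxt d s) (Nat.lor pa (bit (nxt d s))) := by
  have : rayP d q (f + 1) s pa = frN (nx d s) fun t => selN (Nat.ble 32 t) 0 (selN (Nat.beq t q)
    (Nat.add 4294967296 pa) (rayP d q f t (Nat.lor pa (bit t)))) := Eq.trans rfl rfl
  rw [this, frN_eq, selN_eq, selN_eq, add_eq, nx_eq]
  simp only [ble_iff, beq_iff]

theorem geoS_ray (d q f : ℕ) : ∀ s pa, pa < 2 ^ 32 → rayP d q f s pa ≠ 0 →
    (∀ t, Bt pa t → Bt (rayP d q f s pa % 4294967296) t) ∧
    (∀ E : ℕ → Prop, (∀ t, t < 32 → Bt (rayP d q f s pa % 4294967296) t → E t) → Sl E d s q) ∧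
    (f = 1 → nxt d s = q) := by
  induction f with
  | zero => exact fun s pa _ h => (h (Eq.trans rfl rfl)).elim
  | succ f ih =>
    intro s pa hp h
    rw [geoS_ray_succ] at h ⊢
    by_cases c : 32 ≤ nxt d s
    · exact (h (if_pos c)).elim
    rw [if_neg c] at h ⊢
    by_cases e : nxt d s = q
    · rw [if_pos e, show (4294967296 + pa) % 4294967296 = pa by omega]
      exact ⟨fun _ k => k, fun E _ => e ▸ Sl.one (by omega), fun _ => e⟩
    rw [if_neg e] at h ⊢
    have b : bit (nxt d s) < 2 ^ 32 := by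
      rw [bit, shl_eq, Nat.one_shiftLeft]
      exact Nat.pow_lt_pow_right (by decide) (by omega)
    obtain ⟨h1, h2, -⟩ := ih _ _ (Nat.or_lt_two_pow hp b) h
    refine ⟨fun t k => h1 t ((bt_lor _ _ _).2 (.inl k)), fun E hE => Sl.more (by omega)
      (hE _ (by omega) (h1 _ ((bt_lor _ _ _).2 (.inr ((bt_bit _ _).2 rfl))))) (h2 E hE), fun k => ?_⟩
    obtain rfl : f = 0 := by omega
    exact (h (Eq.trans rfl rfl)).elim

theorem geoS_fst (a b : ℕ) : fst0 a b = a ∨ fst0 a b = b := by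
  rw [fst0, selN_eq]
  split_ifs
  exacts [.inr rfl, .inl rfl]

theorem geoS_ray4 (d0 f s q : ℕ) :
    ∃ d, d0 ≤ d ∧ d < d0 + 4 ∧ ray4 d0 f s q = rayP d q f s 0 := by
  rw [ray4, add_eq, add_eq, add_eq]
  rcases geoS_fst _ _ with h | h <;> rw [h]
  · exact ⟨d0, by omega, by omega, rfl⟩
  rcases geoS_fst _ _ with h | h <;> rw [h]
  · exact ⟨d0 + 1, by omega, by omega, rfl⟩
  rcases geoS_fst _ _ with h | h <;> rw [h]
  · exact ⟨d0 + 2, by omega, by omega, rfl⟩
  · exact ⟨d0 + 3, by omega, by omega, rfl⟩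

theorem geo_spec (ha : a < 4) (h : geo a s q ≠ 0) (E : ℕ → Prop)
    (hE : ∀ t, t < 32 → Bt (geo a s q % 4294967296) t → E t) : Mv E a s q := by
  rw [geo, selN_eq, selN_eq, selN_eq] at h hE
  simp only [beq_iff] at h hE
  split_ifs at h hE with h0 h1 h2
  · refine .inl ⟨h0, ?_⟩
    rcases geoS_fst (rayP 0 q 1 s 0) (rayP 1 q 1 s 0) with e | e <;> rw [e] at h
    · exact ⟨0, by omega, (geoS_ray _ _ _ _ _ (by omega) h).2.2 rfl⟩
    · exact ⟨1, by omega, (geoS_ray _ _ _ _ _ (by omega) h).2.2 rfl⟩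
  · obtain ⟨d, -, d2, e⟩ := geoS_ray4 0 7 s q
    rw [e] at h hE
    exact .inr (.inl ⟨h1, d, d2, (geoS_ray _ _ _ _ _ (by omega) h).2.1 E hE⟩)
  · obtain ⟨d, d1, d2, e⟩ := geoS_ray4 4 3 s q
    rw [e] at h hE
    exact .inr (.inr (.inl ⟨h2, d, d1, d2, (geoS_ray _ _ _ _ _ (by omega) h).2.1 E hE⟩))
  · obtain ⟨d, d1, d2, e⟩ := geoS_ray4 8 1 s q
    rw [e] at h
    exact .inr (.inr (.inr ⟨by omega, d, d1, d2, (geoS_ray _ _ _ _ _ (by omega) h).2.2 rfl⟩))

theorem pgeo_spec (h : pgeo s q ≠ 0) :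
    (q = s + 4 ∧ s ≤ 23) ∨ (q = s + 8 ∧ s / 4 = 1 ∧ Bt (pgeo s q % 4294967296) (s + 4)) := by
  rw [pgeo, selN_eq, selN_eq] at h ⊢
  simp only [band_eq, Bool.and_eq_true, beq_iff, ble_iff, add_eq, div_eq] at h ⊢
  split_ifs at h ⊢ with h1 h2
  · exact .inl h1
  · have b : bit (s + 4) < 2 ^ 32 := by
      rw [bit, shl_eq, Nat.one_shiftLeft]
      exact Nat.pow_lt_pow_right (by decide) (by omega)
    rw [show (4294967296 + bit (s + 4)) % 4294967296 = bit (s + 4) by omega]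
    exact .inr ⟨h2.1, h2.2, (bt_bit _ _).2 rfl⟩
  · exact (h rfl).elim

theorem kG_eq (k : ℕ) : kG k = if kt k = 4 then pgeo (ks k) (kq k) else geo (ka k) (ks k) (kq k) := by
  rw [kG, frN_eq, frN_eq, selN_eq]
  simp only [beq_iff]

theorem pathM_spec {m fuel g i : ℕ} (hi : i < 14688) (h : ¬ Bt (pathM m fuel g) i) (t : ℕ) (ht : Bt g t) :
    ¬ Bt (on m t) i := by
  induction fuel generalizing g with
  | zero => exact (h (all3_bt hi)).elim
  | succ f ih =>
    have : pathM m (f + 1) g = selN (Nat.beq g 0) 0 (frN (Nat.log2 g) fun t =>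
      Nat.lor (on m t) (pathM m f (Nat.xor g (bit t)))) := Eq.trans rfl rfl
    have g0 : g ≠ 0 := fun e => bt_zero t (e ▸ ht)
    rw [this, selN_eq, if_neg (by rwa [beq_iff]), frN_eq, bt_lor, not_or] at h
    by_cases e : t = Nat.log2 g
    · exact e ▸ h.1
    · refine ih h.2 ?_
      have := mt (bt_bit (Nat.log2 g) t).1 e
      simp only [Bt, xor_eq, Nat.testBit_xor, Bool.not_eq_true] at ht this ⊢
      rw [ht, this]
      rfl

theorem geoS_kH (k : ℕ) : kH k = if kt k = 4 then 35 + 3 * (ks k % 4) else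
    if ka k = 0 then 18 else if ka k = 1 then 0 else if ka k = 2 then 12 else 6 := by
  rw [kH, selN_eq, add_eq, mul_eq, mul_eq, mod_eq, mod_eq, shr_eq]
  simp only [beq_iff]
  refine if_congr Iff.rfl rfl ?_
  have := ka_lt k
  generalize ka k = a at this
  revert a
  decide

theorem geoS_sh (k x : ℕ) : Nat.shiftLeft (kV k x) (kH k) =
    if kt k = 4 then 34359738368 * (8 ^ (ks k % 4) * (x / 4 + 1)) else hA (ka k) * x := by
  rw [shl_eq, Nat.shiftLeft_eq, geoS_kH, kV, selN_eq, div_eq, hA]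
  simp only [beq_iff, Nat.succ_eq_add_one]
  split_ifs
  · rw [pow_add, pow_mul]; ring
  all_goals omega

theorem geoS_kP (k x : ℕ) : kP k x = 2 ^ 23 * if kt k = 3 then x <<< (3 * (kq k % 4)) else 0 := by
  rw [kP, selN_eq, shl_eq, add_eq, mul_eq, mod_eq]
  simp only [beq_iff, Nat.shiftLeft_eq]
  split_ifs
  · rw [pow_add]; ring
  · rfl

theorem kA_eq (k : ℕ) : kA k =
    if kt k = 4 then 34359738368 * (8 ^ (ks k % 4) * (kq k / 4 + 1)) else hA (ka k) * kq k := geoS_sh k _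

theorem kD_eq (k : ℕ) : kD k =
    (if kt k = 4 then 34359738368 * (8 ^ (ks k % 4) * (ks k / 4 + 1)) else hA (ka k) * ks k) +
      if kt k = 3 then 8388608 * (8 ^ (kq k % 4) * (kq k / 4 + 1)) else 0 := by
  rw [kD, add_eq, geoS_sh, geoS_kP, div_eq, Nat.succ_eq_add_one, Nat.shiftLeft_eq]
  congr 1
  split_ifs
  · rw [pow_mul]; ring
  · rfl

theorem geoS_fld {x y h w n : ℕ} (hy : y < 2 ^ n) (hw : w ≤ n)
    (H : ∀ r, r < n → (x.testBit (h + r) && (2 ^ w - 1).testBit r) = y.testBit r) :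
    x / 2 ^ h % 2 ^ w = y := by
  refine Nat.eq_of_testBit_eq fun r => ?_
  rw [Nat.testBit_mod_two_pow, Nat.testBit_div_two_pow, Nat.add_comm r h, Bool.and_comm]
  by_cases c : r < n
  · rw [← H r c, Nat.testBit_two_pow_sub_one]
  · rw [Nat.testBit_lt_two_pow (hy.trans_le (Nat.pow_le_pow_right (by decide) (by omega))),
      decide_eq_false (by omega), Bool.and_false]

theorem geoS_key {F D : ℕ} (hj : j < 67108864) (hu : u < 8388608)
    (h1 : ∀ i, Bt (Nat.xor F D) i → ¬ Bt (Nat.lor (bX j z) (bU u)) (33 + i))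
    (h2 : ∀ i, Bt D i → ¬ Bt (Nat.lor (bX j z) (bU u)) (82 + i)) :
    (∀ i, i < 23 → (u.testBit i && F.testBit i) = D.testBit i) ∧
      ∀ i, i < 26 → (j.testBit i && F.testBit (23 + i)) = D.testBit (23 + i) := by
  have k : ∀ c f d : Bool, ((f ^^ d) = true → ¬ c = true) → (d = true → ¬ (!c) = true) →
      (c && f) = d := by decide
  simp only [bX, bU, bt_lor, bt_or4, bt_or3, bt_shl, not_or, sub_eq] at h1 h2
  refine ⟨fun i hi => k _ _ _ (fun a b => ?_) fun a b => ?_,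
    fun i hi => k _ _ _ (fun a b => ?_) fun a b => ?_⟩
  · exact (h1 i (by rwa [Bt, xor_eq, Nat.testBit_xor])).2.2.1
      ⟨by omega, by rwa [Nat.add_sub_cancel_left]⟩
  · refine (h2 i a).2.2.2 ⟨by omega, ?_⟩
    rw [Nat.add_sub_cancel_left, Bt, show 8388607 - u = 2 ^ 23 - (u + 1) by omega,
      Nat.testBit_two_pow_sub_succ (by omega), b, decide_eq_true hi]
    rfl
  · exact (h1 (23 + i) (by rwa [Bt, xor_eq, Nat.testBit_xor])).1.2.2.1
      ⟨by omega, by rwa [show 33 + (23 + i) - 56 = i by omega]⟩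
  · refine (h2 (23 + i) a).1.2.2.2 ⟨by omega, ?_⟩
    rw [show 82 + (23 + i) - 105 = i by omega, Bt, show 67108863 - j = 2 ^ 26 - (j + 1) by omega,
      Nat.testBit_two_pow_sub_succ (by omega), b, decide_eq_true hi]
    rfl

theorem geoS_shl (x h r : ℕ) : (x <<< h).testBit (h + r) = x.testBit r := by
  simp [Nat.testBit_shiftLeft]

/-- what the single test of a hint gives -/
theorem test_spec (hj : j < 67108864) (hu : u < 8388608) (hk : kt k ≠ 7)
    (h : dj (gq k) (Nat.lor (bX j z) (bU u)) = true) :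
    kG k ≠ 0 ∧ (∀ t, t < 32 → Bt (kG k % 4294967296) t → Fr j z u t) ∧ (kt k % 4 = 0 → Fr j z u (kq k)) ∧
      (kt k = 4 → jw j (ks k % 4) = ks k / 4 + 1) ∧
      (kt k ≠ 4 → (ka k = 0 → uK u = ks k) ∧ (ka k = 1 → uR u = ks k) ∧ (ka k = 2 → uB u = ks k) ∧
        (ka k = 3 → uN u = ks k)) ∧
      (kt k = 3 → jp j (kq k % 4) = kq k / 4 + 1) := by
  rw [dj_iff, gq, selN_eq, if_neg (by rwa [beq_iff])] at h
  simp only [bt_or4, bt_shl, or_imp, forall_and] at h
  obtain ⟨a1, a2, a3, a4⟩ := h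
  obtain ⟨k1, k2⟩ := geoS_key (F := kF k) (D := kD k) (z := z) hj hu
    (fun i b => a3 _ ⟨by omega, by rwa [Nat.add_sub_cancel_left]⟩)
    (fun i b => a4 _ ⟨by omega, by rwa [Nat.add_sub_cancel_left]⟩)
  have fr : ∀ t, ¬ Bt (Nat.lor (bX j z) (bU u)) t → Fr j z u t := fun t b => by
    simp only [bX, bU, bt_lor, bt_or4, bt_or3, not_or] at b
    exact ⟨b.1.1.1, b.1.1.2, b.2.1⟩
  have s32 := ks_lt k
  have q32 := kq_lt k
  have e32 : (4294967296 : ℕ) = 2 ^ 32 := by norm_num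
  rw [kF, kD, add_eq, add_eq, geoS_kP, geoS_kP, kV, kW, geoS_kH, selN_eq, selN_eq, selN_eq, shl_eq,
    shl_eq, div_eq, div_eq, Nat.succ_eq_add_one, Nat.succ_eq_add_one, Nat.add_comm (_ <<< _),
    Nat.add_comm (_ <<< _)] at k1 k2
  simp only [beq_iff] at k1 k2
  have lo : ∀ {x h : ℕ}, x < 2 ^ (23 - h) → h ≤ 23 → x <<< h < 2 ^ 23 := fun {x h} a b => by
    rw [Nat.shiftLeft_eq, show 23 = 23 - h + h by omega, pow_add]
    exact Nat.mul_lt_mul_of_pos_right a (by positivity)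
  have pc : ∀ {h w : ℕ}, kt k ≠ 4 → h + 5 ≤ 23 → 5 ≤ w → h + w ≤ 23 →
      (if ka k = 0 then 18 else if ka k = 1 then 0 else if ka k = 2 then 12 else 6) = h →
      (if ka k = 0 then 31 else 63) = 2 ^ w - 1 →
      u / 2 ^ h % 2 ^ w = ks k ∧ (kt k = 3 → jp j (kq k % 4) = kq k / 4 + 1) := by
    intro h w n h1 h2 h3 h4 h5
    have l1 := lo (x := 2 ^ w - 1) (h := h) ((Nat.sub_one_lt (by positivity)).trans_le
      (Nat.pow_le_pow_right (by decide) (by omega))) (by omega)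
    have s5 : ∀ n, 5 ≤ n → ks k < 2 ^ n := fun n c =>
      lt_of_lt_of_le s32 (Nat.pow_le_pow_right (n := 2) (i := 5) (by decide) c)
    have l2 := lo (h := h) (s5 (23 - h) (by omega)) (by omega)
    simp only [if_neg n, h4, h5, Nat.testBit_two_pow_mul_add _ l1,
      Nat.testBit_two_pow_mul_add _ l2] at k1 k2
    refine ⟨geoS_fld (s5 w h2) le_rfl fun r c => ?_, fun t3 => ?_⟩
    · have := k1 (h + r) (by omega)
      rwa [if_pos (by omega), if_pos (by omega), geoS_shl, geoS_shl] at this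
    · rw [jp, p8, pow_eq, div_eq, mod_eq, show (8 : ℕ) = 2 ^ 3 from rfl, ← pow_mul]
      refine geoS_fld (n := 4) (by omega) (by omega) fun r c => ?_
      have := k2 (3 * (kq k % 4) + r) (by omega)
      simp only [if_neg (Nat.not_lt.2 (Nat.le_add_right 23 _)), if_pos t3, Nat.add_sub_cancel_left,
        geoS_shl] at this
      exact this
  refine ⟨fun e => a1 32 ?_ ?_, fun t c b => fr t (a1 t ?_), fun c => fr _ (a2 _ ?_), fun c => ?_,
    fun c => ⟨fun a => ?_, fun a => ?_, fun a => ?_, fun a => ?_⟩, fun c => ?_⟩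
  · rw [e, Bt, xor_eq, Nat.zero_xor, e32, Nat.testBit_two_pow_self]
  · simp only [bX, bt_lor, bt_or4]
    exact .inl (.inr (.inl (by rw [Bt, e32, Nat.testBit_two_pow_self])))
  · rw [Bt, e32, Nat.testBit_mod_two_pow, decide_eq_true c, Bool.true_and] at b
    rw [Bt, xor_eq, Nat.testBit_xor, b, e32, Nat.testBit_two_pow_of_ne (by omega)]
    rfl
  · rw [selN_eq, mod_eq, if_pos ((beq_iff _ _).2 c), bt_bit]
  · rw [jw, p8, pow_eq, div_eq, mod_eq, mul_eq, show (8 : ℕ) = 2 ^ 3 from rfl, ← pow_mul,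
      show (4096 : ℕ) = 2 ^ 12 from rfl, ← pow_add]
    refine geoS_fld (n := 4) (by omega) (by omega) fun r b => ?_
    have := k2 (12 + 3 * (ks k % 4) + r) (by omega)
    simp only [if_pos c, if_neg (show ¬ kt k = 3 by omega), Nat.mul_zero, Nat.zero_add] at this
    rwa [show 23 + (12 + 3 * (ks k % 4) + r) = 35 + 3 * (ks k % 4) + r by omega, geoS_shl,
      geoS_shl] at this
  · have := (pc (h := 18) (w := 5) c (by omega) (by omega) (by omega) (by simp [a]) (by simp [a])).1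
    rw [uK, div_eq]
    omega
  · have := (pc (h := 0) (w := 6) c (by omega) (by omega) (by omega) (by simp [a]) (by simp [a])).1
    rw [uR, mod_eq]
    omega
  · have := (pc (h := 12) (w := 6) c (by omega) (by omega) (by omega) (by simp [a]) (by simp [a])).1
    rw [uB, mod_eq, div_eq]
    omega
  · have := (pc (h := 6) (w := 6) c (by omega) (by omega) (by omega) (by simp [a]) (by simp [a])).1
    rw [uN, mod_eq, div_eq]
    omega
  · refine (pc (w := if ka k = 0 then 5 else 6) (by omega) ?_ ?_ ?_ rfl ?_).2 c <;>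
      split_ifs <;> omega

end Pool.Agent.Lib.MP_15f43f_co
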