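import Pool.Agent.Lib.MP_15f43f_co.Geo

/-! The board of a compact state and the effect of moves on it. -/

namespace Pool.Agent.Lib.MP_15f43f_co

theorem board_lit (s : St) {q : ℕ} (hq : q < 32) : s.board (lit q) = s.man q := by
  have e : 4 * (q / 4 % 8) + 2 * (q % 4) / 2 = q := by omega
  have o : ¬ 2 * (q % 4) % 2 = 1 := by omega
  simp only [St.board, lit, if_neg o, e]

theorem board_odd (s : St) (u : Sq) (h : ¬ GoodFile u) : s.board u = none :=
  if_pos (by unfold GoodFile at h; omega)

theorem man_none (s : St) (q : ℕ) : s.man q = none ↔ s.E q := by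
  simp only [St.man, St.E, St.Wh, St.Bl, St.isW, St.isP]
  split_ifs <;> simp only [*, true_or, or_true, not_true, false_and, and_false, or_self,
    not_false_iff, and_self]

theorem man_white {s : St} (q : ℕ) : (∃ k, s.man q = some (.white, k)) ↔ s.Wh q := by
  simp only [St.man, St.Wh, St.isW]
  split_ifs <;> simp only [Option.some.injEq, Prod.mk.injEq, true_and, false_and, exists_eq',
    exists_false, reduceCtorEq] <;> tauto

theorem put_df {x y : ℕ} (h : Df x y) (hy : y < 32) : ¬ y = x := fun e => by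
  have := h e.symm
  omega

theorem put_fw (s : St) (q : ℕ) :
    (s.man q = some (.white, .king) → q = s.K) ∧ (s.man q = some (.white, .rook) → q = s.R) ∧
    (s.man q = some (.white, .bishop) → q = s.B) ∧ (s.man q = some (.white, .knight) → q = s.N) ∧
    (s.man q = some (.white, .pawn) → s.isW q) ∧ s.man q ≠ some (.white, .queen) ∧
    (s.man q = some (.black, .king) → q = s.k) ∧ (s.man q = some (.black, .rook) → q = s.r) ∧
    (s.man q = some (.black, .bishop) → q = s.b) ∧ (s.man q = some (.black, .knight) → q = s.n) ∧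
    (s.man q = some (.black, .pawn) → s.isP q) ∧ s.man q ≠ some (.black, .queen) := by
  simp only [St.man, St.isW, St.isP]
  split_ifs <;> simp only [Option.some.injEq, Prod.mk.injEq, reduceCtorEq, and_false,
    and_self, false_imp_iff, true_and, and_true, ne_eq, not_false_iff, forall_const] <;> assumption

theorem man_iff {s : St} (hv : Valid s) {q : ℕ} (hq : q < 32) :
    (s.man q = some (.white, .king) ↔ q = s.K) ∧ (s.man q = some (.white, .rook) ↔ q = s.R) ∧
    (s.man q = some (.white, .bishop) ↔ q = s.B) ∧ (s.man q = some (.white, .knight) ↔ q = s.N) ∧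
    (s.man q = some (.white, .pawn) ↔ s.isW q) ∧ s.man q ≠ some (.white, .queen) ∧
    (s.man q = some (.black, .king) ↔ q = s.k) ∧ (s.man q = some (.black, .rook) ↔ q = s.r) ∧
    (s.man q = some (.black, .bishop) ↔ q = s.b) ∧ (s.man q = some (.black, .knight) ↔ q = s.n) ∧
    (s.man q = some (.black, .pawn) ↔ s.isP q) ∧ s.man q ≠ some (.black, .queen) := by
  obtain ⟨f1, f2, f3, f4, f5, f6, f7, f8, f9, f10, f11, f12⟩ := put_fw s q
  obtain ⟨k1, k2, k3, k4, k5, k6, k7⟩ := hv.dK
  obtain ⟨r1, r2, r3, r4, r5, r6⟩ := hv.dR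
  obtain ⟨b1, b2, b3, b4, b5⟩ := hv.dB
  obtain ⟨n1, n2, n3, n4⟩ := hv.dN
  obtain ⟨c1, c2, c3⟩ := hv.dk
  obtain ⟨d1, d2, d3⟩ := hv.dr
  have np := hv.nop q
  have pw := (hv.pw (q % 4) (Nat.mod_lt _ four_pos)).2.2
  unfold St.isW St.isP at np
  refine ⟨⟨f1, ?_⟩, ⟨f2, ?_⟩, ⟨f3, ?_⟩, ⟨f4, ?_⟩, ⟨f5, fun h => ?_⟩, f6, ⟨f7, ?_⟩, ⟨f8, ?_⟩,
    ⟨f9, ?_⟩, ⟨f10, ?_⟩, ⟨f11, fun h => ?_⟩, f12⟩
  · rintro rfl; exact if_pos rfl
  · rintro rfl; simp only [St.man, put_df k1 hq, if_false, if_true]
  · rintro rfl; simp only [St.man, put_df k2 hq, put_df r1 hq, if_false, if_true]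
  · rintro rfl; simp only [St.man, put_df k3 hq, put_df r2 hq, put_df b1 hq, if_false, if_true]
  · have := fun e => (np e).1 h
    simp only [imp_false, not_or] at this
    simp only [St.man, this, if_false, if_pos (show s.w (q % 4) = q / 4 + 1 from h)]
  · rintro rfl
    simp only [St.man, put_df k4 hq, put_df r3 hq, put_df b2 hq, put_df n1 hq, (np (by simp)).1,
      if_false, if_true]
  · rintro rfl
    simp only [St.man, put_df k5 hq, put_df r4 hq, put_df b3 hq, put_df n2 hq, (np (by simp)).1,
      put_df c1 hq, if_false, if_true]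
  · rintro rfl
    simp only [St.man, put_df k6 hq, put_df r5 hq, put_df b4 hq, put_df n3 hq, (np (by simp)).1,
      put_df c2 hq, put_df d1 hq, if_false, if_true]
  · rintro rfl
    simp only [St.man, put_df k7 hq, put_df r6 hq, put_df b5 hq, put_df n4 hq, (np (by simp)).1,
      put_df c3 hq, put_df d2 hq, put_df d3 hq, if_false, if_true]
  · have := fun e => (np e).2 h
    simp only [imp_false, not_or] at this
    have h' : s.p (q % 4) = q / 4 + 1 := h
    have w : ¬ s.w (q % 4) = q / 4 + 1 := by omega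
    simp only [St.man, this, w, if_false, if_pos h']

theorem man_black {s : St} (hv : Valid s) {q : ℕ} (hq : q < 32) :
    (∃ k, s.man q = some (.black, k)) ↔ s.Bl q := by
  obtain ⟨-, -, -, -, -, -, a, b, c, d, e, f⟩ := man_iff hv hq
  constructor
  · rintro ⟨k, h⟩
    cases k
    exacts [.inl (a.1 h), (f h).elim, .inr (.inl (b.1 h)), .inr (.inr (.inl (c.1 h))),
      .inr (.inr (.inr (.inl (d.1 h)))), .inr (.inr (.inr (.inr (e.1 h))))]
  · rintro (h | h | h | h | h)
    exacts [⟨_, a.2 h⟩, ⟨_, b.2 h⟩, ⟨_, c.2 h⟩, ⟨_, d.2 h⟩, ⟨_, e.2 h⟩]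

theorem put_board {s s' : St} {a t : ℕ} (ha : a < 32) (ht : t < 32) {c : Color} {k : Kind}
    (h1 : s'.man t = some (c, k)) (h2 : ¬ a = t → s'.man a = none)
    (h3 : ∀ q, q < 32 → ¬ q = a → ¬ q = t → s'.man q = s.man q) :
    put s.board (lit a) (lit t) c k = s'.board := by
  funext u
  by_cases g : GoodFile u
  · obtain ⟨q, hq, rfl⟩ := (good_lit u).1 g
    rw [board_lit _ hq]
    by_cases e : q = t
    · rw [e, h1]; exact Function.update_self ..
    rw [put, Function.update_of_ne fun l => e (lit_inj hq ht l)]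
    by_cases e' : q = a
    · subst e'; rw [h2 e]; exact Function.update_self ..
    · rw [Function.update_of_ne fun l => e' (lit_inj hq ha l), board_lit _ hq, h3 q hq e' e]
  · rw [put, Function.update_of_ne fun l => g ((good_lit u).2 ⟨t, ht, l⟩),
      Function.update_of_ne fun l => g ((good_lit u).2 ⟨a, ha, l⟩), board_odd _ _ g,
      board_odd _ _ g]

theorem put_r1 {q t : ℕ} (hq : q < 32) (h : ¬ q = t) (x : ℕ) :
    (q = if x = t then 32 else x) ↔ q = x := by split_ifs <;> omega

theorem put_r2 {q t : ℕ} (h : ¬ q = t) (x : ℕ) :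
    (if q % 4 = t % 4 ∧ x = t / 4 + 1 then 0 else x) = q / 4 + 1 ↔ x = q / 4 + 1 := by
  by_cases c : q % 4 = t % 4 ∧ x = t / 4 + 1
  · rw [if_pos c]; omega
  · rw [if_neg c]

theorem put_r3 {t : ℕ} (ht : t < 32) (x : ℕ) : ¬ t = if x = t then 32 else x := by
  split_ifs <;> omega

theorem put_r4 (t x : ℕ) : ¬ (if x = t / 4 + 1 then 0 else x) = t / 4 + 1 := by
  by_cases c : x = t / 4 + 1
  · rw [if_pos c]; omega
  · rwa [if_neg c]

/-- no other man stands on the square of a man -/
theorem put_ne {s : St} (hv : Valid s) {a : ℕ} (ha : a < 32) {c : Color} {k : Kind}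
    (h : s.man a = some (c, k)) :
    (a = s.K ↔ c = .white ∧ k = .king) ∧ (a = s.R ↔ c = .white ∧ k = .rook) ∧
    (a = s.B ↔ c = .white ∧ k = .bishop) ∧ (a = s.N ↔ c = .white ∧ k = .knight) ∧
    (s.w (a % 4) = a / 4 + 1 ↔ c = .white ∧ k = .pawn) ∧
    (a = s.k ↔ c = .black ∧ k = .king) ∧ (a = s.r ↔ c = .black ∧ k = .rook) ∧
    (a = s.b ↔ c = .black ∧ k = .bishop) ∧ (a = s.n ↔ c = .black ∧ k = .knight) ∧
    (s.p (a % 4) = a / 4 + 1 ↔ c = .black ∧ k = .pawn) := by
  obtain ⟨f1, f2, f3, f4, f5, -, f7, f8, f9, f10, f11, -⟩ := man_iff hv ha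
  simp only [h, Option.some.injEq, Prod.mk.injEq] at f1 f2 f3 f4 f5 f7 f8 f9 f10 f11
  exact ⟨f1.symm, f2.symm, f3.symm, f4.symm, f5.symm, f7.symm, f8.symm, f9.symm, f10.symm,
    f11.symm⟩

theorem put_white {s : St} (hv : Valid s) {t : ℕ} (ht : t < 32) (h : ¬ s.Wh t) (hk : t ≠ s.k) :
    (put s.board (lit s.K) (lit t) .white .king = St.board { s.rem t with K := t }) ∧
    (s.R < 32 → put s.board (lit s.R) (lit t) .white .rook = St.board { s.rem t with R := t }) ∧
    (s.B < 32 → put s.board (lit s.B) (lit t) .white .bishop = St.board { s.rem t with B := t }) ∧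
    (s.N < 32 → put s.board (lit s.N) (lit t) .white .knight = St.board { s.rem t with N := t }) := by
  have hK : ¬ t = s.K := fun e => h (.inl e)
  refine ⟨(fun a => ?_) hv.hK.1, fun a => ?_, fun a => ?_, fun a => ?_⟩
  all_goals
    refine put_board a ht (by simp only [St.man, St.rem, hK, put_r3 ht, if_false, if_true])
      (fun e => ?_) fun q hq e e' => by
        simp only [St.man, St.rem, put_r1 hq e', put_r2 e', e, e', if_false]
  · have := put_ne hv a ((man_iff hv a).1.2 rfl)
    simp only [reduceCtorEq, and_false, false_and, iff_false, and_self, true_and] at this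
    simp only [St.man, St.rem, put_r1 a e, put_r2 e, e, this, if_false]
  · have := put_ne hv a ((man_iff hv a).2.1.2 rfl)
    simp only [reduceCtorEq, and_false, false_and, iff_false, and_self, true_and] at this
    simp only [St.man, St.rem, put_r1 a e, put_r2 e, e, this, if_false]
  · have := put_ne hv a ((man_iff hv a).2.2.1.2 rfl)
    simp only [reduceCtorEq, and_false, false_and, iff_false, and_self, true_and] at this
    simp only [St.man, St.rem, put_r1 a e, put_r2 e, e, this, if_false]
  · have := put_ne hv a ((man_iff hv a).2.2.2.1.2 rfl)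
    simp only [reduceCtorEq, and_false, false_and, iff_false, and_self, true_and] at this
    simp only [St.man, St.rem, put_r1 a e, put_r2 e, e, this, if_false]

theorem put_black {s : St} (hv : Valid s) {t : ℕ} (ht : t < 32) (h : ¬ s.Bl t) (hK : t ≠ s.K) :
    (put s.board (lit s.k) (lit t) .black .king = St.board { s.rem t with k := t }) ∧
    (s.r < 32 → put s.board (lit s.r) (lit t) .black .rook = St.board { s.rem t with r := t }) ∧
    (s.b < 32 → put s.board (lit s.b) (lit t) .black .bishop = St.board { s.rem t with b := t }) ∧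
    (s.n < 32 → put s.board (lit s.n) (lit t) .black .knight = St.board { s.rem t with n := t }) := by
  have hk : ¬ t = s.k := fun e => h (.inl e)
  refine ⟨(fun a => ?_) hv.hk.1, fun a => ?_, fun a => ?_, fun a => ?_⟩
  all_goals
    refine put_board a ht (by
      simp only [St.man, St.rem, hK, hk, put_r3 ht, true_and, put_r4, if_false, if_true])
      (fun e => ?_) fun q hq e e' => by
        simp only [St.man, St.rem, put_r1 hq e', put_r2 e', e, e', if_false]
  · have := put_ne hv a ((man_iff hv a).2.2.2.2.2.2.1.2 rfl)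
    simp only [reduceCtorEq, and_false, false_and, iff_false, and_self, true_and] at this
    simp only [St.man, St.rem, put_r1 a e, put_r2 e, e, this, if_false]
  · have := put_ne hv a ((man_iff hv a).2.2.2.2.2.2.2.1.2 rfl)
    simp only [reduceCtorEq, and_false, false_and, iff_false, and_self, true_and] at this
    simp only [St.man, St.rem, put_r1 a e, put_r2 e, e, this, if_false]
  · have := put_ne hv a ((man_iff hv a).2.2.2.2.2.2.2.2.1.2 rfl)
    simp only [reduceCtorEq, and_false, false_and, iff_false, and_self, true_and] at this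
    simp only [St.man, St.rem, put_r1 a e, put_r2 e, e, this, if_false]
  · have := put_ne hv a ((man_iff hv a).2.2.2.2.2.2.2.2.2.1.2 rfl)
    simp only [reduceCtorEq, and_false, false_and, iff_false, and_self, true_and] at this
    simp only [St.man, St.rem, put_r1 a e, put_r2 e, e, this, if_false]

theorem put_r5 {q f x y z : ℕ} (hf : f < 4) (h1 : ¬ q = 4 * (y - 1) + f)
    (h2 : ¬ q = 4 * (x - 1) + f) (h : q % 4 = f → z = y) :
    (if q % 4 = f then x else z) = q / 4 + 1 ↔ z = q / 4 + 1 := by
  split_ifs <;> omega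

theorem put_wpawn {s : St} (hv : Valid s) {f x : ℕ} (hf : f < 4) (h1 : 1 ≤ s.w f) (hx : 1 ≤ x) (hx8 : x ≤ 8)
    (hE : s.E (4 * (x - 1) + f)) :
    put s.board (lit (4 * (s.w f - 1) + f)) (lit (4 * (x - 1) + f)) .white .pawn = (s.setW f x).board := by
  have := (hv.pw f hf).1
  have a : 4 * (s.w f - 1) + f < 32 := by omega
  have m1 : (4 * (x - 1) + f) % 4 = f := by omega
  have m2 : (4 * (s.w f - 1) + f) % 4 = f := by omega
  have d1 : (4 * (x - 1) + f) / 4 + 1 = x := by omega
  have d2 : (4 * (s.w f - 1) + f) / 4 + 1 = s.w f := by omega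
  simp only [St.E, St.Wh, St.Bl, not_or] at hE
  refine put_board a (by omega) (by simp only [St.man, St.setW, hE, m1, d1, if_false, if_true])
    (fun e => ?_) fun q hq e e' => by
      simp only [St.man, St.setW, put_r5 hf e e' fun l => congrArg s.w l]
      congr
  have := put_ne hv a ((man_iff hv a).2.2.2.2.1.2 (by rw [St.isW, m2, d2]))
  have o : ¬ x = s.w f := fun l => e (by rw [l])
  simp only [reduceCtorEq, and_false, false_and, iff_false, and_self, true_and, m2, d2] at this
  simp only [St.man, St.setW, this, m2, d2, o, if_false, if_true]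

theorem put_bpawn {s : St} (hv : Valid s) {f x : ℕ} (hf : f < 4) (h1 : 1 ≤ s.p f) (hx : 1 ≤ x) (hx8 : x ≤ 8)
    (hE : s.E (4 * (x - 1) + f)) :
    put s.board (lit (4 * (s.p f - 1) + f)) (lit (4 * (x - 1) + f)) .black .pawn = (s.setP f x).board := by
  have := (hv.pw f hf).2.1
  have a : 4 * (s.p f - 1) + f < 32 := by omega
  have m1 : (4 * (x - 1) + f) % 4 = f := by omega
  have m2 : (4 * (s.p f - 1) + f) % 4 = f := by omega
  have d1 : (4 * (x - 1) + f) / 4 + 1 = x := by omega
  have d2 : (4 * (s.p f - 1) + f) / 4 + 1 = s.p f := by omega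
  simp only [St.E, St.Wh, St.Bl, St.isW, not_or, m1, d1] at hE
  refine put_board a (by omega) (by simp only [St.man, St.setP, hE, m1, d1, if_false, if_true])
    (fun e => ?_) fun q hq e e' => by
      simp only [St.man, St.setP, put_r5 hf e e' fun l => congrArg s.p l]
  have := put_ne hv a ((man_iff hv a).2.2.2.2.2.2.2.2.2.2.1.2 (by rw [St.isP, m2, d2]))
  have o : ¬ x = s.p f := fun l => e (by rw [l])
  simp only [reduceCtorEq, and_false, iff_false, and_self, and_true, m2, d2] at this
  simp only [St.man, St.setP, this, m2, d2, o, if_false, if_true]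

theorem board_st0 : st0.board = initBoard := by
  funext ⟨a, b⟩
  fin_cases a <;> fin_cases b <;> rfl

end Pool.Agent.Lib.MP_15f43f_co
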