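import Pool.Agent.Lib.MP_15f43f_co.Geo

namespace Pool.Agent.Lib.MP_15f43f_co

theorem valid_st0 : Valid st0 := by
  refine ⟨by decide, by decide, by decide, by decide, by decide, ?_, ?_, ?_, ?_, ?_, ?_, ?_, ?_,
    by decide⟩
  all_goals simp only [st0, Df, St.isW, St.isP]
  all_goals omega

theorem val_df {x y x' y' : ℕ} (h : Df x y) (a : x' = x ∨ x' = 32) (b : y' = y ∨ y' = 32) :
    Df x' y' := by
  unfold Df at *
  omega

/-- Men may leave the board. -/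
theorem val_shrink {s s' : St} (hv : Valid s) (hK : s'.K = s.K) (hk : s'.k = s.k)
    (hR : s'.R = s.R ∨ s'.R = 32) (hB : s'.B = s.B ∨ s'.B = 32) (hN : s'.N = s.N ∨ s'.N = 32)
    (hr : s'.r = s.r ∨ s'.r = 32) (hb : s'.b = s.b ∨ s'.b = 32) (hn : s'.n = s.n ∨ s'.n = 32)
    (hw : ∀ f, s'.w f = s.w f ∨ s'.w f = 0) (hp : ∀ f, s'.p f = s.p f ∨ s'.p f = 0)
    (he : s'.p 2 = s.p 2) : Valid s' := by
  have K : s'.K = s.K ∨ s'.K = 32 := .inl hK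
  have k : s'.k = s.k ∨ s'.k = 32 := .inl hk
  obtain ⟨a1, a2, a3, a4, a5, ⟨b1, b2, b3, b4, b5, b6, b7⟩, ⟨d1, d2, d3, d4, d5, d6⟩,
    ⟨e1, e2, e3, e4, e5⟩, ⟨f1, f2, f3, f4⟩, ⟨g1, g2, g3⟩, ⟨i1, i2, i3⟩, c1, c2, c3⟩ := hv
  have le {x x' : ℕ} (h : x' = x ∨ x' = 32) (l : x ≤ 32) : x' ≤ 32 := by omega
  have np {x x' : ℕ} (h : x' = x ∨ x' = 32) (l : ¬s.isW x ∧ ¬s.isP x) :
      ¬s'.isW x' ∧ ¬s'.isP x' := by
    have h1 := hw (x' % 4)
    have h2 := hp (x' % 4)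
    have h3 := c2 (x' % 4) (Nat.mod_lt _ (by decide))
    unfold St.isW St.isP at l ⊢
    clear * - h h1 h2 h3 l
    obtain rfl | rfl := h <;> omega
  refine ⟨hK ▸ a1, hk ▸ a2, ⟨le hR a3.1, le hB a3.2.1, le hN a3.2.2.1, le hr a3.2.2.2.1,
    le hb a3.2.2.2.2.1, le hn a3.2.2.2.2.2⟩, hb.elim (· ▸ a4) .inl, hn.elim (· ▸ a5) .inl,
    ⟨val_df b1 K hR, val_df b2 K hB, val_df b3 K hN, val_df b4 K k, val_df b5 K hr, val_df b6 K hb,
      val_df b7 K hn⟩,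
    ⟨val_df d1 hR hB, val_df d2 hR hN, val_df d3 hR k, val_df d4 hR hr, val_df d5 hR hb,
      val_df d6 hR hn⟩,
    ⟨val_df e1 hB hN, val_df e2 hB k, val_df e3 hB hr, val_df e4 hB hb, val_df e5 hB hn⟩,
    ⟨val_df f1 hN k, val_df f2 hN hr, val_df f3 hN hb, val_df f4 hN hn⟩,
    ⟨val_df g1 k hr, val_df g2 k hb, val_df g3 k hn⟩,
    ⟨val_df i1 hr hb, val_df i2 hr hn, val_df i3 hb hn⟩, ?_, fun f hf => ?_, ?_⟩
  · rintro _ (rfl | rfl | rfl | rfl | rfl | rfl | rfl | rfl)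
    exacts [np K (c1 _ (by simp)), np hR (c1 _ (by simp)), np hB (c1 _ (by simp)),
      np hN (c1 _ (by simp)), np k (c1 _ (by simp)), np hr (c1 _ (by simp)),
      np hb (c1 _ (by simp)), np hn (c1 _ (by simp))]
  · have h1 := hw f
    have h2 := hp f
    have h3 := c2 f hf
    clear * - h1 h2 h3
    omega
  · rwa [hK, hk, he]

theorem val_rem {s : St} (hv : Valid s) {t : ℕ} (ht : t < 32) (hK : t ≠ s.K) (hk : t ≠ s.k)
    (he : ¬(s.isP t ∧ t % 4 = 2)) : Valid (s.rem t) ∧ (s.rem t).E t := by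
  constructor
  · refine val_shrink hv rfl rfl ?_ ?_ ?_ ?_ ?_ ?_ (fun f => ?_) (fun f => ?_) ?_
    all_goals simp only [St.rem]
    all_goals split_ifs with c
    all_goals try simp
    exact (he ⟨by unfold St.isP; rw [← c.1]; exact c.2, c.1.symm⟩).elim
  · simp only [St.E, St.Wh, St.Bl, St.isW, St.isP, St.rem, not_or, true_and]
    refine ⟨⟨hK, ?_, ?_, ?_, ?_⟩, hk, ?_, ?_, ?_, ?_⟩ <;> split_ifs <;>
      first | omega | simp

/-- Pieces may move to empty squares. -/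
theorem val_put {s s' : St} (hv : Valid s) {t : ℕ} (ht : t < 32) (hE : s.E t) (hw : s'.w = s.w)
    (hp : s'.p = s.p)
    (h : (s'.K = t ∧ s'.R = s.R ∧ s'.B = s.B ∧ s'.N = s.N ∧ s'.k = s.k ∧ s'.r = s.r ∧ s'.b = s.b ∧
        s'.n = s.n ∧ t % 4 = 2 ∧ t / 4 ≤ s.K / 4 + 1) ∨
      (s'.K = s.K ∧ s'.R = t ∧ s'.B = s.B ∧ s'.N = s.N ∧ s'.k = s.k ∧ s'.r = s.r ∧ s'.b = s.b ∧
        s'.n = s.n) ∨
      (s'.K = s.K ∧ s'.R = s.R ∧ s'.B = t ∧ s'.N = s.N ∧ s'.k = s.k ∧ s'.r = s.r ∧ s'.b = s.b ∧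
        s'.n = s.n) ∨
      (s'.K = s.K ∧ s'.R = s.R ∧ s'.B = s.B ∧ s'.N = t ∧ s'.k = s.k ∧ s'.r = s.r ∧ s'.b = s.b ∧
        s'.n = s.n) ∨
      (s'.K = s.K ∧ s'.R = s.R ∧ s'.B = s.B ∧ s'.N = s.N ∧ s'.k = t ∧ s'.r = s.r ∧ s'.b = s.b ∧
        s'.n = s.n ∧ t % 4 = 2 ∧ s.k / 4 ≤ t / 4 + 1) ∨
      (s'.K = s.K ∧ s'.R = s.R ∧ s'.B = s.B ∧ s'.N = s.N ∧ s'.k = s.k ∧ s'.r = t ∧ s'.b = s.b ∧
        s'.n = s.n) ∨
      (s'.K = s.K ∧ s'.R = s.R ∧ s'.B = s.B ∧ s'.N = s.N ∧ s'.k = s.k ∧ s'.r = s.r ∧ s'.b = t ∧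
        s'.n = s.n ∧ (t % 16 = 4 ∨ t % 16 = 6 ∨ t % 16 = 13 ∨ t % 16 = 15)) ∨
      (s'.K = s.K ∧ s'.R = s.R ∧ s'.B = s.B ∧ s'.N = s.N ∧ s'.k = s.k ∧ s'.r = s.r ∧ s'.b = s.b ∧
        s'.n = t ∧ (t / 4 + t % 4) % 2 = 0)) : Valid s' := by
  obtain ⟨⟨a1, a1'⟩, ⟨a2, a2'⟩, ⟨j1, j2, j3, j4, j5, j6⟩, a4, a5, ⟨b1, b2, b3, b4, b5, b6, b7⟩,
    ⟨d1, d2, d3, d4, d5, d6⟩, ⟨e1, e2, e3, e4, e5⟩, ⟨f1, f2, f3, f4⟩, ⟨g1, g2, g3⟩, ⟨i1, i2, i3⟩,
    c1, c2, c3, c4⟩ := hv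
  simp only [St.E, St.Wh, St.Bl, not_or] at hE
  obtain ⟨⟨n1, n2, n3, n4, n5⟩, n6, n7, n8, n9, n0⟩ := hE
  have hq (q : ℕ) (h : q = t ∨ q = s.K ∨ q = s.R ∨ q = s.B ∨ q = s.N ∨ q = s.k ∨ q = s.r ∨ q = s.b ∨
      q = s.n) : ¬s'.isW q ∧ ¬s'.isP q := by
    unfold St.isW St.isP
    rw [hw, hp]
    obtain rfl | h := h
    exacts [⟨n5, n0⟩, c1 q h]
  have h0 : t % 4 = 2 → s.p 2 ≠ t / 4 + 1 := fun c d => n0 (by unfold St.isP; rwa [c])
  have l {x : ℕ} (h : ¬t = x) : Df t x ∧ Df x t := ⟨fun c => (h c).elim, fun c => (h c.symm).elim⟩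
  obtain ⟨_, _⟩ := l n1
  obtain ⟨_, _⟩ := l n2
  obtain ⟨_, _⟩ := l n3
  obtain ⟨_, _⟩ := l n4
  obtain ⟨_, _⟩ := l n6
  obtain ⟨_, _⟩ := l n7
  obtain ⟨_, _⟩ := l n8
  obtain ⟨_, _⟩ := l n9
  have := ht.le
  clear c1 n1 n2 n3 n4 n5 n6 n7 n8 n9 n0 l
  rcases h with ⟨h1, h2, h3, h4, h5, h6, h7, h8, h9, h10⟩ | ⟨h1, h2, h3, h4, h5, h6, h7, h8⟩ |
    ⟨h1, h2, h3, h4, h5, h6, h7, h8⟩ | ⟨h1, h2, h3, h4, h5, h6, h7, h8⟩ |
    ⟨h1, h2, h3, h4, h5, h6, h7, h8, h9, h10⟩ | ⟨h1, h2, h3, h4, h5, h6, h7, h8⟩ |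
    ⟨h1, h2, h3, h4, h5, h6, h7, h8, h9⟩ | ⟨h1, h2, h3, h4, h5, h6, h7, h8, h9⟩
  all_goals
    refine ⟨?_, ?_, ?_, ?_, ?_, ?_, ?_, ?_, ?_, ?_, ?_, fun q c => hq q (by
      rw [h1, h2, h3, h4, h5, h6, h7, h8] at c
      clear * - c
      tauto), hw ▸ hp ▸ c2, ?_⟩
  all_goals simp only [h1, h2, h3, h4, h5, h6, h7, h8, hp]
  all_goals repeat' apply And.intro
  all_goals first | assumption | exact .inr h9 | omega

theorem val_sl {E : ℕ → Prop} {d s t : ℕ} (h : Sl E d s t) (h4 : 4 ≤ d) (h8 : d < 8) (hs : s < 32)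
    (c : s % 16 = 4 ∨ s % 16 = 6 ∨ s % 16 = 13 ∨ s % 16 = 15) :
    t % 16 = 4 ∨ t % 16 = 6 ∨ t % 16 = 13 ∨ t % 16 = 15 := by
  have k (s : ℕ) (hs : s < 32) (l : nxt d s < 32)
      (c : s % 16 = 4 ∨ s % 16 = 6 ∨ s % 16 = 13 ∨ s % 16 = 15) :
      nxt d s % 16 = 4 ∨ nxt d s % 16 = 6 ∨ nxt d s % 16 = 13 ∨ nxt d s % 16 = 15 := by
    have := (nxt_spec d (by omega) s hs _ l).1 rfl
    generalize nxt d s = t at *
    interval_cases d <;> simp only [df, dr] at this <;> omega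
  induction h with
  | one l => exact k _ hs l c
  | more l _ _ ih => exact ih l (k _ hs l c)

theorem val_king {d s t : ℕ} (hd : d < 2) (hs : s < 32) (ht : t < 32) (h : nxt d s = t) :
    t % 4 = s % 4 ∧ t / 4 ≤ s / 4 + 1 ∧ s / 4 ≤ t / 4 + 1 := by
  have := (nxt_spec d (by omega) s hs t ht).1 h
  interval_cases d <;> simp only [df, dr] at this <;> omega

theorem val_knight {d s t : ℕ} (hd : 8 ≤ d) (hd' : d < 12) (hs : s < 32) (ht : t < 32)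
    (h : nxt d s = t) (c : (s / 4 + s % 4) % 2 = 0) : (t / 4 + t % 4) % 2 = 0 := by
  have := (nxt_spec d hd' s hs t ht).1 h
  interval_cases d <;> simp only [df, dr] at this <;> omega

/-- Black pawns may move to empty squares. -/
theorem val_setP {s : St} (hv : Valid s) {f x : ℕ} (hf : f < 4) (hx : 1 ≤ x) (hp : x < s.p f)
    (hE : ∀ y, x ≤ y → y < s.p f → s.E (4 * (y - 1) + f)) : Valid (s.setP f x) := by
  have hE' (y : ℕ) (a : x ≤ y) (b : y < s.p f) : s.w f ≠ y ∧ ∀ q, q = s.K ∨ q = s.R ∨ q = s.B ∨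
      q = s.N ∨ q = s.k ∨ q = s.r ∨ q = s.b ∨ q = s.n → q ≠ 4 * (y - 1) + f := by
    have := hE y a b
    simp only [St.E, St.Wh, St.Bl, St.isW, St.isP, not_or] at this
    rw [show (4 * (y - 1) + f) % 4 = f by omega] at this
    exact ⟨by omega, fun q c => by omega⟩
  refine ⟨hv.hK, hv.hk, hv.le, hv.colb, hv.coln, hv.dK, hv.dR, hv.dB, hv.dN, hv.dk, hv.dr,
    fun q c => ⟨(hv.nop q c).1, ?_⟩, fun g hg => ?_, ?_⟩
  · have h1 := (hv.nop q c).2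
    have h2 := (hE' x le_rfl hp).2 q c
    simp only [St.isP, St.setP] at h1 ⊢
    split_ifs <;> omega
  · have h1 := hv.pw g hg
    simp only [St.setP]
    split_ifs with c
    · subst c
      refine ⟨h1.1, by omega, fun a _ => ?_⟩
      by_contra d
      exact (hE' _ (by omega) (by omega)).1 rfl
    · exact h1
  · have h1 := hv.e
    have h2 := hv.hK
    simp only [St.setP]
    split_ifs with c
    · subst c
      refine ⟨?_, by omega⟩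
      by_contra d
      exact (hE' (s.K / 4 + 1) (by omega) (by omega)).2 _ (.inl rfl) (by omega)
    · exact h1

/-- White pawns may move to empty squares. -/
theorem val_setW {s : St} (hv : Valid s) {f x : ℕ} (hf : f < 4) (h1 : 1 ≤ s.w f) (hp : s.w f < x)
    (hx : x ≤ 7) (hE : ∀ y, s.w f < y → y ≤ x → s.E (4 * (y - 1) + f)) : Valid (s.setW f x) := by
  have hE' (y : ℕ) (a : s.w f < y) (b : y ≤ x) : s.p f ≠ y ∧ ∀ q, q = s.K ∨ q = s.R ∨ q = s.B ∨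
      q = s.N ∨ q = s.k ∨ q = s.r ∨ q = s.b ∨ q = s.n → q ≠ 4 * (y - 1) + f := by
    have := hE y a b
    simp only [St.E, St.Wh, St.Bl, St.isW, St.isP, not_or] at this
    rw [show (4 * (y - 1) + f) % 4 = f by omega] at this
    exact ⟨by omega, fun q c => by omega⟩
  refine ⟨hv.hK, hv.hk, hv.le, hv.colb, hv.coln, hv.dK, hv.dR, hv.dB, hv.dN, hv.dk, hv.dr,
    fun q c => ⟨?_, (hv.nop q c).2⟩, fun g hg => ?_, hv.e⟩
  · have h1 := (hv.nop q c).1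
    have h2 := (hE' x hp le_rfl).2 q c
    simp only [St.isW, St.setW] at h1 ⊢
    split_ifs <;> omega
  · have h2 := hv.pw g hg
    simp only [St.setW]
    split_ifs with c
    · subst c
      refine ⟨hx, h2.2.1, fun _ a => ?_⟩
      by_contra d
      exact (hE' _ (by omega) (by omega)).1 rfl
    · exact h2

theorem BMove.valid {s s' : St} (hv : Valid s) (h : BMove s s') : Valid s' := by
  have rm {t : ℕ} (ht : t < 32) (a : ¬s.Bl t) (b : t ≠ s.K) : Valid (s.rem t) ∧ (s.rem t).E t :=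
    val_rem hv ht b (fun c => a (.inl c)) fun c => a (.inr (.inr (.inr (.inr c.1))))
  cases h with
  | rook d t _ _ l a b =>
    exact val_put (rm l.lt a b).1 l.lt (rm l.lt a b).2 rfl rfl (by simp)
  | bishop d t h4 h8 c l a b =>
    have := val_sl l h4 h8 c (hv.colb.resolve_left c.ne)
    exact val_put (rm l.lt a b).1 l.lt (rm l.lt a b).2 rfl rfl (by simp [this])
  | knight d t h8 h12 c l ht a b =>
    have := val_knight h8 h12 c ht l (hv.coln.resolve_left c.ne)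
    exact val_put (rm ht a b).1 ht (rm ht a b).2 rfl rfl (by simp [this])
  | king d t hd l ht a b =>
    have := val_king hd hv.hk.1 ht l
    exact val_put (rm ht a b).1 ht (rm ht a b).2 rfl rfl
      (.inr (.inr (.inr (.inr (.inl ⟨rfl, rfl, rfl, rfl, rfl, rfl, rfl, rfl,
        this.1.trans hv.hk.2, this.2.2⟩)))))
  | pawn f hf h3 e =>
    refine val_setP hv hf (by omega) (by omega) fun y a b => ?_
    rwa [show y - 1 = s.p f - 2 by omega]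
  | pawn2 f hf h7 e e' =>
    refine val_setP hv hf (by omega) (by omega) fun y a b => ?_
    obtain rfl | rfl : y = 5 ∨ y = 6 := by omega
    exacts [e', e]

theorem WMove.valid {s s' : St} (hv : Valid s) (h : WMove s s') : Valid s' := by
  have rm {t : ℕ} (ht : t < 32) (a : s.Ok t) : Valid (s.rem t) ∧ (s.rem t).E t :=
    val_rem hv ht (fun c => a.1 (.inl c)) a.2.1 a.2.2
  cases h with
  | rook d t _ _ l a => exact val_put (rm l.lt a).1 l.lt (rm l.lt a).2 rfl rfl (by simp)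
  | bishop d t _ _ _ l a => exact val_put (rm l.lt a).1 l.lt (rm l.lt a).2 rfl rfl (by simp)
  | knight d t _ _ _ _ ht a => exact val_put (rm ht a).1 ht (rm ht a).2 rfl rfl (by simp)
  | king d t hd l ht a =>
    have := val_king hd hv.hK.1 ht l
    exact val_put (rm ht a).1 ht (rm ht a).2 rfl rfl
      (.inl ⟨rfl, rfl, rfl, rfl, rfl, rfl, rfl, rfl, this.1.trans hv.hK.2, this.2.1⟩)
  | pawn f hf h1 h6 e =>
    refine val_setW hv hf h1 (by omega) (by omega) fun y a b => ?_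
    rwa [show y - 1 = s.w f by omega]
  | pawn2 f hf h2 e e' =>
    refine val_setW hv hf (by omega) (by omega) (by omega) fun y a b => ?_
    obtain rfl | rfl : y = 3 ∨ y = 4 := by omega
    exacts [e, e']

theorem valid_promo {s : St} (hv : Valid s) {f : ℕ} (hf : f < 4) (h2 : s.p f = 2) (hE : s.E f) :
    Valid (s.setP f 1) := by
  refine val_setP hv hf le_rfl (by omega) fun y a b => ?_
  obtain rfl : y = 1 := by omega
  simpa using hE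

end Pool.Agent.Lib.MP_15f43f_co
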