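import Pool.Agent.Lib.MP_15f43f_co.Geo
import Pool.Agent.Lib.MP_15f43f_co.Put
import Pool.Agent.Lib.MP_15f43f_co.Val

/-! Moves of the compact model and legal moves of the game. -/

namespace Pool.Agent.Lib.MP_15f43f_co

theorem link_lit {s : St} {u : Sq} {m : Color × Kind} (h : s.board u = some m) :
    ∃ q, q < 32 ∧ u = lit q :=
  (good_lit u).1 (by_contra fun g => by rw [board_odd s u g] at h; cases h)

theorem link_to {s : St} {d a t : ℕ} (h : Sl (fun q => s.board (lit q) = none) d a t) :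
    Sl s.E d a t := h.mono fun q hq e => (man_none s q).1 ((board_lit s hq).symm.trans e)

theorem link_of {s : St} {d a t : ℕ} (h : Sl s.E d a t) :
    Sl (fun q => s.board (lit q) = none) d a t :=
  h.mono fun q hq e => (board_lit s hq).trans ((man_none s q).2 e)

theorem link_good {q : ℕ} (hq : q < 32) : GoodFile (lit q) := (good_lit _).2 ⟨q, hq, rfl⟩

theorem attW_of_check {s : St} (hv : Valid s) (h : InCheck s.board .white) : AttW s := by
  obtain ⟨k, a, t, ⟨h1, h2, h3, -⟩, h5⟩ := h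
  obtain ⟨x, hx, rfl⟩ := link_lit h1
  obtain ⟨y, hy, rfl⟩ := link_lit h5
  rw [board_lit s hx] at h1
  rw [board_lit s hy] at h5
  obtain rfl := (man_iff hv hy).1.1 h5
  obtain ⟨-, -, -, -, -, -, m1, m2, m3, m4, -, m6⟩ := man_iff hv hx
  cases k
  · obtain rfl := m1.1 h1
    obtain ⟨d, hd, e⟩ := (geo_king hx hy).1 h3
    have e2 := ((nxt_spec d (by omega) _ hx _ hy).1 e).2
    have := hv.e
    have : dr d = 1 ∨ dr d = -1 := by interval_cases d <;> simp [dr]
    omega
  · exact (m6 h1).elim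
  · obtain rfl := m2.1 h1
    obtain ⟨d, hd, e⟩ := (geo_rook (board_odd s) hx hy).1 h3
    exact .inl ⟨hx, d, hd, link_to e⟩
  · obtain rfl := m3.1 h1
    obtain ⟨d, hd, hd', e⟩ := (geo_bishop (board_odd s) hx hy).1 h3
    exact .inr (.inl ⟨hx, d, hd, hd', link_to e⟩)
  · obtain rfl := m4.1 h1
    exact .inr (.inr ⟨hx, (geo_knight hx hy).1 h3⟩)
  · exact h3.elim

theorem check_of_attB {s : St} (hv : Valid s) (h : AttB s) : InCheck s.board .black := by
  have hy := hv.hk.1
  have m : s.board (lit s.k) = some (.black, .king) :=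
    (board_lit s hy).trans ((man_iff hv hy).2.2.2.2.2.2.1.2 rfl)
  have n : ∀ k', s.board (lit s.k) ≠ some (.white, k') := fun k' e => by rw [m] at e; cases e
  rcases h with ⟨hx, d, hd, e⟩ | ⟨hx, d, hd, hd', e⟩ | ⟨hx, e⟩
  · exact ⟨.rook, lit s.R, lit s.k, ⟨(board_lit s hx).trans ((man_iff hv hx).2.1.2 rfl),
      link_good hy, (geo_rook (board_odd s) hx hy).2 ⟨d, hd, link_of e⟩, n⟩, m⟩
  · exact ⟨.bishop, lit s.B, lit s.k, ⟨(board_lit s hx).trans ((man_iff hv hx).2.2.1.2 rfl),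
      link_good hy, (geo_bishop (board_odd s) hx hy).2 ⟨d, hd, hd', link_of e⟩, n⟩, m⟩
  · exact ⟨.knight, lit s.N, lit s.k, ⟨(board_lit s hx).trans ((man_iff hv hx).2.2.2.1.2 rfl),
      link_good hy, (geo_knight hx hy).2 e, n⟩, m⟩

theorem link_off {x y : ℕ} (hx : x < 32) (hy : y < 32) (b : ℤ) :
    Off (lit x) (lit y) 0 b ↔ y % 4 = x % 4 ∧ ((y / 4 : ℕ) : ℤ) = (x / 4 : ℕ) + b := by
  simp only [Off, lit]
  omega

theorem link_rank {x : ℕ} (hx : x < 32) (r : Fin 8) : (lit x).2 = r ↔ x / 4 = r := by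
  simp only [lit, Fin.ext_iff]
  omega

theorem link_mid {x y : ℕ} {b : ℤ} (h : Off (lit x) (lit y) 0 b)
    {u : Sq} (hu : Off (lit x) u 0 b) : u = lit y := by
  obtain ⟨a1, a2⟩ := h
  obtain ⟨b1, b2⟩ := hu
  exact Prod.ext (Fin.ext (by omega)) (Fin.ext (by omega))

theorem legal_of_wmove {s s' : St} (hv : Valid s) (h : WMove s s') (ha : ¬ AttW s') :
    Legal ⟨s.board, .white⟩ ⟨s'.board, .black⟩ := by
  refine ⟨rfl, ?_, fun c => ha (attW_of_check (h.valid hv) c)⟩
  have n : ∀ {t}, t < 32 → s.Ok t → ∀ k', s.board (lit t) ≠ some (.white, k') :=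
    fun ht o k' e => o.1 ((man_white _).1 ⟨k', (board_lit s ht).symm.trans e⟩)
  have em : ∀ {t}, t < 32 → s.E t → s.board (lit t) = none := fun ht e =>
    (board_lit s ht).trans ((man_none s _).2 e)
  cases h with
  | rook d t hd hx e o =>
    exact .inl ⟨.rook, lit s.R, lit t, ⟨(board_lit s hx).trans ((man_iff hv hx).2.1.2 rfl),
      link_good e.lt, (geo_rook (board_odd s) hx e.lt).2 ⟨d, hd, link_of e⟩, n e.lt o⟩,
      ((put_white hv e.lt o.1 o.2.1).2.1 hx).symm⟩
  | bishop d t hd hd' hx e o =>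
    exact .inl ⟨.bishop, lit s.B, lit t, ⟨(board_lit s hx).trans ((man_iff hv hx).2.2.1.2 rfl),
      link_good e.lt, (geo_bishop (board_odd s) hx e.lt).2 ⟨d, hd, hd', link_of e⟩, n e.lt o⟩,
      ((put_white hv e.lt o.1 o.2.1).2.2.1 hx).symm⟩
  | knight d t hd hd' hx e ht o =>
    exact .inl ⟨.knight, lit s.N, lit t, ⟨(board_lit s hx).trans ((man_iff hv hx).2.2.2.1.2 rfl),
      link_good ht, (geo_knight hx ht).2 ⟨d, hd, hd', e⟩, n ht o⟩,
      ((put_white hv ht o.1 o.2.1).2.2.2 hx).symm⟩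
  | king d t hd e ht o =>
    have hx := hv.hK.1
    exact .inl ⟨.king, lit s.K, lit t, ⟨(board_lit s hx).trans ((man_iff hv hx).1.2 rfl),
      link_good ht, (geo_king hx ht).2 ⟨d, hd, e⟩, n ht o⟩, (put_white hv ht o.1 o.2.1).1.symm⟩
  | pawn f hf h1 h6 e =>
    have hx : 4 * (s.w f - 1) + f < 32 := by omega
    have hy : 4 * s.w f + f < 32 := by omega
    have m : (4 * (s.w f - 1) + f) % 4 = f := by omega
    refine .inr (.inl ⟨lit (4 * (s.w f - 1) + f), lit (4 * s.w f + f), ⟨(board_lit s hx).trans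
      ((man_iff hv hx).2.2.2.2.1.2 (by rw [St.isW, m]; omega)), link_good hy, em hy e,
      .inl ((link_off hx hy 1).2 (by omega))⟩, fun l => ?_,
      (put_wpawn hv hf h1 (x := s.w f + 1) (by omega) (by omega) e).symm⟩)
    have : (4 * s.w f + f) / 4 = 7 := (link_rank hy 7).1 l
    omega
  | pawn2 f hf h2 e e' =>
    have hx : 4 * (s.w f - 1) + f < 32 := by omega
    have hy : 12 + f < 32 := by omega
    have hz : 8 + f < 32 := by omega
    have m : (4 * (s.w f - 1) + f) % 4 = f := by omega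
    refine .inr (.inl ⟨lit (4 * (s.w f - 1) + f), lit (12 + f), ⟨(board_lit s hx).trans
      ((man_iff hv hx).2.2.2.2.1.2 (by rw [St.isW, m]; omega)), link_good hy, em hy e',
      .inr ⟨(link_rank hx 1).2 (show _ = 1 by omega), (link_off hx hy (2 * 1)).2 (by omega),
        fun u hu => ?_⟩⟩, fun l => ?_,
      (put_wpawn hv hf (by omega) (x := 4) (by omega) (by omega) e').symm⟩)
    · rw [link_mid ((link_off hx hz 1).2 (by omega)) hu]
      exact em hz e
    · have : (12 + f) / 4 = 7 := (link_rank hy 7).1 l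
      omega

theorem link_geo {β β' : Board} (h : ∀ u, β u = none → β' u = none) {a t : Sq} {k : Kind}
    (g : Geo β a t k) : Geo β' a t k := by
  have sl : ∀ {x y}, Slide β a t x y → Slide β' a t x y := fun ⟨n, h1, h2, h3⟩ =>
    ⟨n, h1, h2, fun m c d u e => h u (h3 m c d u e)⟩
  have st : Straight β a t → Straight β' a t := Or.imp sl (Or.imp sl (Or.imp sl sl))
  have dg : Diagonal β a t → Diagonal β' a t := Or.imp sl (Or.imp sl (Or.imp sl sl))
  cases k
  exacts [g, Or.imp st dg g, st g, dg g, g, g]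

theorem link_swap {β : Board} {a t : Sq} {k : Kind}
    (h : InCheck (put β a t .black .pawn) .black) : InCheck (put β a t .black k) .black := by
  obtain ⟨k', u, v, ⟨h1, h2, h3, -⟩, h5⟩ := h
  have key : ∀ w m, put β a t .black .pawn w = m → m ≠ some (.black, .pawn) →
      put β a t .black k w = m := fun w m e n => by
    have : w ≠ t := fun l => n (by rw [← e, l]; exact Function.update_self ..)
    rw [put, Function.update_of_ne this] at e ⊢
    exact e
  have h6 := key v _ h5 (by simp)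
  exact ⟨k', u, v, ⟨key u _ h1 (by simp [Color.opp]), h2,
    link_geo (fun w e => key w _ e (by simp)) h3, fun k'' e => by rw [h6] at e; cases e⟩, h6⟩

theorem bmove_of_legal {s : St} (hv : Valid s) (ha : ¬ AttW s) {q : Pos} (h : Legal ⟨s.board, .black⟩ q) :
    (∃ s', BMove s s' ∧ q = ⟨s'.board, .white⟩ ∧ ¬ AttB s') ∨
    (∃ f, f < 4 ∧ s.p f = 2 ∧ s.E f ∧ ¬ AttB (s.setP f 1)) := by
  obtain ⟨β, c⟩ := q
  obtain ⟨h0, h1, h2⟩ := h
  obtain rfl : c = .white := h0
  have fin : ∀ s', BMove s s' → β = s'.board →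
      ∃ s', BMove s s' ∧ (⟨β, .white⟩ : Pos) = ⟨s'.board, .white⟩ ∧ ¬ AttB s' := fun s' m e =>
    ⟨s', m, by rw [e], fun b => h2 (show InCheck β .black from e ▸ check_of_attB (m.valid hv) b)⟩
  have pm : ∀ {a t}, PawnMove s.board .black a t → ∃ f y, f < 4 ∧ y < 32 ∧ 1 ≤ s.p f ∧
      a = lit (4 * (s.p f - 1) + f) ∧ t = lit y ∧ s.E y ∧
      (2 ≤ s.p f ∧ y = 4 * (s.p f - 2) + f ∨ s.p f = 7 ∧ y = 16 + f ∧ s.E (20 + f)) := by
    rintro a t ⟨p1, p2, p3, p4⟩
    obtain ⟨x, hx, rfl⟩ := link_lit p1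
    obtain ⟨y, hy, rfl⟩ := (good_lit t).1 p2
    have e : s.p (x % 4) = x / 4 + 1 :=
      (man_iff hv hx).2.2.2.2.2.2.2.2.2.2.1.1 ((board_lit s hx).symm.trans p1)
    refine ⟨x % 4, y, by omega, hy, by omega, congrArg lit (by omega), rfl,
      (man_none s y).1 ((board_lit s hy).symm.trans p3), ?_⟩
    rcases p4 with o | ⟨r, o, m⟩
    · have := (link_off hx hy (-1)).1 o
      omega
    · have r' : x / 4 = 6 := (link_rank hx 6).1 r
      have := (link_off hx hy (2 * -1)).1 o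
      have hz : 20 + x % 4 < 32 := by omega
      exact .inr ⟨by omega, by omega, (man_none s _).1 ((board_lit s hz).symm.trans
        (m _ ((link_off hx hz (-1)).2 (by omega))))⟩
  rcases h1 with ⟨k, a, t, p, e⟩ | ⟨a, t, p, l, e⟩ | ⟨a, t, k, p, l, -, e⟩
  · obtain ⟨x, hx, rfl⟩ := link_lit p.1
    obtain ⟨y, hy, rfl⟩ := (good_lit t).1 p.2.1
    have hK : y ≠ s.K := fun l => ha (attW_of_check hv
      ⟨k, _, _, p, (board_lit s hy).trans ((man_iff hv hy).1.2 l)⟩)
    obtain ⟨p1, -, p3, p4⟩ := p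
    have nb : ¬ s.Bl y := fun b =>
      ((man_black hv hy).2 b).elim fun k' l => p4 k' ((board_lit s hy).trans l)
    obtain ⟨u1, u2, u3, u4⟩ := put_black hv hy nb hK
    obtain ⟨-, -, -, -, -, -, m1, m2, m3, m4, -, m6⟩ := man_iff hv hx
    have p0 : s.man x = some (.black, k) := (board_lit s hx).symm.trans p1
    left
    cases k
    · obtain rfl := m1.1 p0
      obtain ⟨d, hd, g⟩ := (geo_king hx hy).1 p3
      exact fin _ (.king d y hd g hy nb hK) (e.trans u1)
    · exact (m6 p0).elim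
    · obtain rfl := m2.1 p0
      obtain ⟨d, hd, g⟩ := (geo_rook (board_odd s) hx hy).1 p3
      exact fin _ (.rook d y hd hx (link_to g) nb hK) (e.trans (u2 hx))
    · obtain rfl := m3.1 p0
      obtain ⟨d, hd, hd', g⟩ := (geo_bishop (board_odd s) hx hy).1 p3
      exact fin _ (.bishop d y hd hd' hx (link_to g) nb hK) (e.trans (u3 hx))
    · obtain rfl := m4.1 p0
      obtain ⟨d, hd, hd', g⟩ := (geo_knight hx hy).1 p3
      exact fin _ (.knight d y hd hd' hx g hy nb hK) (e.trans (u4 hx))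
    · exact p3.elim
  · obtain ⟨f, y, hf, hy, c1, rfl, rfl, c2, ⟨c3, rfl⟩ | ⟨c3, rfl, c4⟩⟩ := pm p
    · have : ¬ (4 * (s.p f - 2) + f) / 4 = 0 := fun l' => l ((link_rank hy 0).2 l')
      have := (hv.pw f hf).2.1
      exact .inl (fin _ (.pawn f hf (by omega) c2)
        (e.trans (put_bpawn hv hf c1 (x := s.p f - 1) (by omega) (by omega) c2)))
    · exact .inl (fin _ (.pawn2 f hf c3 c4 c2)
        (e.trans (put_bpawn hv hf c1 (x := 5) (by omega) (by omega) c2)))
  · obtain ⟨f, y, hf, hy, c1, rfl, rfl, c2, c3⟩ := pm p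
    have r : y / 4 = 0 := (link_rank hy 0).1 l
    have c4 : s.p f = 2 := by omega
    obtain rfl : y = 4 * (1 - 1) + f := by omega
    have c5 : s.E f := by simpa using c2
    refine .inr ⟨f, hf, c4, c5, fun b => h2 ?_⟩
    have := check_of_attB (valid_promo hv hf c4 c5) b
    rw [← put_bpawn hv hf c1 (x := 1) le_rfl (by omega) c2] at this
    rw [e]
    exact link_swap this

end Pool.Agent.Lib.MP_15f43f_co
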