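import Pool.Agent.Lib.MP_15f43f_co.Bas

namespace Pool.Agent.Lib.MP_15f43f_co

variable {m m' k k' b n r q z : ℕ}

theorem bI_32 : bI 32 = 8 := by decide +kernel

theorem bI_lt (h : okB b) (hb : b < 32) : bI b < 8 := by
  have : ∀ b, b < 32 → (b % 16 = 4 ∨ b % 16 = 6 ∨ b % 16 = 13 ∨ b % 16 = 15) → bI b < 8 := by
    decide +kernel
  exact this b hb (h.resolve_left (by omega)).2

theorem bI_inj {a : ℕ} (ha : okB a) (hb : okB b) (h : bI a = bI b) : a = b := by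
  have : ∀ a ∈ [4, 6, 13, 15, 20, 22, 29, 31, 32], ∀ b ∈ [4, 6, 13, 15, 20, 22, 29, 31, 32],
      bI a = bI b → a = b := by
    decide +kernel
  unfold okB at ha hb
  simp only [List.mem_cons, List.not_mem_nil, or_false] at this
  exact this a (by omega) b (by omega) h

theorem mask_bI (h : okB b) : bI b ≤ 8 ∧ (b < 32 ↔ bI b < 8) := by
  rcases h with rfl | h
  · rw [bI_32]; omega
  · have := bI_lt (.inr h) h.1
    omega

theorem mask_cel (h : Cel m k b n r) : ∃ κ, κ < 3 ∧ (m ≠ 0 → κ = 0) ∧ (m = 0 → κ = 7 - k / 4) ∧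
    bI b ≤ 8 ∧ n / 2 ≤ 16 ∧ r < 32 ∧ cel m k b n r = 4896 * κ + 544 * bI b + 32 * (n / 2) + r := by
  have h1 := h.hk
  have h2 := h.hn
  unfold okN at h2
  refine ⟨if m = 0 then 7 - k / 4 else 0, by split_ifs <;> omega, fun c => if_neg c,
    fun c => if_pos c, (mask_bI h.hb).1, by omega, h.hr, ?_⟩
  rw [cel]
  omega

theorem mask_cel1 (hm : m ≠ 0) : cel m k b n r = 544 * bI b + 32 * (n / 2) + r := by
  rw [cel, if_neg hm]
  omega

theorem cel_lt (h : Cel m k b n r) : cel m k b n r < 14688 := by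
  obtain ⟨κ, a⟩ := mask_cel h
  omega

theorem cel_lt1 (h : Cel m k b n r) (hm : m ≠ 0) : cel m k b n r < 4896 := by
  obtain ⟨κ, a⟩ := mask_cel h
  omega

theorem cel_m (hm : m ≠ 0) (hm' : m' ≠ 0) : cel m k b n r = cel m' k' b n r := by rw [mask_cel1 hm, mask_cel1 hm']

theorem mask_ones (n i : ℕ) : Bt (Nat.pred (Nat.pow 2 n)) i ↔ i < n := by
  rw [Bt, pow_eq, Nat.pred_eq_sub_one, Nat.testBit_two_pow_sub_one, decide_eq_true_iff]

/-- `1 + 2 ^ w + ⋯ + 2 ^ (w * (n - 1))` -/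
def maskRp (w : ℕ) : ℕ → ℕ
  | 0 => 0
  | n + 1 => 2 ^ w * maskRp w n + 1

theorem mask_rp {w : ℕ} (hw : 0 < w) (hz : z < 2 ^ w) (n : ℕ) :
    ∀ i, Bt (Nat.mul z (maskRp w n)) i ↔ i / w < n ∧ Bt z (i % w) := by
  induction n with
  | zero => exact fun i => ⟨fun h => (bt_zero i h).elim, fun h => (Nat.not_lt_zero _ h.1).elim⟩
  | succ n ih =>
    intro i
    rw [maskRp, mul_eq, Nat.mul_add, Nat.mul_one, Nat.mul_left_comm, Bt,
      Nat.testBit_two_pow_mul_add _ hz]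
    split_ifs with c
    · rw [Nat.div_eq_of_lt c, Nat.mod_eq_of_lt c]
      exact (and_iff_right (Nat.succ_pos n)).symm
    · obtain ⟨i, rfl⟩ := Nat.exists_eq_add_of_le (Nat.not_lt.1 c)
      rw [Nat.add_sub_cancel_left, Nat.add_div_left _ hw, Nat.add_mod_left, Nat.add_lt_add_iff_right]
      exact ih i

theorem mask_all1 (i : ℕ) : Bt all1 i ↔ i < 4896 := by
  delta all1
  exact mask_ones 4896 i

theorem mask_f544 (i : ℕ) : Bt f544 i ↔ i < 544 := by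
  delta f544
  exact mask_ones 544 i

theorem mask_col0_lt : col0 < 2 ^ 4896 := by decide +kernel
theorem mask_o32 : o32 = maskRp 32 459 := by decide +kernel
theorem mask_o544 : o544 = maskRp 544 27 := by decide +kernel
theorem mask_o4896 : o4896 = maskRp 4896 3 := by decide +kernel
theorem mask_one : 1 = maskRp 4896 1 := by decide +kernel

theorem mask_rep32 (hz : z < 4294967296) (i : ℕ) : Bt (rep32 z) i ↔ i / 32 < 459 ∧ Bt z (i % 32) := by
  rw [rep32, mask_o32]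
  exact mask_rp (by decide) hz _ i

theorem mask_bo32 (i : ℕ) : Bt o32 i ↔ i / 32 < 459 ∧ i % 32 = 0 := by
  have := mask_rep32 (z := 1) (by decide) i
  rwa [rep32, mul_eq, Nat.one_mul, Bt, Bt, Nat.testBit_one_eq_true_iff_self_eq_zero] at this

theorem mask_n0 (i : ℕ) : Bt n0 i ↔ i / 544 < 27 ∧ i % 544 < 32 := by
  delta n0
  rw [mask_o544, mask_rp (by decide) (by decide +kernel), ← mask_ones 32]
  rfl

theorem mask_b0 (i : ℕ) : Bt b0 i ↔ i / 4896 < 3 ∧ i % 4896 < 544 := by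
  delta b0
  rw [mask_o4896, mask_rp (by decide) (by decide +kernel), mask_f544]

theorem mask_col0 (i : ℕ) : Bt col0 i ↔ i < 4896 ∧ i % 32 = 0 := by
  delta col0
  rw [bt_land, mask_bo32, mask_all1]
  omega

theorem mask_tb {c : ℕ} {P : ℕ → Prop} (hc : c < 2 ^ 32) (h : ∀ q, q < 32 → (tb c q = true ↔ P q))
    (q : ℕ) : tb c q = true ↔ q < 32 ∧ P q := by
  by_cases a : q < 32
  · rw [h q a, and_iff_right a]
  · rw [tb_iff, Bt, Nat.testBit_lt_two_pow (hc.trans_le (Nat.pow_le_pow_right (by decide) (by omega)))]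
    exact ⟨fun e => (nomatch e), fun e => (a e.1).elim⟩

theorem mask_sel (c : Bool) (t i : ℕ) : Bt (selN c t 0) i ↔ c = true ∧ Bt t i := by
  rw [bt_sel, or_iff_left fun e => bt_zero i e.2]

theorem mask_sel' (c : Bool) (t i : ℕ) : Bt (selN c 0 t) i ↔ ¬ c = true ∧ Bt t i := by
  rw [bt_sel, or_iff_right fun e => bt_zero i e.2, Bool.not_eq_true]

theorem mask_onNi (h : Cel m k b n r) (hq : q < 16) : Bt (onNi q) (cel m k b n r) ↔ q = n / 2 := by
  obtain ⟨κ, a⟩ := mask_cel h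
  rw [onNi, bt_shl, mask_n0, mul_eq]
  omega

theorem mask_onBi (h : Cel m k b n r) (hq : q < 8) : Bt (onBi q) (cel m k b n r) ↔ q = bI b := by
  obtain ⟨κ, a⟩ := mask_cel h
  rw [onBi, bt_shl, mask_b0, mul_eq]
  omega

theorem all3_bt {i : ℕ} (h : i < 14688) : Bt all3 i := by
  delta all3
  exact (mask_ones 14688 i).2 h

theorem allM_cel (h : Cel m k b n r) : Bt (allM m) (cel m k b n r) := by
  rw [allM, selN_eq]
  split_ifs with c
  · exact all3_bt (cel_lt h)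
  · exact (mask_all1 _).2 (cel_lt1 h (by rwa [beq_iff] at c))

theorem onR_cel (h : Cel m k b n r) : Bt (onR q) (cel m k b n r) ↔ q = r := by
  obtain ⟨κ, a⟩ := mask_cel h
  rw [onR, mask_sel', bt_shl, mask_bo32, ble_iff]
  omega

theorem onB_cel (h : Cel m k b n r) : Bt (onB q) (cel m k b n r) ↔ q < 32 ∧ q = b := by
  rw [onB, mask_sel, mask_tb (P := fun q => q % 16 = 4 ∨ q % 16 = 6 ∨ q % 16 = 13 ∨ q % 16 = 15)
    (by decide) (by decide +kernel)]
  constructor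
  · rintro ⟨a, c⟩
    exact ⟨a.1, bI_inj (.inr a) h.hb ((mask_onBi h (bI_lt (.inr a) a.1)).1 c)⟩
  · rintro ⟨a, rfl⟩
    exact ⟨h.hb.resolve_left (by omega), (mask_onBi h (bI_lt h.hb a)).2 rfl⟩

theorem onN_cel (h : Cel m k b n r) : Bt (onN q) (cel m k b n r) ↔ q < 32 ∧ q = n := by
  rw [onN, mask_sel, mask_tb (P := fun q => (q / 4 + q % 4) % 2 = 0) (by decide) (by decide +kernel),
    div_eq]
  have h2 := h.hn
  unfold okN at h2
  by_cases a : q < 32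
  · rw [mask_onNi h (by omega)]
    refine ⟨fun ⟨e, f⟩ => ⟨a, ?_⟩, fun ⟨_, e⟩ => by subst e; exact ⟨h2.resolve_left (by omega), rfl⟩⟩
    have : ∀ q, q < 32 → ∀ n, n < 32 → (q / 4 + q % 4) % 2 = 0 → (n / 4 + n % 4) % 2 = 0 →
      q / 2 = n / 2 → q = n := by decide +kernel
    have k := h2.resolve_left (by omega)
    exact this q a n k.1 e.2 k.2 f
  · exact ⟨fun e => (a e.1.1).elim, fun e => (a e.1).elim⟩

theorem onK_cel (h : Cel 0 k b n r) : Bt (onK q) (cel 0 k b n r) ↔ q = k := by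
  obtain ⟨κ, a⟩ := mask_cel h
  have h1 := h.hk rfl
  rw [onK, mask_sel, mask_tb (P := fun q => q = 22 ∨ q = 26 ∨ q = 30) (by decide) (by decide +kernel),
    bt_shl, mask_all1, mul_eq, sub_eq, div_eq]
  omega

theorem on_cel (h : Cel m k b n r) : Bt (on m q) (cel m k b n r) ↔
    q < 32 ∧ (q = b ∨ q = n ∨ (m ≠ 3 ∧ q = r) ∨ (m = 0 ∧ q = k)) := by
  have h1 := h.hk
  have h2 := h.hr
  rw [on, bt_land, bt_lor, bt_lor, mask_sel', bt_lor, mask_sel, onB_cel h, onN_cel h, onR_cel h,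
    beq_iff, beq_iff, and_iff_right (allM_cel h)]
  by_cases c : m = 0
  · subst c
    rw [onK_cel h]
    omega
  · simp only [c, false_and, or_false]
    omega

theorem nq_cel (h : Cel m k b n r) : Bt (nq m q) (cel m k b n r) ↔ ¬ Bt (on m q) (cel m k b n r) := by rw [nq, bt_dif, and_iff_right (allM_cel h)]

theorem dB_cel (h : Cel m k b n r) : Bt dB (cel m k b n r) ↔ b = r := by
  simp only [dB, bt_orN, bt_land, onB_cel h, onR_cel h]
  exact ⟨fun ⟨q, _, a, c⟩ => a.2 ▸ c, fun e => ⟨r, h.hr, ⟨h.hr, e.symm⟩, rfl⟩⟩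

theorem dN_cel (h : Cel m k b n r) : Bt dN (cel m k b n r) ↔ n = r := by
  simp only [dN, bt_orN, bt_land, onN_cel h, onR_cel h]
  exact ⟨fun ⟨q, _, a, c⟩ => a.2 ▸ c, fun e => ⟨r, h.hr, ⟨h.hr, e.symm⟩, rfl⟩⟩

theorem dR_cel (h : Cel m k b n r) : Bt dR (cel m k b n r) ↔ b = r ∨ n = r := by
  delta dR
  rw [bt_lor, dB_cel h, dN_cel h]

theorem coll_cel (h : Cel m k b n r) (hc : Bt (coll m) (cel m k b n r)) :
    (b < 32 ∧ b = n) ∨ (m ≠ 3 ∧ (b = r ∨ n = r)) ∨ (m = 0 ∧ (k = r ∨ k = b ∨ k = n)) := by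
  rw [coll, bt_lor, mask_sel', bt_lor, mask_sel, dR_cel h, beq_iff, beq_iff] at hc
  rcases hc with a | ⟨a, c | ⟨rfl, c⟩⟩
  · simp only [dBN, bt_orN, bt_land, onB_cel h, onN_cel h] at a
    omega
  · exact .inr (.inl ⟨a, c⟩)
  · simp only [dK, bt_orN, bt_land, bt_or3, onB_cel h, onN_cel h, onR_cel h, onK_cel h] at c
    omega

theorem rep32_cel (h : Cel m k b n r) (hz : z < 4294967296) : Bt (rep32 z) (cel m k b n r) ↔ Bt z r := by
  obtain ⟨κ, a⟩ := mask_cel h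
  rw [mask_rep32 hz, and_iff_right (by omega), show cel m k b n r % 32 = r by omega]

theorem mB_cel (h : Cel m k b n r) : Bt (mB z) (cel m k b n r) ↔ b < 32 ∧ Bt z (bI b) := by
  simp only [mB, bt_orN, mask_sel, tb_iff, (mask_bI h.hb).2]
  exact ⟨fun ⟨q, a, c, d⟩ => (mask_onBi h a).1 d ▸ ⟨a, c⟩,
    fun e => ⟨_, e.1, e.2, (mask_onBi h e.1).2 rfl⟩⟩

theorem mN_cel (h : Cel m k b n r) : Bt (mN z) (cel m k b n r) ↔ n < 32 ∧ Bt z (n / 2) := by
  simp only [mN, bt_orN, mask_sel, tb_iff, show n < 32 ↔ n / 2 < 16 by omega]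
  exact ⟨fun ⟨q, a, c, d⟩ => (mask_onNi h a).1 d ▸ ⟨a, c⟩,
    fun e => ⟨_, e.1, e.2, (mask_onNi h e.1).2 rfl⟩⟩

theorem mask_fs {x y a : ℕ} (h : ∀ i r, r < a → Bt x (i + r) → Bt y i) :
    ∀ i r, r < a + a → Bt x (i + r) → Bt (fs y a) i := fun i r c e => by
  rw [fs, bt_lor, bt_shr]
  by_cases d : r < a
  · exact .inl (h i r d e)
  · exact .inr (h _ (r - a) (by omega) (by rwa [show a + i + (r - a) = i + r by omega]))

theorem fold32_cel {x : ℕ} (h : Cel m k b n r) (hm : m ≠ 0) (hm' : m' ≠ 0) (hx : Bt x (cel m k b n r)) :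
    Bt (fold32 x) (cel m' k' b n 0) := by
  obtain ⟨κ, a⟩ := mask_cel h
  rw [mask_cel1 hm] at hx
  rw [fold32, bt_land, mask_col0, mask_cel1 hm']
  refine ⟨mask_fs (mask_fs (mask_fs (mask_fs (mask_fs (x := x) (a := 1) fun i r c e => ?_)))) _ r h.hr hx,
    by omega⟩
  rwa [show r = 0 by omega] at e

theorem fold3_cel {x : ℕ} (h : Cel 0 k b n r) (hx : Bt x (cel 0 k b n r)) :
    Bt (fold3 x) (cel 1 k' b n r) := by
  obtain ⟨κ, a1, -, -, a2, a3, a4, a⟩ := mask_cel h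
  rw [fold3, bt_land, bt_or3, bt_shr, bt_shr, mask_all1, mask_cel1 one_ne_zero]
  refine ⟨?_, by omega⟩
  obtain rfl | rfl | rfl : κ = 0 ∨ κ = 1 ∨ κ = 2 := by omega
  · exact .inl (by convert hx using 1; omega)
  · exact .inr (.inl (by convert hx using 1; omega))
  · exact .inr (.inr (by convert hx using 1; omega))

theorem capR_cel {y : ℕ} (h : Cel m k b n r) (hq : q < 32)
    (hy : Bt (Nat.mul (Nat.land y col0) (Nat.shiftLeft (selN (Nat.beq m 0) o4896 1) q)) (cel m k b n r)) :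
    r = q ∧ Bt y (cel 2 k b n 0) := by
  obtain ⟨κ, a⟩ := mask_cel h
  obtain ⟨c, e⟩ : ∃ c, selN (Nat.beq m 0) o4896 1 = maskRp 4896 c := by
    rw [selN_eq]
    split_ifs
    exacts [⟨3, mask_o4896⟩, ⟨1, mask_one⟩]
  have l : Nat.land y col0 < 2 ^ 4896 := Nat.and_lt_two_pow y mask_col0_lt
  rw [e, mul_eq, shl_eq, Nat.shiftLeft_eq, ← Nat.mul_assoc, ← Nat.shiftLeft_eq, ← shl_eq, bt_shl,
    ← mul_eq, mask_rp (by decide) l, bt_land, mask_col0] at hy
  refine ⟨by omega, ?_⟩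
  rw [mask_cel1 two_ne_zero]
  convert hy.2.2.1 using 1
  omega

theorem shB_cel (h : Cel m k b n r) (hb : b < 32) : 544 * (8 - bI b) + cel m k b n r = cel m k 32 n r := by
  have := bI_lt h.hb hb
  rw [cel, cel, bI_32]
  omega

theorem shN_cel (h : Cel m k b n r) (hn : n < 32) : 32 * (16 - n / 2) + cel m k b n r = cel m k b 32 r := by
  rw [cel, cel]
  omega

theorem mask_ds {x y a c s : ℕ} (hs : s = a * c)
    (h : ∀ i, Bt y i → ∃ t, t < c ∧ ∃ l, i = a * t + l ∧ Bt x l) :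
    ∀ i, Bt (ds y s) i → ∃ t, t < c + c ∧ ∃ l, i = a * t + l ∧ Bt x l := fun i e => by
  rw [ds, bt_lor, bt_shl] at e
  rcases e with e | ⟨e1, e⟩ <;> obtain ⟨t, h1, l, h2, h3⟩ := h _ e
  · exact ⟨t, by omega, l, h2, h3⟩
  · exact ⟨t + c, by omega, l, by rw [Nat.mul_add]; omega, h3⟩

theorem mask_ds0 (x a : ℕ) : ∀ i, Bt x i → ∃ t, t < 1 ∧ ∃ l, i = a * t + l ∧ Bt x l :=
  fun i e => ⟨0, by omega, i, by omega, e⟩

theorem zB_cel {t : ℕ} (h : Cel 2 k b n r) (ht : Bt (zB t) (cel 2 k b n r)) :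
    b = r ∧ Bt t (cel 2 k 32 n r) := by
  obtain ⟨κ, a⟩ := mask_cel h
  rw [zB, bt_land, dB_cel h] at ht
  obtain ⟨c, h1, l, h2, h3⟩ := mask_ds (by decide) (mask_ds (by decide) (mask_ds (by decide)
    (mask_ds0 _ 544))) _ ht.1
  rw [bt_land, bt_shr, mask_f544] at h3
  refine ⟨ht.2, ?_⟩
  rw [mask_cel1 two_ne_zero, bI_32]
  convert h3.1 using 1
  omega

theorem zN_cel {t : ℕ} (h : Cel 2 k b n r) (ht : Bt (zN t) (cel 2 k b n r)) :
    n = r ∧ Bt t (cel 2 k b 32 r) := by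
  obtain ⟨κ, a⟩ := mask_cel h
  rw [zN, bt_land, dN_cel h] at ht
  obtain ⟨c, h1, l, h2, h3⟩ := mask_ds (by decide) (mask_ds (by decide) (mask_ds (by decide)
    (mask_ds (by decide) (mask_ds0 _ 32)))) _ ht.1
  rw [bt_land, bt_shr, mask_n0] at h3
  refine ⟨ht.2, ?_⟩
  rw [mask_cel1 two_ne_zero]
  convert h3.1 using 1
  have := ht.2
  omega

end Pool.Agent.Lib.MP_15f43f_co
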