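import Pool.Agent.Lib.MP_15f43f_co.Game

/-! Reflection of the board in its middle line with exchange of the colours, and the invariant
criterion for either colour (stalemate allowed). -/

namespace Pool.Agent.Lib.MP_15f43f_co

def mirS (s : Sq) : Sq := (s.1, s.2.rev)

def mirB (β : Board) : Board := fun s => (β (mirS s)).map fun m => (m.1.opp, m.2)

def mirP (p : Pos) : Pos := ⟨mirB p.board, p.turn.opp⟩

theorem opp_opp (c : Color) : c.opp.opp = c := by cases c <;> rfl

theorem mirS_mirS (s : Sq) : mirS (mirS s) = s := Prod.ext rfl (Fin.rev_rev _)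

theorem mirS_inj {s t : Sq} (h : mirS s = mirS t) : s = t := by
  rw [← mirS_mirS s, h, mirS_mirS]

theorem mirB_mirB (β : Board) : mirB (mirB β) = β := by
  funext s
  simp only [mirB, mirS_mirS]
  cases β s with
  | none => rfl
  | some m => simp [opp_opp]

theorem mirP_mirP (p : Pos) : mirP (mirP p) = p := by
  cases p
  simp [mirP, mirB_mirB, opp_opp]

theorem mirB_none {β : Board} {s : Sq} : mirB β (mirS s) = none ↔ β s = none := by
  simp [mirB, mirS_mirS]

theorem mirB_some {β : Board} {s : Sq} {c : Color} {k : Kind} :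
    mirB β (mirS s) = some (c.opp, k) ↔ β s = some (c, k) := by
  simp only [mirB, mirS_mirS]
  cases β s with
  | none => simp
  | some m =>
    obtain ⟨d, l⟩ := m
    cases c <;> cases d <;> simp [Color.opp]

theorem off_mir {s t : Sq} {a b : ℤ} : Off (mirS s) (mirS t) a (-b) ↔ Off s t a b := by
  have h1 := s.2.2
  have h2 := t.2.2
  simp only [Off, mirS, Fin.val_rev]
  omega

theorem slide_mir {β : Board} {s t : Sq} {a b : ℤ} (h : Slide β s t a b) :
    Slide (mirB β) (mirS s) (mirS t) a (-b) := by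
  obtain ⟨n, h1, h2, h3⟩ := h
  refine ⟨n, h1, by rw [mul_neg]; exact off_mir.2 h2, fun m c d u e => ?_⟩
  rw [← mirS_mirS u, mul_neg] at e
  rw [← mirS_mirS u]
  exact mirB_none.2 (h3 m c d _ (off_mir.1 e))

theorem geo_mir {β : Board} {s t : Sq} {k : Kind} (h : Geo β s t k) :
    Geo (mirB β) (mirS s) (mirS t) k := by
  have st : Straight β s t → Straight (mirB β) (mirS s) (mirS t) := by
    rintro (e | e | e | e)
    · exact .inl (by simpa using slide_mir e)
    · exact .inr (.inl (by simpa using slide_mir e))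
    · exact .inr (.inr (.inr (slide_mir e)))
    · exact .inr (.inr (.inl (by simpa using slide_mir e)))
  have dg : Diagonal β s t → Diagonal (mirB β) (mirS s) (mirS t) := by
    rintro (e | e | e | e)
    · exact .inr (.inl (slide_mir e))
    · exact .inl (by simpa using slide_mir e)
    · exact .inr (.inr (.inr (slide_mir e)))
    · exact .inr (.inr (.inl (by simpa using slide_mir e)))
  cases k
  · obtain ⟨a, b, h1, h2⟩ := h
    exact ⟨a, -b, off_mir.2 h1, by rwa [abs_neg]⟩
  · exact Or.imp st dg h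
  · exact st h
  · exact dg h
  · obtain ⟨a, b, h1, h2⟩ := h
    exact ⟨a, -b, off_mir.2 h1, by rwa [abs_neg]⟩
  · exact h

theorem piece_mir {β : Board} {c : Color} {k : Kind} {s t : Sq} (h : PieceMove β c k s t) :
    PieceMove (mirB β) c.opp k (mirS s) (mirS t) :=
  ⟨mirB_some.2 h.1, h.2.1, geo_mir h.2.2.1, fun k' e => h.2.2.2 k' (mirB_some.1 e)⟩

theorem fwd_opp (c : Color) : fwd c.opp = -fwd c := by cases c <;> simp [fwd, Color.opp]

theorem start_opp (c : Color) : startRank c.opp = (startRank c).rev := by cases c <;> rfl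

theorem last_opp (c : Color) : lastRank c.opp = (lastRank c).rev := by cases c <;> rfl

theorem pawn_mir {β : Board} {c : Color} {s t : Sq} (h : PawnMove β c s t) :
    PawnMove (mirB β) c.opp (mirS s) (mirS t) := by
  obtain ⟨h1, h2, h3, h4⟩ := h
  refine ⟨mirB_some.2 h1, h2, mirB_none.2 h3, ?_⟩
  rw [fwd_opp]
  rcases h4 with e | ⟨e1, e2, e3⟩
  · exact .inl (off_mir.2 e)
  · refine .inr ⟨by rw [start_opp, ← e1]; rfl, by rw [mul_neg]; exact off_mir.2 e2, fun u e => ?_⟩
    rw [← mirS_mirS u] at e ⊢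
    exact mirB_none.2 (e3 _ (off_mir.1 e))

theorem put_mir (β : Board) (s t : Sq) (c : Color) (k : Kind) :
    mirB (put β s t c k) = put (mirB β) (mirS s) (mirS t) c.opp k := by
  funext u
  rw [← mirS_mirS u]
  generalize mirS u = v
  simp only [mirB, put, mirS_mirS]
  by_cases a : v = t
  · subst a
    simp
  · rw [Function.update_of_ne a, Function.update_of_ne fun e => a (mirS_inj e)]
    by_cases b : v = s
    · subst b
      simp
    · rw [Function.update_of_ne b, Function.update_of_ne fun e => b (mirS_inj e)]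
      simp [mirB, mirS_mirS]

theorem pseudo_mir {β β' : Board} {c : Color} (h : Pseudo β c β') :
    Pseudo (mirB β) c.opp (mirB β') := by
  rcases h with ⟨k, s, t, p, rfl⟩ | ⟨s, t, p, l, rfl⟩ | ⟨s, t, k, p, l, m, rfl⟩
  · exact .inl ⟨k, _, _, piece_mir p, put_mir ..⟩
  · refine .inr (.inl ⟨_, _, pawn_mir p, fun e => l ?_, put_mir ..⟩)
    rw [last_opp] at e
    exact Fin.rev_injective e
  · exact .inr (.inr ⟨_, _, k, pawn_mir p, by rw [last_opp, ← l]; rfl, m, put_mir ..⟩)

theorem check_mir {β : Board} {c : Color} (h : InCheck β c) : InCheck (mirB β) c.opp := by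
  obtain ⟨k, s, t, p, e⟩ := h
  exact ⟨k, _, _, piece_mir p, mirB_some.2 e⟩

theorem check_mir_iff {β : Board} {c : Color} : InCheck (mirB β) c.opp ↔ InCheck β c :=
  ⟨fun h => by simpa only [mirB_mirB, opp_opp] using check_mir h, check_mir⟩

theorem legal_mir {p q : Pos} (h : Legal p q) : Legal (mirP p) (mirP q) :=
  ⟨congrArg Color.opp h.1, pseudo_mir h.2.1, fun e => h.2.2 (check_mir_iff.1 e)⟩

theorem mirB_init : mirB initBoard = initBoard := by
  funext s
  obtain ⟨f, r⟩ := s
  fin_cases f <;> fin_cases r <;> rfl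

/-- an invariant that the opponent of `c` can keep excludes a forced win of `c` -/
theorem not_force_gen (c : Color) (I : Pos → Prop) (h0 : I init)
    (hd : ∀ p, I p → p.turn = c.opp →
      (∃ q, Legal p q ∧ I q) ∨ (¬ InCheck p.board p.turn ∧ ¬ ∃ q, Legal p q))
    (ha : ∀ p q, I p → p.turn = c → Legal p q → I q) : ¬ CanForceWin c := by
  rintro ⟨σ, hσ, h⟩
  have k : ∀ (l : List Pos) (p : Pos), ∃ q, (I p → I q) ∧
      ((∃ q, Legal p q) → Legal p q ∧ (p.turn = c → q = σ (l ++ [p]))) ∧
      ((¬ ∃ q, Legal p q) → q = p) := fun l p => by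
    by_cases L : ∃ q, Legal p q
    · by_cases e : p.turn = c
      · exact ⟨_, fun i => ha p _ i e (hσ l p e L), fun _ => ⟨hσ l p e L, fun _ => rfl⟩,
          fun n => (n L).elim⟩
      · have e' : p.turn = c.opp := by
          revert e
          cases p.turn <;> cases c <;> simp [Color.opp]
        by_cases i : I p
        · obtain ⟨q, a, b⟩ := (hd p i e').resolve_right fun x => x.2 L
          exact ⟨q, fun _ => b, fun _ => ⟨a, fun x => (e x).elim⟩, fun n => (n L).elim⟩
        · obtain ⟨q, a⟩ := id L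
          exact ⟨q, fun j => (i j).elim, fun _ => ⟨a, fun x => (e x).elim⟩, fun n => (n L).elim⟩
    · exact ⟨p, id, fun n => (L n).elim, fun _ => rfl⟩
  choose st k1 k2 k3 using k
  obtain ⟨s, s0, s1⟩ : ∃ s : ℕ → List Pos × Pos, s 0 = ([], init) ∧
      ∀ n, s (n + 1) = ((s n).1 ++ [(s n).2], st (s n).1 (s n).2) :=
    ⟨fun n => n.rec ([], init) fun _ x => (x.1 ++ [x.2], st x.1 x.2), rfl, fun _ => rfl⟩
  have e : ∀ n, (s n).1 = (List.range n).map fun n => (s n).2 := fun n => by
    induction n with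
    | zero => rw [s0]; rfl
    | succ n ih => rw [s1, List.range_succ, List.map_append, ← ih]; rfl
  have i : ∀ n, I (s n).2 := fun n => by
    induction n with
    | zero => rwa [s0]
    | succ n ih => rw [s1]; exact k1 _ _ ih
  obtain ⟨n, a, b, d⟩ := h (fun n => (s n).2) ⟨congrArg Prod.snd s0, fun n => by
    rw [← e]
    dsimp only
    rw [s1]
    exact ⟨k2 _ _, k3 _ _⟩⟩
  rcases hd _ (i n) a with ⟨q, x, -⟩ | ⟨x, -⟩
  · exact d ⟨q, x⟩
  · exact x b

/-- The mirrored game: White defends, Black moves first from the initial placement. -/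
theorem not_force_white_of_inv (I : Pos → Prop) (h0 : I ⟨initBoard, .black⟩)
    (hw : ∀ p, I p → p.turn = .white →
      (∃ q, Legal p q ∧ I q) ∨ (¬ InCheck p.board .white ∧ ¬ ∃ q, Legal p q))
    (hb : ∀ p q, I p → p.turn = .black → Legal p q → I q) : ¬ CanForceWin .white := by
  refine not_force_gen .white (fun p => I (mirP p)) ?_ (fun p i e => ?_) fun p q i e l => ?_
  · show I ⟨mirB initBoard, .black⟩
    rwa [mirB_init]
  · have e' : (mirP p).turn = .white := by
      show p.turn.opp = _
      rw [e]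
      rfl
    rcases hw _ i e' with ⟨q, a, b⟩ | ⟨a, b⟩
    · exact .inl ⟨mirP q, by simpa only [mirP_mirP] using legal_mir a, by rwa [mirP_mirP]⟩
    · refine .inr ⟨fun x => a ?_, fun ⟨q, x⟩ => b ⟨_, legal_mir x⟩⟩
      have := check_mir x
      rwa [e] at this
  · refine hb _ _ i ?_ (legal_mir l)
    show p.turn.opp = _
    rw [e]
    rfl

end Pool.Agent.Lib.MP_15f43f_co
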