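import Pool.Agent.Lib.MP_15f43f_co.Link

/-! An invariant that White can keep excludes a forced win of Black. -/

namespace Pool.Agent.Lib.MP_15f43f_co

theorem not_force_of_inv (I : Pos → Prop) (h0 : I init)
    (hw : ∀ p, I p → p.turn = .white → ∃ q, Legal p q ∧ I q)
    (hb : ∀ p q, I p → p.turn = .black → Legal p q → I q) : ¬ CanForceWin .black := by
  rintro ⟨σ, hσ, h⟩
  have k : ∀ (l : List Pos) (p : Pos), ∃ q, (I p → I q) ∧
      ((∃ q, Legal p q) → Legal p q ∧ (p.turn = .black → q = σ (l ++ [p]))) ∧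
      ((¬ ∃ q, Legal p q) → q = p) := fun l p => by
    by_cases L : ∃ q, Legal p q
    · cases e : p.turn with
      | black =>
        exact ⟨_, fun i => hb p _ i e (hσ l p e L), fun _ => ⟨hσ l p e L, fun _ => rfl⟩,
          fun n => (n L).elim⟩
      | white =>
        by_cases i : I p
        · obtain ⟨q, a, b⟩ := hw p i e
          exact ⟨q, fun _ => b, fun _ => ⟨a, nofun⟩, fun n => (n L).elim⟩
        · obtain ⟨q, a⟩ := id L
          exact ⟨q, fun j => (i j).elim, fun _ => ⟨a, nofun⟩, fun n => (n L).elim⟩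
    · exact ⟨p, id, fun n => (L n).elim, fun _ => rfl⟩
  choose st k1 k2 k3 using k
  obtain ⟨s, s0, s1⟩ : ∃ s : ℕ → List Pos × Pos, s 0 = ([], init) ∧
      ∀ n, s (n + 1) = ((s n).1 ++ [(s n).2], st (s n).1 (s n).2) :=
    ⟨fun n => n.rec ([], init) fun _ x => (x.1 ++ [x.2], st x.1 x.2), rfl, fun _ => rfl⟩
  have e : ∀ n, (s n).1 = (List.range n).map fun n => (s n).2 := fun n => by
    induction n with
    | zero => rw [s0]; rfl
    | succ n ih => rw [s1, List.range_succ, List.map_append, ← ih]; rfl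
  have i : ∀ n, I (s n).2 := fun n => by
    induction n with
    | zero => rwa [s0]
    | succ n ih => rw [s1]; exact k1 _ _ ih
  obtain ⟨n, a, -, b⟩ := h (fun n => (s n).2) ⟨congrArg Prod.snd s0, fun n => by
    rw [← e]
    dsimp only
    rw [s1]
    exact ⟨k2 _ _, k3 _ _⟩⟩
  exact b ((hw _ (i n) a).imp fun _ => And.left)

theorem safe_of_inv (IT : St → Prop) (hV : ∀ s, IT s → Valid s) (hK : ∀ s, IT s → ¬ AttW s)
    (hB : ∀ s s', IT s → BMove s s' → AttB s' ∨ ∃ s'', WMove s' s'' ∧ IT s'')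
    (hP : ∀ s f, IT s → f < 4 → s.p f = 2 → s.E f → AttB (s.setP f 1))
    (h0 : IT root) : ¬ CanForceWin .black := by
  refine not_force_of_inv (fun p => (∃ s, IT s ∧ p = ⟨s.board, .black⟩) ∨
    ∃ s s'', Valid s ∧ WMove s s'' ∧ IT s'' ∧ p = ⟨s.board, .white⟩)
    (.inr ⟨st0, root, valid_st0, .pawn2 0 (by omega) rfl ?_ ?_, h0, by rw [board_st0]; rfl⟩) ?_ ?_
  · simp [St.E, St.Wh, St.Bl, St.isW, St.isP, st0]
  · simp [St.E, St.Wh, St.Bl, St.isW, St.isP, st0]
  · rintro _ (⟨s, -, rfl⟩ | ⟨s, s'', a, b, c, rfl⟩) e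
    · cases e
    · exact ⟨_, legal_of_wmove a b (hK _ c), .inl ⟨s'', c, rfl⟩⟩
  · rintro _ q (⟨s, a, rfl⟩ | ⟨s, s'', -, -, -, rfl⟩) e l
    · rcases bmove_of_legal (hV s a) (hK s a) l with ⟨s', b, rfl, c⟩ | ⟨f, b, c, d, n⟩
      · obtain ⟨s'', m, i⟩ := (hB s s' a b).resolve_left c
        exact .inr ⟨s', s'', b.valid (hV s a), m, i, rfl⟩
      · exact (n (hP s f a b c d)).elim
    · cases e

end Pool.Agent.Lib.MP_15f43f_co
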