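import Pool.Agent.Lib.MP_15f43f_co.Link
import Pool.Agent.Lib.MP_15f43f_co.Mir

/-! The mirrored game in the compact model: Black moves first, a promotion is allowed when White
takes the new man at once. -/

namespace Pool.Agent.Lib.MP_15f43f_co

/-- a white move that removes the black man on `t` does not depend on the kind of that man -/
theorem pseudo_swap {β β' : Board} {a t : Sq} {k : Kind}
    (h : Pseudo (put β a t .black .pawn) .white β') (n : β' t ≠ some (.black, .pawn)) :
    Pseudo (put β a t .black k) .white β' := by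
  have tt : ∀ l, put β a t .black l t = some (.black, l) := fun l => Function.update_self ..
  have ne : ∀ l l' w, w ≠ t → put β a t .black l w = put β a t .black l' w := fun l l' w e => by
    rw [put, put, Function.update_of_ne e, Function.update_of_ne e]
  have stay : ∀ {u v c l}, u ≠ t → v ≠ t →
      put (put β a t .black .pawn) u v c l t = some (.black, .pawn) := fun hu hv => by
    rw [put, Function.update_of_ne hv.symm, Function.update_of_ne hu.symm, tt]
  have pw : ∀ {u v}, PawnMove (put β a t .black .pawn) .white u v → u ≠ t ∧ v ≠ t :=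
    fun p => ⟨fun e => (by have := p.1; rw [e, tt] at this; cases this),
      fun e => (by have := p.2.2.1; rw [e, tt] at this; cases this)⟩
  rcases h with ⟨l, u, v, p, rfl⟩ | ⟨u, v, p, -, rfl⟩ | ⟨u, v, l, p, -, -, rfl⟩
  · have hu : u ≠ t := fun e => by have := p.1; rw [e, tt] at this; cases this
    obtain rfl : v = t := by_contra fun e => n (stay hu e)
    refine .inl ⟨l, u, v, ⟨(ne _ _ u hu).trans p.1, p.2.1, link_geo (fun w e => ?_) p.2.2.1,
      fun k' e => (by rw [tt] at e; cases e)⟩, ?_⟩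
    · have : w ≠ v := fun x => by rw [x, tt] at e; cases e
      exact (ne _ _ w this).trans e
    · funext w
      by_cases x : w = v
      · subst x
        simp [put]
      · rw [put, put, put, put, Function.update_of_ne x, Function.update_of_ne x]
        by_cases y : w = u
        · subst y
          simp
        · rw [Function.update_of_ne y, Function.update_of_ne y, Function.update_of_ne x,
            Function.update_of_ne x]
  · exact (n (stay (pw p).1 (pw p).2)).elim
  · exact (n (stay (pw p).1 (pw p).2)).elim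

/-- the legal black moves, with the position after a promotion -/
theorem bmove_of_legal2 {s : St} (hv : Valid s) (ha : ¬ AttW s) {q : Pos} (h : Legal ⟨s.board, .black⟩ q) :
    (∃ s', BMove s s' ∧ q = ⟨s'.board, .white⟩ ∧ ¬ AttB s') ∨
    (∃ f k, f < 4 ∧ s.p f = 2 ∧ s.E f ∧ ¬ AttB (s.setP f 1) ∧
      q = ⟨put s.board (lit (4 * (s.p f - 1) + f)) (lit (4 * (1 - 1) + f)) .black k, .white⟩) := by
  obtain ⟨β, c⟩ := q
  obtain ⟨h0, h1, h2⟩ := h
  obtain rfl : c = .white := h0
  have fin : ∀ s', BMove s s' → β = s'.board →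
      ∃ s', BMove s s' ∧ (⟨β, .white⟩ : Pos) = ⟨s'.board, .white⟩ ∧ ¬ AttB s' := fun s' m e =>
    ⟨s', m, by rw [e], fun b => h2 (show InCheck β .black from e ▸ check_of_attB (m.valid hv) b)⟩
  have pm : ∀ {a t}, PawnMove s.board .black a t → ∃ f y, f < 4 ∧ y < 32 ∧ 1 ≤ s.p f ∧
      a = lit (4 * (s.p f - 1) + f) ∧ t = lit y ∧ s.E y ∧
      (2 ≤ s.p f ∧ y = 4 * (s.p f - 2) + f ∨ s.p f = 7 ∧ y = 16 + f ∧ s.E (20 + f)) := by
    rintro a t ⟨p1, p2, p3, p4⟩
    obtain ⟨x, hx, rfl⟩ := link_lit p1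
    obtain ⟨y, hy, rfl⟩ := (good_lit t).1 p2
    have e : s.p (x % 4) = x / 4 + 1 :=
      (man_iff hv hx).2.2.2.2.2.2.2.2.2.2.1.1 ((board_lit s hx).symm.trans p1)
    refine ⟨x % 4, y, by omega, hy, by omega, congrArg lit (by omega), rfl,
      (man_none s y).1 ((board_lit s hy).symm.trans p3), ?_⟩
    rcases p4 with o | ⟨r, o, m⟩
    · have := (link_off hx hy (-1)).1 o
      omega
    · have r' : x / 4 = 6 := (link_rank hx 6).1 r
      have := (link_off hx hy (2 * -1)).1 o
      have hz : 20 + x % 4 < 32 := by omega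
      exact .inr ⟨by omega, by omega, (man_none s _).1 ((board_lit s hz).symm.trans
        (m _ ((link_off hx hz (-1)).2 (by omega))))⟩
  rcases h1 with ⟨k, a, t, p, e⟩ | ⟨a, t, p, l, e⟩ | ⟨a, t, k, p, l, -, e⟩
  · obtain ⟨x, hx, rfl⟩ := link_lit p.1
    obtain ⟨y, hy, rfl⟩ := (good_lit t).1 p.2.1
    have hK : y ≠ s.K := fun l => ha (attW_of_check hv
      ⟨k, _, _, p, (board_lit s hy).trans ((man_iff hv hy).1.2 l)⟩)
    obtain ⟨p1, -, p3, p4⟩ := p
    have nb : ¬ s.Bl y := fun b =>
      ((man_black hv hy).2 b).elim fun k' l => p4 k' ((board_lit s hy).trans l)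
    obtain ⟨u1, u2, u3, u4⟩ := put_black hv hy nb hK
    obtain ⟨-, -, -, -, -, -, m1, m2, m3, m4, -, m6⟩ := man_iff hv hx
    have p0 : s.man x = some (.black, k) := (board_lit s hx).symm.trans p1
    left
    cases k
    · obtain rfl := m1.1 p0
      obtain ⟨d, hd, g⟩ := (geo_king hx hy).1 p3
      exact fin _ (.king d y hd g hy nb hK) (e.trans u1)
    · exact (m6 p0).elim
    · obtain rfl := m2.1 p0
      obtain ⟨d, hd, g⟩ := (geo_rook (board_odd s) hx hy).1 p3
      exact fin _ (.rook d y hd hx (link_to g) nb hK) (e.trans (u2 hx))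
    · obtain rfl := m3.1 p0
      obtain ⟨d, hd, hd', g⟩ := (geo_bishop (board_odd s) hx hy).1 p3
      exact fin _ (.bishop d y hd hd' hx (link_to g) nb hK) (e.trans (u3 hx))
    · obtain rfl := m4.1 p0
      obtain ⟨d, hd, hd', g⟩ := (geo_knight hx hy).1 p3
      exact fin _ (.knight d y hd hd' hx g hy nb hK) (e.trans (u4 hx))
    · exact p3.elim
  · obtain ⟨f, y, hf, hy, c1, rfl, rfl, c2, ⟨c3, rfl⟩ | ⟨c3, rfl, c4⟩⟩ := pm p
    · have : ¬ (4 * (s.p f - 2) + f) / 4 = 0 := fun l' => l ((link_rank hy 0).2 l')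
      have := (hv.pw f hf).2.1
      exact .inl (fin _ (.pawn f hf (by omega) c2)
        (e.trans (put_bpawn hv hf c1 (x := s.p f - 1) (by omega) (by omega) c2)))
    · exact .inl (fin _ (.pawn2 f hf c3 c4 c2)
        (e.trans (put_bpawn hv hf c1 (x := 5) (by omega) (by omega) c2)))
  · obtain ⟨f, y, hf, hy, c1, rfl, rfl, c2, c3⟩ := pm p
    have r : y / 4 = 0 := (link_rank hy 0).1 l
    have c4 : s.p f = 2 := by omega
    obtain rfl : y = 4 * (1 - 1) + f := by omega
    have c5 : s.E f := by simpa using c2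
    refine .inr ⟨f, k, hf, c4, c5, fun b => h2 ?_, congrArg (Pos.mk · .white) e⟩
    have := check_of_attB (valid_promo hv hf c4 c5) b
    rw [← put_bpawn hv hf c1 (x := 1) le_rfl (by omega) c2] at this
    rw [e]
    exact link_swap this

/-- White takes the new man on the first rank of file `f` -/
theorem legal_of_take {s s'' : St} (hv : Valid s) {f : ℕ} (hf : f < 4) (h2 : s.p f = 2) (hE : s.E f)
    (h : WMove (s.setP f 1) s'') (h0 : s''.p f = 0) (ha : ¬ AttW s'') (k : Kind) :
    Legal ⟨put s.board (lit (4 * (s.p f - 1) + f)) (lit (4 * (1 - 1) + f)) .black k, .white⟩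
      ⟨s''.board, .black⟩ := by
  have v1 := valid_promo hv hf h2 hE
  obtain ⟨l1, l2, l3⟩ := legal_of_wmove v1 h ha
  refine ⟨l1, pseudo_swap ?_ fun e => ?_, l3⟩
  · rw [put_bpawn hv hf (by omega) (x := 1) le_rfl (by omega) (by simpa using hE)]
    exact l2
  · have hy : 4 * (1 - 1) + f < 32 := by omega
    have := (man_iff (h.valid v1) hy).2.2.2.2.2.2.2.2.2.2.1.1 ((board_lit s'' hy).symm.trans e)
    have m : (4 * (1 - 1) + f) % 4 = f := by omega
    rw [St.isP, m, h0] at this
    omega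

theorem safe2_of_inv (IT : St → Prop) (hV : ∀ s, IT s → Valid s) (hK : ∀ s, IT s → ¬ AttW s)
    (hB : ∀ s s', IT s → BMove s s' → AttB s' ∨ ∃ s'', WMove s' s'' ∧ IT s'')
    (hP : ∀ s f, IT s → f < 4 → s.p f = 2 → s.E f →
      AttB (s.setP f 1) ∨ ∃ s'', WMove (s.setP f 1) s'' ∧ s''.p f = 0 ∧ IT s'')
    (h0 : IT st0) : ¬ CanForceWin .white := by
  refine not_force_white_of_inv (fun p => (∃ s, IT s ∧ p = ⟨s.board, .black⟩) ∨
    p.turn = .white ∧ ∃ s'', IT s'' ∧ Legal p ⟨s''.board, .black⟩)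
    (.inl ⟨st0, h0, by rw [board_st0]⟩) ?_ ?_
  · rintro p (⟨s, -, rfl⟩ | ⟨-, s'', a, b⟩) e
    · cases e
    · exact .inl ⟨_, b, .inl ⟨s'', a, rfl⟩⟩
  · rintro p q (⟨s, a, rfl⟩ | ⟨b, -⟩) e l
    · rcases bmove_of_legal2 (hV s a) (hK s a) l with ⟨s', b, rfl, c⟩ | ⟨f, k, b, c, d, n, rfl⟩
      · obtain ⟨s'', m, i⟩ := (hB s s' a b).resolve_left c
        exact .inr ⟨rfl, s'', i, legal_of_wmove (b.valid (hV s a)) m (hK _ i)⟩
      · obtain ⟨s'', m, z, i⟩ := (hP s f a b c d).resolve_left n
        exact .inr ⟨rfl, s'', i, legal_of_take (hV s a) b c d m z (hK _ i) k⟩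
    · rw [b] at e
      cases e

end Pool.Agent.Lib.MP_15f43f_co
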