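import Pool.Agent.Lib.MP_15f43f_co.Fld

namespace Pool.Agent.Lib.MP_15f43f_co

variable {s s' : St} {a o q f t : ℕ}

theorem upd_ext {x y : St} (h1 : x.w = y.w) (h2 : x.p = y.p) (h3 : x.K = y.K) (h4 : x.R = y.R)
    (h5 : x.B = y.B) (h6 : x.N = y.N) (h7 : x.k = y.k) (h8 : x.r = y.r) (h9 : x.b = y.b)
    (h0 : x.n = y.n) : x = y := by
  cases x
  cases y
  simp only at h1 h2 h3 h4 h5 h6 h7 h8 h9 h0
  subst h1 h2 h3 h4 h5 h6 h7 h8 h9 h0
  rfl

theorem upd_w (h : ¬ s.isW q) : (s.rem q).w = s.w := by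
  funext g
  refine if_neg fun c => h ?_
  unfold St.isW
  rw [← c.1]
  exact c.2

theorem upd_p (h : ¬ s.isP q) : (s.rem q).p = s.p := by
  funext g
  refine if_neg fun c => h ?_
  unfold St.isP
  rw [← c.1]
  exact c.2

theorem upd_w0 (h : s.isW q) : (s.rem q).w = (s.setW (q % 4) 0).w := by
  funext g
  simp only [St.rem, St.setW]
  by_cases c : g = q % 4
  · rw [if_pos c, if_pos ⟨c, by rw [c]; exact h⟩]
  · rw [if_neg c, if_neg fun d => c d.1]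

theorem upd_p0 (h : s.isP q) : (s.rem q).p = (s.setP (q % 4) 0).p := by
  funext g
  simp only [St.rem, St.setP]
  by_cases c : g = q % 4
  · rw [if_pos c, if_pos ⟨c, by rw [c]; exact h⟩]
  · rw [if_neg c, if_neg fun d => c d.1]

theorem upd_wh (h : ¬ s.Wh q) :
    (s.rem q).w = s.w ∧ (s.rem q).R = s.R ∧ (s.rem q).B = s.B ∧ (s.rem q).N = s.N := by
  simp only [St.Wh, not_or] at h
  exact ⟨upd_w h.2.2.2.2, if_neg (Ne.symm h.2.1), if_neg (Ne.symm h.2.2.1),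
    if_neg (Ne.symm h.2.2.2.1)⟩

theorem upd_remE (h : s.E q) : s.rem q = s := by
  obtain ⟨h1, h2, h3, h4⟩ := upd_wh h.1
  have h5 := h.2
  simp only [St.Bl, not_or] at h5
  exact upd_ext h1 (upd_p h5.2.2.2.2) rfl h2 h3 h4 rfl (if_neg (Ne.symm h5.2.1))
    (if_neg (Ne.symm h5.2.2.1)) (if_neg (Ne.symm h5.2.2.2.1))

theorem upd_okE (h : s.E q) : s.Ok q :=
  ⟨h.1, fun c => h.2 (.inl c), fun c => h.2 (.inr (.inr (.inr (.inr c.1))))⟩

theorem upd_df {x y : ℕ} (h : Df x y) (hq : q < 32) (e : q = y) : x ≠ q := by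
  unfold Df at h
  omega

theorem upd_df' {x y : ℕ} (h : Df x y) (hq : q < 32) (e : q = x) : y ≠ q := by
  unfold Df at h
  omega

theorem upd_b (h : Valid s) (hq : q < 32) (e : q = s.b) :
    s.Ok q ∧ s.rem q = { s with b := 32 } := by
  obtain ⟨n1, n2⟩ := h.nop q (by simp [e])
  have hw : ¬ s.Wh q := by
    simp only [St.Wh, not_or]
    exact ⟨(upd_df h.dK.2.2.2.2.2.1 hq e).symm, (upd_df h.dR.2.2.2.2.1 hq e).symm,
      (upd_df h.dB.2.2.2.1 hq e).symm, (upd_df h.dN.2.2.1 hq e).symm, n1⟩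
  obtain ⟨a1, a2, a3, a4⟩ := upd_wh hw
  exact ⟨⟨hw, (upd_df h.dk.2.1 hq e).symm, fun c => n2 c.1⟩, upd_ext a1 (upd_p n2) rfl a2 a3 a4 rfl
    (if_neg (upd_df h.dr.1 hq e)) (if_pos e.symm) (if_neg (upd_df' h.dr.2.2 hq e))⟩

theorem upd_n (h : Valid s) (hq : q < 32) (e : q = s.n) :
    s.Ok q ∧ s.rem q = { s with n := 32 } := by
  obtain ⟨n1, n2⟩ := h.nop q (by simp [e])
  have hw : ¬ s.Wh q := by
    simp only [St.Wh, not_or]
    exact ⟨(upd_df h.dK.2.2.2.2.2.2 hq e).symm, (upd_df h.dR.2.2.2.2.2 hq e).symm,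
      (upd_df h.dB.2.2.2.2 hq e).symm, (upd_df h.dN.2.2.2 hq e).symm, n1⟩
  obtain ⟨a1, a2, a3, a4⟩ := upd_wh hw
  exact ⟨⟨hw, (upd_df h.dk.2.2 hq e).symm, fun c => n2 c.1⟩, upd_ext a1 (upd_p n2) rfl a2 a3 a4 rfl
    (if_neg (upd_df h.dr.2.1 hq e)) (if_neg (upd_df h.dr.2.2 hq e)) (if_pos e.symm)⟩

theorem upd_r (h : Valid s) (hq : q < 32) (e : q = s.r) :
    s.Ok q ∧ s.rem q = { s with r := 32 } := by
  obtain ⟨n1, n2⟩ := h.nop q (by simp [e])
  have hw : ¬ s.Wh q := by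
    simp only [St.Wh, not_or]
    exact ⟨(upd_df h.dK.2.2.2.2.1 hq e).symm, (upd_df h.dR.2.2.2.1 hq e).symm,
      (upd_df h.dB.2.2.1 hq e).symm, (upd_df h.dN.2.1 hq e).symm, n1⟩
  obtain ⟨a1, a2, a3, a4⟩ := upd_wh hw
  exact ⟨⟨hw, (upd_df h.dk.1 hq e).symm, fun c => n2 c.1⟩, upd_ext a1 (upd_p n2) rfl a2 a3 a4 rfl
    (if_pos e.symm) (if_neg (upd_df' h.dr.1 hq e)) (if_neg (upd_df' h.dr.2.1 hq e))⟩

theorem upd_pp (h : Valid s) (hp : s.isP q) (h2 : q % 4 ≠ 2) :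
    s.Ok q ∧ s.rem q = s.setP (q % 4) 0 := by
  have k : ∀ x, x = s.K ∨ x = s.R ∨ x = s.B ∨ x = s.N ∨ x = s.k ∨ x = s.r ∨ x = s.b ∨ x = s.n →
      q ≠ x := fun x hx e => (h.nop x hx).2 (e ▸ hp)
  have hw : ¬ s.Wh q := by
    simp only [St.Wh, not_or]
    refine ⟨k _ (by simp), k _ (by simp), k _ (by simp), k _ (by simp), fun c => ?_⟩
    have := h.pw (q % 4) (Nat.mod_lt _ (by decide))
    unfold St.isW at c
    unfold St.isP at hp
    omega
  obtain ⟨a1, a2, a3, a4⟩ := upd_wh hw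
  exact ⟨⟨hw, k _ (by simp), fun c => h2 c.2⟩, upd_ext a1 (upd_p0 hp) rfl a2 a3 a4 rfl
    (if_neg (k _ (by simp)).symm) (if_neg (k _ (by simp)).symm) (if_neg (k _ (by simp)).symm)⟩

/-- put the white piece `a` on `q` -/
def St.upPut (s : St) (a q : ℕ) : St :=
  if a = 0 then { s with K := q } else if a = 1 then { s with R := q }
  else if a = 2 then { s with B := q } else { s with N := q }

theorem upd_mv (s : St) (a q : ℕ) : s.mv a q = (s.rem q).upPut a q := rfl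
theorem upd_put0 (s : St) (q : ℕ) : s.upPut 0 q = { s with K := q } := rfl
theorem upd_put1 (s : St) (q : ℕ) : s.upPut 1 q = { s with R := q } := rfl
theorem upd_put2 (s : St) (q : ℕ) : s.upPut 2 q = { s with B := q } := rfl
theorem upd_put3 (s : St) (q : ℕ) : s.upPut 3 q = { s with N := q } := rfl
theorem upd_hA0 : hA 0 = 262144 := rfl
theorem upd_hA1 : hA 1 = 1 := rfl
theorem upd_hA2 : hA 2 = 4096 := rfl
theorem upd_hA3 : hA 3 = 64 := rfl

theorem upd_j {x y : St} (h1 : x.cl = y.cl) (h2 : x.w = y.w) (h3 : x.pc = y.pc) : x.j = y.j := by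
  unfold St.j
  rw [h1, h2, h3]

theorem upd_u {x : St} {K B N R : ℕ} (h1 : x.K = K) (h2 : x.B = B) (h3 : x.N = N) (h4 : x.R' = R) :
    x.u = 262144 * K + 4096 * B + 64 * N + R := by
  unfold St.u
  rw [h1, h2, h3, h4]

theorem upd_c {x y : St} (h1 : x.j = y.j) (h2 : x.u = y.u) : x.c = y.c := by
  unfold St.c
  rw [h1, h2]

theorem upd_ix {x : St} {m k b n r : ℕ} (h1 : x.m = m) (h2 : x.k = k) (h3 : x.b = b) (h4 : x.n = n)
    (h5 : x.sl = r) : x.ix = cel m k b n r := by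
  unfold St.ix
  rw [h1, h2, h3, h4, h5]

theorem upd_put (hs : s.At a o) :
    (s.upPut a q).c + hA a * o = s.c + hA a * q ∧ (s.upPut a q).ix = s.ix := by
  have k : (s.upPut a q).j = s.j ∧ (s.upPut a q).ix = s.ix := by
    rcases hs with ⟨rfl, -⟩ | ⟨rfl, hr, -⟩ | ⟨rfl, -⟩ | ⟨rfl, -⟩
    · exact ⟨upd_j rfl rfl rfl, upd_ix rfl rfl rfl rfl rfl⟩
    · exact ⟨upd_j ((if_pos hr).trans (if_pos hr).symm) rfl rfl,
        upd_ix ((if_pos hr).trans (if_pos hr).symm) rfl rfl rfl ((if_pos hr).trans (if_pos hr).symm)⟩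
    · exact ⟨upd_j rfl rfl rfl, upd_ix rfl rfl rfl rfl rfl⟩
    · exact ⟨upd_j rfl rfl rfl, upd_ix rfl rfl rfl rfl rfl⟩
  have l : (s.upPut a q).u + hA a * o = s.u + hA a * q := by
    rcases hs with ⟨rfl, h⟩ | ⟨rfl, hr, h⟩ | ⟨rfl, h⟩ | ⟨rfl, h⟩
    · rw [upd_u (x := s.upPut 0 q) (K := q) (B := s.B) (N := s.N) (R := s.R') rfl rfl rfl rfl,
        upd_hA0, St.u]
      omega
    · rw [upd_u (x := s.upPut 1 q) (K := s.K) (B := s.B) (N := s.N) (R := q) rfl rfl rfl (if_pos hr),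
        upd_hA1, St.u,
        St.R', if_pos hr]
      omega
    · rw [upd_u (x := s.upPut 2 q) (K := s.K) (B := q) (N := s.N) (R := s.R') rfl rfl rfl rfl,
        upd_hA2, St.u]
      omega
    · rw [upd_u (x := s.upPut 3 q) (K := s.K) (B := s.B) (N := q) (R := s.R') rfl rfl rfl rfl,
        upd_hA3, St.u]
      omega
  refine ⟨?_, k.2⟩
  rw [St.c, St.c, k.1]
  omega

theorem upd_pc (x g : ℕ) :
    (s.setP f x).pc g = if g = f then (if s.r < 32 then x else min x 6) else s.pc g := by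
  simp only [St.pc, St.setP]
  split_ifs <;> rfl

theorem upd_setP_j (hf : f < 4) (x : ℕ) :
    (s.setP f x).j + 8 ^ f * s.pc f = s.j + 8 ^ f * (if s.r < 32 then x else min x 6) := by
  have h1 : (s.setP f x).cl = s.cl := rfl
  have h2 : (s.setP f x).w = s.w := rfl
  simp only [St.j, h1, h2, upd_pc]
  generalize (if s.r < 32 then x else min x 6) = y
  interval_cases f <;> simp only [Nat.reducePow, Nat.reduceEqDiff, ↓reduceIte] <;> omega

theorem upd_setW_j (hf : f < 4) (x : ℕ) :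
    (s.setW f x).j + 4096 * (8 ^ f * s.w f) = s.j + 4096 * (8 ^ f * x) := by
  have h1 : (s.setW f x).cl = s.cl := rfl
  have h2 : (s.setW f x).pc = s.pc := rfl
  have h3 : ∀ g, (s.setW f x).w g = if g = f then x else s.w g := fun _ => rfl
  simp only [St.j, h1, h2, h3]
  interval_cases f <;> simp only [Nat.reducePow, Nat.reduceEqDiff, ↓reduceIte] <;> omega

theorem upd_setP_m (x : ℕ) :
    (s.setP f x).m = if s.r < 32 then (if 5 ≤ (if 2 = f then x else s.p 2) then 0 else 1)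
      else if s.R < 32 then 2 else 3 := rfl

theorem upd_setP_m' (x : ℕ) (hf : f ≠ 2) : (s.setP f x).m = s.m := by
  rw [upd_setP_m, if_neg hf.symm, St.m]

theorem upd_m2 (hm : s.m = 2) : ¬ s.r < 32 ∧ s.R < 32 := by
  unfold St.m at hm
  split_ifs at hm <;> omega

theorem upd_sl (hr : ¬ s.r < 32) (hR : s.R < 32) (ht : t < 32) :
    (s.upPut 1 t).c = s.c ∧ (s.upPut 1 t).ix = cel 2 s.k s.b s.n t :=
  ⟨upd_c (upd_j (((if_neg hr).trans (if_pos ht)).trans ((if_neg hr).trans (if_pos hR)).symm) rfl rfl)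
      (upd_u rfl rfl rfl ((if_neg hr).trans (if_neg hr).symm)),
    upd_ix ((if_neg hr).trans (if_pos ht)) rfl rfl rfl ((if_neg hr).trans (Nat.mod_eq_of_lt ht))⟩

theorem upd_p8 (f : ℕ) : p8 f = 8 ^ f := pow_eq 8 f

theorem upd_cap1 (h : Valid s) (hf : f < 4) (hr : s.r < 32) :
    cap1 s.j f + 8 ^ f * min (s.p f) 6 = 8 ^ f * s.p f := by
  have h0 := (h.pw f hf).2.1
  simp only [cap1, selN_eq, beq_iff, jp_j h hf, St.pc, if_pos hr, upd_p8]
  split_ifs with c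
  · rw [c, show min 7 6 = 6 from rfl]
    omega
  · rw [Nat.min_eq_left (by omega), Nat.zero_add]

theorem upd_capJ (h : Valid s) (hr : s.r < 32) :
    capJ s.j = 4096 * (s.w 0 + 8 * s.w 1 + 64 * s.w 2 + 512 * s.w 3) +
      (min (s.p 0) 6 + 8 * min (s.p 1) 6 + 64 * min (s.p 2) 6 + 512 * min (s.p 3) 6) := by
  have h0 := upd_cap1 h (show 0 < 4 by decide) hr
  have h1 := upd_cap1 h (show 1 < 4 by decide) hr
  have h2 := upd_cap1 h (show 2 < 4 by decide) hr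
  have h3 := upd_cap1 h (show 3 < 4 by decide) hr
  rw [capJ, sub_eq, add_eq, add_eq, add_eq]
  generalize cap1 s.j 0 = c0 at *
  generalize cap1 s.j 1 = c1 at *
  generalize cap1 s.j 2 = c2 at *
  generalize cap1 s.j 3 = c3 at *
  generalize min (s.p 0) 6 = m0 at *
  generalize min (s.p 1) 6 = m1 at *
  generalize min (s.p 2) 6 = m2 at *
  generalize min (s.p 3) 6 = m3 at *
  simp only [St.j, St.cl, St.pc, if_pos hr]
  omega

theorem upd_cB (h : Valid s) (hr : s.r < 32) :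
    cB s.j s.u = 8388608 * (capJ s.j + if s.R < 32 then 16777216 else 33554432) +
      (262144 * s.K + 4096 * s.B + 64 * s.N + 32) := by
  rw [cB, cc_eq, uR_u h]
  simp only [sub_eq, add_eq, selN_eq, ble_iff, St.u, St.R', if_pos hr]
  split_ifs <;> omega

theorem upd_cel (m k b n r : ℕ) (hm : m ≠ 0) : cel m k b n r = r + cel 2 k b n 0 := by
  simp only [cel, if_neg hm, Nat.reduceEqDiff, ↓reduceIte]
  omega

/-! keys and cells after a white move -/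
theorem wmove_mv (hA : s.At a o) (ho : o < 32) (hq : q < 32) (hm : Mv s.E a o q) (hk : s.Ok q) :
    WMove s (s.mv a q) := by
  rcases hA with ⟨rfl, rfl⟩ | ⟨rfl, _, rfl⟩ | ⟨rfl, rfl⟩ | ⟨rfl, rfl⟩ <;>
    rcases hm with ⟨c, d, h1, h2⟩ | ⟨c, d, h1, h2⟩ | ⟨c, d, h1, h2, h3⟩ | ⟨c, d, h1, h2, h3⟩ <;>
    first
    | exact absurd c (by decide)
    | exact .king d q h1 h2 hq hk
    | exact .rook d q h1 ho h2 hk
    | exact .bishop d q h1 h2 ho h3 hk
    | exact .knight d q h1 h2 ho h3 hq hk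
theorem attB_mv (hA : s.At a o) (ho : o < 32) (ha : 1 ≤ a) (hm : Mv s.E a o s.k) : AttB s := by
  rcases hA with ⟨rfl, rfl⟩ | ⟨rfl, _, rfl⟩ | ⟨rfl, rfl⟩ | ⟨rfl, rfl⟩ <;>
    rcases hm with ⟨c, h⟩ | ⟨c, h⟩ | ⟨c, h⟩ | ⟨c, h⟩ <;>
    first
    | exact absurd c (by decide)
    | exact absurd ha (by decide)
    | exact .inl ⟨ho, h⟩
    | exact .inr (.inl ⟨ho, h⟩)
    | exact .inr (.inr ⟨ho, h⟩)
theorem mv_E (h : Valid s) (hs : s.At a o) (ho : o < 32) (hq : q < 32) (hE : s.E q) :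
    s.Ok q ∧ (s.mv a q).c = s.c + hA a * q - hA a * o ∧ (s.mv a q).ix = s.ix := by
  obtain ⟨h1, h2⟩ := upd_put (q := q) hs
  rw [upd_mv, upd_remE hE]
  exact ⟨upd_okE hE, by omega, h2⟩
theorem mv_b (h : Valid s) (hs : s.At a o) (ho : o < 32) (hq : q < 32) (hb : q = s.b) :
    s.Ok q ∧ (s.mv a q).c = s.c + hA a * q - hA a * o ∧ (s.mv a q).ix = cel s.m s.k 32 s.n s.sl := by
  obtain ⟨k, e⟩ := upd_b h hq hb
  obtain ⟨h1, h2⟩ := upd_put (s := { s with b := 32 }) (q := q) hs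
  have c : ({ s with b := 32 } : St).c = s.c := upd_c (upd_j rfl rfl rfl) (upd_u rfl rfl rfl rfl)
  rw [upd_mv, e]
  exact ⟨k, by omega, h2.trans (upd_ix rfl rfl rfl rfl rfl)⟩
theorem mv_n (h : Valid s) (hs : s.At a o) (ho : o < 32) (hq : q < 32) (hn : q = s.n) :
    s.Ok q ∧ (s.mv a q).c = s.c + hA a * q - hA a * o ∧ (s.mv a q).ix = cel s.m s.k s.b 32 s.sl := by
  obtain ⟨k, e⟩ := upd_n h hq hn
  obtain ⟨h1, h2⟩ := upd_put (s := { s with n := 32 }) (q := q) hs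
  have c : ({ s with n := 32 } : St).c = s.c := upd_c (upd_j rfl rfl rfl) (upd_u rfl rfl rfl rfl)
  rw [upd_mv, e]
  exact ⟨k, by omega, h2.trans (upd_ix rfl rfl rfl rfl rfl)⟩
theorem setP_u (x : ℕ) : (s.setP f x).u = s.u ∧ (s.setP f x).sl = s.sl ∧ (s.setP f x).ix0 = s.ix0 :=
  ⟨upd_u rfl rfl rfl rfl, rfl, congrArg (cel 0 s.k s.b s.n) rfl⟩
theorem mv_p (h : Valid s) (hs : s.At a o) (ho : o < 32) (hq : q < 32) (hp : s.isP q) (h2 : q % 4 ≠ 2)
    (h6 : s.r < 32 ∨ s.p (q % 4) < 6) :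
    s.Ok q ∧ (s.mv a q).c = s.c + hA a * q - (hA a * o + 8388608 * (8 ^ (q % 4) * (q / 4 + 1))) ∧
      (s.mv a q).ix = s.ix := by
  obtain ⟨k, e⟩ := upd_pp h hp h2
  obtain ⟨h1, h3⟩ := upd_put (s := s.setP (q % 4) 0) (q := q) hs
  have h4 := upd_setP_j (s := s) (Nat.mod_lt q (by decide : 0 < 4)) 0
  have h5 : s.pc (q % 4) = q / 4 + 1 := by
    unfold St.isP at hp
    unfold St.pc
    split_ifs <;> omega
  obtain ⟨u1, u2, -⟩ := setP_u (s := s) (f := q % 4) 0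
  rw [h5, Nat.zero_min, ite_self, Nat.mul_zero] at h4
  rw [upd_mv, e]
  refine ⟨k, ?_, ?_⟩
  · rw [St.c.eq_1 (s.setP (q % 4) 0), u1] at h1
    rw [St.c.eq_1 s]
    omega
  · exact h3.trans (upd_ix (upd_setP_m' 0 h2) rfl rfl rfl u2)
theorem mv_r (h : Valid s) (hs : s.At a o) (ho : o < 32) (hq : q < 32) (hr : q = s.r) :
    s.Ok q ∧ (s.mv a q).c = cB s.j s.u + (if a = 1 then 0 else hA a * q) - (if a = 1 then 0 else hA a * o) ∧
      (s.mv a q).ix = (s.u + hA a * q - hA a * o) % 32 + cel 2 s.k s.b s.n 0 := by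
  obtain ⟨k, e⟩ := upd_r h hq hr
  have r : s.r < 32 := hr ▸ hq
  have l := h.le.1
  have z : ¬ 32 < 32 := by decide
  have j : ∀ x : St, x.r = 32 → x.w = s.w → x.p = s.p →
      x.j = capJ s.j + (if x.R < 32 then 16777216 else 33554432) ∧ x.m ≠ 0 ∧ x.R' = 32 ∧
        x.sl = x.R % 32 := by
    intro x h1 h2 h3
    have z : ¬ x.r < 32 := by omega
    rw [upd_capJ h r]
    simp only [St.j, St.cl, St.pc, St.m, St.R', St.sl, if_neg z, h2, h3, and_true]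
    generalize min (s.p 0) 6 + 8 * min (s.p 1) 6 + 64 * min (s.p 2) 6 + 512 * min (s.p 3) 6 = y
    split_ifs <;> omega
  have u : s.u = 262144 * s.K + 4096 * s.B + 64 * s.N + s.R := upd_u rfl rfl rfl (if_pos r)
  refine ⟨k, ?_⟩
  rw [upd_mv, e, upd_cB h r, u]
  generalize capJ s.j = y at *
  rcases hs with ⟨rfl, c⟩ | ⟨rfl, -, c⟩ | ⟨rfl, c⟩ | ⟨rfl, c⟩
  · obtain ⟨j1, j2, j3, j4⟩ := j (St.upPut { s with r := 32 } 0 q) rfl rfl rfl
    rw [St.c, j1, upd_u (x := St.upPut { s with r := 32 } 0 q) (K := q) (B := s.B) (N := s.N)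
        rfl rfl rfl j3,
      upd_ix (x := St.upPut { s with r := 32 } 0 q) (k := s.k) (b := s.b) (n := s.n) (r := s.R % 32)
        rfl rfl rfl rfl j4, upd_cel _ _ _ _ _ j2,
      show (St.upPut { s with r := 32 } 0 q).R = s.R from rfl, upd_hA0, if_neg (by decide : ¬ 0 = 1),
      if_neg (by decide : ¬ 0 = 1)]
    omega
  · obtain ⟨j1, j2, j3, j4⟩ := j (St.upPut { s with r := 32 } 1 q) rfl rfl rfl
    rw [St.c, j1, upd_u (x := St.upPut { s with r := 32 } 1 q) (K := s.K) (B := s.B) (N := s.N)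
        rfl rfl rfl j3,
      upd_ix (x := St.upPut { s with r := 32 } 1 q) (k := s.k) (b := s.b) (n := s.n) (r := q % 32)
        rfl rfl rfl rfl j4, upd_cel _ _ _ _ _ j2,
      show (St.upPut { s with r := 32 } 1 q).R = q from rfl, upd_hA1, if_pos hq, if_pos (c ▸ ho),
      if_pos rfl, if_pos rfl]
    omega
  · obtain ⟨j1, j2, j3, j4⟩ := j (St.upPut { s with r := 32 } 2 q) rfl rfl rfl
    rw [St.c, j1, upd_u (x := St.upPut { s with r := 32 } 2 q) (K := s.K) (B := q) (N := s.N)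
        rfl rfl rfl j3,
      upd_ix (x := St.upPut { s with r := 32 } 2 q) (k := s.k) (b := s.b) (n := s.n) (r := s.R % 32)
        rfl rfl rfl rfl j4, upd_cel _ _ _ _ _ j2,
      show (St.upPut { s with r := 32 } 2 q).R = s.R from rfl, upd_hA2, if_neg (by decide : ¬ 2 = 1),
      if_neg (by decide : ¬ 2 = 1)]
    omega
  · obtain ⟨j1, j2, j3, j4⟩ := j (St.upPut { s with r := 32 } 3 q) rfl rfl rfl
    rw [St.c, j1, upd_u (x := St.upPut { s with r := 32 } 3 q) (K := s.K) (B := s.B) (N := q)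
        rfl rfl rfl j3,
      upd_ix (x := St.upPut { s with r := 32 } 3 q) (k := s.k) (b := s.b) (n := s.n) (r := s.R % 32)
        rfl rfl rfl rfl j4, upd_cel _ _ _ _ _ j2,
      show (St.upPut { s with r := 32 } 3 q).R = s.R from rfl, upd_hA3, if_neg (by decide : ¬ 3 = 1),
      if_neg (by decide : ¬ 3 = 1)]
    omega
theorem setW_c (h : Valid s) (hf : f < 4) (x : ℕ) :
    (s.setW f x).c = s.c + 34359738368 * (8 ^ f * x) - 34359738368 * (8 ^ f * s.w f) ∧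
      (s.setW f x).ix = s.ix := by
  have h1 := upd_setW_j (s := s) hf x
  have h2 : (s.setW f x).u = s.u := upd_u rfl rfl rfl rfl
  refine ⟨?_, upd_ix rfl rfl rfl rfl rfl⟩
  rw [St.c, St.c, h2]
  omega
/-! the rook of the slot (black rook gone) -/
theorem sl_E (h : Valid s) (hm : s.m = 2) (ht : t < 32) (hE : s.E t) :
    s.Ok t ∧ (s.mv 1 t).c = s.c ∧ (s.mv 1 t).ix = cel 2 s.k s.b s.n t := by
  rw [upd_mv, upd_remE hE]
  exact ⟨upd_okE hE, upd_sl (upd_m2 hm).1 (upd_m2 hm).2 ht⟩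
theorem sl_b (h : Valid s) (hm : s.m = 2) (ht : t < 32) (hb : s.b = t) :
    s.Ok t ∧ (s.mv 1 t).c = s.c ∧ (s.mv 1 t).ix = cel 2 s.k 32 s.n t := by
  obtain ⟨k, e⟩ := upd_b h ht hb.symm
  obtain ⟨h1, h2⟩ := upd_sl (s := { s with b := 32 }) (upd_m2 hm).1 (upd_m2 hm).2 ht
  rw [upd_mv, e]
  exact ⟨k, h1.trans (upd_c (upd_j rfl rfl rfl) (upd_u rfl rfl rfl rfl)), h2⟩
theorem sl_n (h : Valid s) (hm : s.m = 2) (ht : t < 32) (hn : s.n = t) :
    s.Ok t ∧ (s.mv 1 t).c = s.c ∧ (s.mv 1 t).ix = cel 2 s.k s.b 32 t := by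
  obtain ⟨k, e⟩ := upd_n h ht hn.symm
  obtain ⟨h1, h2⟩ := upd_sl (s := { s with n := 32 }) (upd_m2 hm).1 (upd_m2 hm).2 ht
  rw [upd_mv, e]
  exact ⟨k, h1.trans (upd_c (upd_j rfl rfl rfl) (upd_u rfl rfl rfl rfl)), h2⟩
theorem sl_p (h : Valid s) (hm : s.m = 2) (ht : t < 32) (hp : s.isP t) (h2 : t % 4 ≠ 2)
    (h6 : s.p (t % 4) < 6) :
    s.Ok t ∧ (s.mv 1 t).c = cc (s.j - s.p (t % 4) * p8 (t % 4)) s.u ∧
      (s.mv 1 t).ix = cel 2 s.k s.b s.n t := by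
  obtain ⟨k, e⟩ := upd_pp h hp h2
  obtain ⟨h1, h3⟩ := upd_sl (s := s.setP (t % 4) 0) (upd_m2 hm).1 (upd_m2 hm).2 ht
  have h4 := upd_setP_j (s := s) (Nat.mod_lt t (by decide : 0 < 4)) 0
  have h5 : s.pc (t % 4) = s.p (t % 4) := by
    unfold St.pc
    split_ifs <;> omega
  rw [h5, Nat.zero_min, ite_self, Nat.mul_zero, Nat.mul_comm] at h4
  rw [upd_mv, e]
  refine ⟨k, ?_, h3⟩
  rw [h1, St.c, (setP_u 0).1, cc_eq, upd_p8]
  omega

/-- `s'` arises from `s` by a move of a black piece to `t` -/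
structure Aft (s : St) (t : ℕ) (s' : St) : Prop where
  w : s'.w = (s.rem t).w
  p : s'.p = (s.rem t).p
  K : s'.K = s.K
  R : s'.R = (s.rem t).R
  B : s'.B = (s.rem t).B
  N : s'.N = (s.rem t).N
  r : s'.r < 32 ↔ s.r < 32
  lt : t < 32
  nb : ¬ s.Bl t
  nK : t ≠ s.K

theorem Aft.pp (ha : Aft s t s') : s'.p = s.p :=
  ha.p.trans (upd_p fun c => ha.nb (.inr (.inr (.inr (.inr c)))))

theorem Aft.upd_R (ha : Aft s t s') : s'.R = if s.R = t then 32 else s.R := ha.R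
theorem Aft.upd_B (ha : Aft s t s') : s'.B = if s.B = t then 32 else s.B := ha.B
theorem Aft.upd_N (ha : Aft s t s') : s'.N = if s.N = t then 32 else s.N := ha.N

theorem Aft.upd_pc (ha : Aft s t s') : s'.pc = s.pc := by
  funext g
  unfold St.pc
  rw [ha.pp]
  exact if_congr ha.r rfl rfl

theorem Aft.same (ha : Aft s t s') (e : s'.R = s.R) : s'.cl = s.cl ∧ s'.m = s.m ∧ s'.R' = s.R' := by
  unfold St.cl St.m St.R'
  rw [ha.pp, e]
  exact ⟨if_congr ha.r rfl rfl, if_congr ha.r rfl rfl, if_congr ha.r rfl rfl⟩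

theorem aft_E (h : Valid s) (ha : Aft s t s') (hE : s.E t) :
    s'.j = s.j ∧ s'.u = s.u ∧ s'.m = s.m ∧ s'.R = s.R := by
  obtain ⟨a1, a2, a3, a4⟩ := upd_wh hE.1
  obtain ⟨b1, b2, b3⟩ := ha.same (ha.R.trans a2)
  exact ⟨upd_j b1 (ha.w.trans a1) ha.upd_pc, upd_u ha.K (ha.B.trans a3) (ha.N.trans a4) b3, b2,
    ha.R.trans a2⟩
theorem aft_R0 (h : Valid s) (ha : Aft s t s') (ht : t = s.R) (hr : s.r < 32) :
    s'.j = s.j ∧ s'.u = s.u - uR s.u + 32 ∧ s'.m = s.m ∧ uR s.u = t := by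
  have r := ha.r.2 hr
  have a1 := ha.w.trans (upd_w (h.nop t (by simp [ht])).1)
  have a2 : s'.R = 32 := ha.upd_R.trans (if_pos ht.symm)
  have a3 : s'.B = s.B := ha.upd_B.trans (if_neg (upd_df' h.dR.1 ha.lt ht))
  have a4 : s'.N = s.N := ha.upd_N.trans (if_neg (upd_df' h.dR.2.1 ha.lt ht))
  have a5 : s.R' = s.R := if_pos hr
  rw [uR_u h, upd_u ha.K a3 a4 ((if_pos r).trans a2), St.u, a5]
  refine ⟨upd_j ((if_pos r).trans (if_pos hr).symm) a1 ha.upd_pc, by omega, ?_, ht.symm⟩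
  rw [St.m, St.m, if_pos r, if_pos hr, ha.pp]
theorem aft_R1 (h : Valid s) (ha : Aft s t s') (ht : t = s.R) (hr : ¬ s.r < 32) :
    s'.j = s.j + 16777216 ∧ s'.u = s.u ∧ s'.m = 3 ∧ s.m = 2 ∧ s'.sl = 0 ∧ s.sl = t := by
  have r : ¬ s'.r < 32 := fun c => hr (ha.r.1 c)
  have l : s.R < 32 := ht ▸ ha.lt
  have a1 := ha.w.trans (upd_w (h.nop t (by simp [ht])).1)
  have a2 : s'.R = 32 := ha.upd_R.trans (if_pos ht.symm)
  have a3 : s'.B = s.B := ha.upd_B.trans (if_neg (upd_df' h.dR.1 ha.lt ht))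
  have a4 : s'.N = s.N := ha.upd_N.trans (if_neg (upd_df' h.dR.2.1 ha.lt ht))
  have l' : ¬ s'.R < 32 := by omega
  have c1 : s'.cl = 2 := (if_neg r).trans (if_neg l')
  have c2 : s.cl = 1 := (if_neg hr).trans (if_pos l)
  refine ⟨?_, upd_u ha.K a3 a4 ((if_neg r).trans (if_neg hr).symm), (if_neg r).trans (if_neg l'),
    (if_neg hr).trans (if_pos l), (if_neg r).trans (by rw [a2]),
    (if_neg hr).trans ((Nat.mod_eq_of_lt l).trans ht.symm)⟩
  rw [St.j, St.j, c1, c2, a1, ha.upd_pc]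
  omega
theorem aft_B (h : Valid s) (ha : Aft s t s') (ht : t = s.B) :
    s'.j = s.j ∧ s'.u = s.u - uB s.u * 4096 + 131072 ∧ s'.m = s.m ∧ s'.R = s.R := by
  have a1 := ha.w.trans (upd_w (h.nop t (by simp [ht])).1)
  have a2 : s'.R = s.R := ha.upd_R.trans (if_neg (upd_df h.dR.1 ha.lt ht))
  have a3 : s'.B = 32 := ha.upd_B.trans (if_pos ht.symm)
  have a4 : s'.N = s.N := ha.upd_N.trans (if_neg (upd_df' h.dB.1 ha.lt ht))
  obtain ⟨b1, b2, b3⟩ := ha.same a2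
  rw [uB_u h, upd_u ha.K a3 a4 b3, St.u]
  exact ⟨upd_j b1 a1 ha.upd_pc, by omega, b2, a2⟩
theorem aft_N (h : Valid s) (ha : Aft s t s') (ht : t = s.N) :
    s'.j = s.j ∧ s'.u = s.u - uN s.u * 64 + 2048 ∧ s'.m = s.m ∧ s'.R = s.R := by
  have a1 := ha.w.trans (upd_w (h.nop t (by simp [ht])).1)
  have a2 : s'.R = s.R := ha.upd_R.trans (if_neg (upd_df h.dR.2.1 ha.lt ht))
  have a3 : s'.B = s.B := ha.upd_B.trans (if_neg (upd_df h.dB.1 ha.lt ht))
  have a4 : s'.N = 32 := ha.upd_N.trans (if_pos ht.symm)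
  obtain ⟨b1, b2, b3⟩ := ha.same a2
  rw [uN_u h, upd_u ha.K a3 a4 b3, St.u]
  exact ⟨upd_j b1 a1 ha.upd_pc, by omega, b2, a2⟩
theorem aft_W (h : Valid s) (ha : Aft s t s') (ht : s.isW t) :
    s'.j = jx s.j (t % 4) ∧ s'.u = s.u ∧ s'.m = s.m ∧ s'.R = s.R := by
  have hf : t % 4 < 4 := Nat.mod_lt t (by decide)
  have k : ∀ x, x = s.K ∨ x = s.R ∨ x = s.B ∨ x = s.N ∨ x = s.k ∨ x = s.r ∨ x = s.b ∨ x = s.n →
      x ≠ t := fun x hx e => (h.nop x hx).1 (e ▸ ht)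
  have a1 := ha.w.trans (upd_w0 ht)
  have a2 : s'.R = s.R := ha.upd_R.trans (if_neg (k _ (by simp)))
  have a3 : s'.B = s.B := ha.upd_B.trans (if_neg (k _ (by simp)))
  have a4 : s'.N = s.N := ha.upd_N.trans (if_neg (k _ (by simp)))
  obtain ⟨b1, b2, b3⟩ := ha.same a2
  have a5 : s'.j = (s.setW (t % 4) 0).j := upd_j b1 a1 ha.upd_pc
  have a6 := upd_setW_j (s := s) hf 0
  refine ⟨?_, upd_u ha.K a3 a4 b3, b2, a2⟩
  rw [a5, jx, jw_j h hf, upd_p8, sub_eq, mul_eq, mul_eq, Nat.mul_left_comm,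
    Nat.mul_comm (s.w (t % 4))]
  rw [Nat.mul_zero] at a6
  omega
/-! pushes of black pawns -/
theorem setP_far (h : Valid s) (hf : f < 4) (hr : ¬ s.r < 32) (h7 : s.p f = 7) :
    (s.setP f 6).j = s.j ∧ (s.setP f 6).m = s.m ∧ jp s.j f = 6 ∧ (s.setP f 5).j = jd s.j f ∧
      (s.setP f 5).m = s.m := by
  have h1 := upd_setP_j (s := s) hf 6
  have h2 := upd_setP_j (s := s) hf 5
  have h3 : s.pc f = 6 := by
    unfold St.pc
    split_ifs
    omega
  rw [h3, if_neg hr, show min 6 6 = 6 from rfl] at h1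
  rw [h3, if_neg hr, show min 5 6 = 5 from rfl] at h2
  rw [jp_j h hf, jd, sub_eq, upd_p8]
  refine ⟨by omega, ?_, h3, by omega, ?_⟩ <;> rw [upd_setP_m, St.m, if_neg hr, if_neg hr]
theorem setP_one (h : Valid s) (hf : f < 4) (h1 : 1 ≤ s.p f) (hr : s.r < 32 ∨ s.p f ≤ 6) :
    jp s.j f = s.p f ∧ (s.setP f (s.p f - 1)).j = jd s.j f ∧
      (s.setP f (s.p f - 1)).m = if s.m = 0 ∧ f = 2 ∧ s.p f = 5 then 1 else s.m := by
  have h2 := upd_setP_j (s := s) hf (s.p f - 1)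
  have h3 : s.pc f = s.p f := by
    unfold St.pc
    split_ifs <;> omega
  have h4 : (if s.r < 32 then s.p f - 1 else min (s.p f - 1) 6) = s.p f - 1 := by
    split_ifs <;> omega
  have h5 : 8 ^ f * s.p f = 8 ^ f * (s.p f - 1) + 8 ^ f := by
    rw [← Nat.mul_succ]
    congr 1
    omega
  rw [h3, h4] at h2
  rw [jp_j h hf, jd, sub_eq, upd_p8]
  refine ⟨h3, by omega, ?_⟩
  by_cases c : f = 2
  · subst c
    rw [upd_setP_m, if_pos rfl, St.m]
    clear h2 h3 h4 h5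
    by_cases r : s.r < 32
    · simp only [if_pos r, true_and]
      split_ifs <;> omega
    · simp only [if_neg r]
      rw [if_neg (c := _ ∧ _) fun d => by
        have := d.1
        split_ifs at this]
  · rw [upd_setP_m' _ c, if_neg fun d => c d.2.1]
theorem setP_two (h : Valid s) (hf : f < 4) (hr : s.r < 32) (h7 : s.p f = 7) :
    (s.setP f 5).j = jd (jd s.j f) f ∧ (s.setP f 5).m = s.m := by
  have h2 := upd_setP_j (s := s) hf 5
  have h3 : s.pc f = 7 := by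
    unfold St.pc
    rw [if_pos hr, h7]
  rw [h3, if_pos hr] at h2
  rw [jd, jd, sub_eq, sub_eq, upd_p8]
  refine ⟨by omega, ?_⟩
  by_cases c : f = 2
  · subst c
    rw [upd_setP_m, if_pos rfl, St.m, h7, if_pos hr, if_pos hr]
    rfl
  · exact upd_setP_m' _ c

end Pool.Agent.Lib.MP_15f43f_co
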