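import Pool.Agent.Lib.MP_15f43f_co.Att
import Pool.Agent.Lib.MP_15f43f_co.GeoS
import Pool.Agent.Lib.MP_15f43f_co.Upd

namespace Pool.Agent.Lib.MP_15f43f_co

variable {T : ℕ → ℕ} {s : St} {k : ℕ}

theorem wh_sel0 {b : Bool} {t i : ℕ} (h : Bt (selN b t 0) i) : b = true ∧ Bt t i := by
  rcases (bt_sel _ _ _ _).1 h with a | a
  · exact a
  · exact (bt_zero _ a.2).elim

theorem wh_sel1 {b : Bool} {t i : ℕ} (h : Bt (selN b 0 t) i) : b = false ∧ Bt t i := by
  rcases (bt_sel _ _ _ _).1 h with a | a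
  · exact (bt_zero _ a.2).elim
  · exact a

theorem wh_pcap (h : Valid s) (hm : s.m = 2) {f t : ℕ} (hf : f < 4) (h2 : f ≠ 2) (ht : t < 32)
    (hz : Bt (pcap T s.j s.u f) (cel 2 s.k s.b s.n t)) : s.Ok t ∧ InT T (s.mv 1 t) := by
  have c := cel_ok h
  rw [hm] at c
  have c' : Cel 2 s.k s.b s.n t := ⟨c.hk, c.hb, c.hn, ht⟩
  rw [pcap, frN_eq, bt_land, oQ, frN_eq, onR_cel c'] at hz
  obtain ⟨a, b⟩ := hz
  obtain ⟨p1, p2, p3, p4⟩ := pex_j h hf (by omega)
  rw [b] at p1 p2
  have r : ¬ s.r < 32 := fun r => by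
    simp only [St.m, r, if_true] at hm
    split_ifs at hm
    omega
  obtain ⟨o, e1, e2⟩ := sl_p h hm ht p1 (by omega) (by rw [p2]; exact p4.resolve_left r)
  refine ⟨o, ?_⟩
  rw [InT, e1, e2, p2, ← p3]
  exact a

theorem slide_sound (h : Valid s) (hi : Bt (slide T s.m s.j s.u k) s.ix) : Win T s := by
  obtain ⟨hm, hi⟩ := wh_sel0 hi
  rw [beq_iff] at hm
  have c := cel_ok h
  have r : ¬ s.r < 32 := fun r => by
    simp only [St.m, r, if_true] at hm
    split_ifs at hm
    omega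
  have R : s.R < 32 := by
    by_contra R
    simp only [St.m, r, R, if_false] at hm
    omega
  have sl : s.sl = s.R := by
    simp only [St.sl, r, if_false]
    omega
  rw [frN_eq, St.ix, hm, sl] at hi
  rw [hm, sl] at c
  obtain ⟨d, t, hd, hne, hs, hz⟩ := slZ_bwd c hi
  have ht := hs.lt
  have c' : Cel 2 s.k s.b s.n t := ⟨c.hk, c.hb, c.hn, ht⟩
  have hs' : Sl s.E d s.R t := hs.mono fun q a b => vg_empty h hm a b.1 b.2
  have e : cc s.j s.u = s.c := cc_eq _ _
  have k0 : Bt (Nat.land (T s.c) (vg s.j s.u)) (cel 2 s.k s.b s.n t) → s.Ok t ∧ InT T (s.mv 1 t) := fun a => by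
    rw [bt_land] at a
    obtain ⟨o, e1, e2⟩ := sl_E h hm ht (vg_empty h hm ht hne a.2)
    exact ⟨o, by rw [InT, e1, e2]; exact a.1⟩
  have key : s.Ok t ∧ InT T (s.mv 1 t) := by
    rw [rookZ, bt_lor, e] at hz
    rcases hz with hz | hz
    · rcases (bt_sel _ _ _ _).1 hz with ⟨-, hz⟩ | ⟨-, hz⟩
      · rcases (bt_or3 _ _ _ _).1 hz with a | a | a
        · exact k0 a
        · obtain ⟨a, b⟩ := zB_cel c' a
          obtain ⟨o, e1, e2⟩ := sl_b h hm ht a
          exact ⟨o, by rw [InT, e1, e2]; exact b⟩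
        · obtain ⟨a, b⟩ := zN_cel c' a
          obtain ⟨o, e1, e2⟩ := sl_n h hm ht a
          exact ⟨o, by rw [InT, e1, e2]; exact b⟩
      · exact k0 hz
    · rcases (bt_or3 _ _ _ _).1 (wh_sel0 hz).2 with a | a | a
      · exact wh_pcap h hm (by omega) (by omega) ht (wh_sel0 a).2
      · exact wh_pcap h hm (by omega) (by omega) ht (wh_sel0 a).2
      · exact wh_pcap h hm (by omega) (by omega) ht (wh_sel0 a).2
  exact .inr ⟨_, WMove.rook d t hd R hs' key.1, key.2⟩

/-- the piece named by the hint stands on its source square -/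
theorem wh_at (h : Valid s)
    (f : (ka k = 0 → uK s.u = ks k) ∧ (ka k = 1 → uR s.u = ks k) ∧ (ka k = 2 → uB s.u = ks k) ∧
      (ka k = 3 → uN s.u = ks k)) : s.At (ka k) (ks k) := by
  rw [uK_u h, uR_u h, uB_u h, uN_u h] at f
  have a := ka_lt k
  have b := ks_lt k
  rcases (by omega : ka k = 0 ∨ ka k = 1 ∨ ka k = 2 ∨ ka k = 3) with e | e | e | e
  · exact .inl ⟨e, f.1 e⟩
  · have := f.2.1 e
    unfold St.R' at this
    split_ifs at this with r
    · exact .inr (.inl ⟨e, r, this⟩)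
    · omega
  · exact .inr (.inr (.inl ⟨e, f.2.2.1 e⟩))
  · exact .inr (.inr (.inr ⟨e, f.2.2.2 e⟩))

theorem wh_kM {m i : ℕ} (hi : i < 14688) (h : Bt (kM m k) i) :
    Bt (kB m (kt k) (ka k) (kq k)) i ∧ ∀ t, Bt (kG k % 4294967296) t → ¬ Bt (on m t) i := by
  rw [kM, bt_dif, frN_eq] at h
  exact ⟨h.1, pathM_spec hi h.2⟩

theorem wh_kB (m t a q : ℕ) : kB m t a q =
    if t % 4 = 0 then nq m q else if t = 1 then onB q else if t = 2 then onN q else
      if t = 3 then (if q % 4 = 2 ∨ (2 ≤ m ∧ q / 4 = 5) then 0 else allM m) else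
        if t = 5 then (if 2 ≤ m then 0 else allM m) else if m = 0 ∧ 1 ≤ a then onK q else 0 := by
  simp only [kB, selN_eq, beq_iff, ble_iff, bor_eq, band_eq, Bool.or_eq_true, Bool.and_eq_true, mod_eq, div_eq]

theorem wh_kS (k : ℕ) : kS k =
    if kt k = 1 then 544 * (8 - bI (kq k)) else if kt k = 2 then 32 * (16 - kq k / 2) else 0 := by
  simp only [kS, selN_eq, beq_iff, mul_eq, sub_eq, div_eq]

theorem item_sound (h : Valid s) (hk : k < 4096) (hi : Bt (item T s.m s.j s.u k) s.ix) : Win T s := by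
  obtain ⟨hd, hi⟩ := wh_sel0 hi
  have c := cel_ok h
  have lt : s.ix < 14688 := cel_lt c
  have kt_eq : kt k = k / 512 := rfl
  have hq := kq_lt k
  have ho := ks_lt k
  by_cases h7 : 3584 ≤ k
  · rw [selN_eq, if_pos ((ble_iff _ _).2 (by omega)), selN_eq, if_pos ((ble_iff _ _).2 (by omega)), selN_eq,
      if_pos ((ble_iff _ _).2 h7)] at hi
    exact slide_sound h hi
  obtain ⟨g0, g1, g2, g3, g4, g5⟩ := test_spec (j_lt h) (u_lt h) (by omega) hd
  have path (hM : Bt (kM s.m k) s.ix) (t : ℕ) (ht : t < 32) (b : Bt (kG k % 4294967296) t) : s.E t :=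
    empty_of h ht (g1 t ht b) ((wh_kM lt hM).2 t b)
  have mv (h4 : kt k ≠ 4) (hM : Bt (kM s.m k) s.ix) : s.At (ka k) (ks k) ∧ Mv s.E (ka k) (ks k) (kq k) := by
    have p := path hM
    rw [kG_eq, if_neg h4] at p g0
    exact ⟨wh_at h (g4 h4), geo_spec (ka_lt k) g0 _ p⟩
  have e : cc s.j s.u = s.c := cc_eq _ _
  by_cases h5 : 2560 ≤ k
  · rw [selN_eq, if_pos ((ble_iff _ _).2 h5), selN_eq] at hi
    by_cases h6 : 3072 ≤ k
    · rw [if_pos ((ble_iff _ _).2 h6), selN_eq, if_neg (fun a => h7 ((ble_iff _ _).1 a)), bt_lor] at hi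
      have hM := hi.resolve_left (bt_zero _)
      obtain ⟨a, b⟩ := mv (by omega) hM
      have x := (wh_kM lt hM).1
      rw [wh_kB, if_neg (by omega), if_neg (by omega), if_neg (by omega), if_neg (by omega),
        if_neg (by omega)] at x
      split_ifs at x with y
      · rw [St.ix, y.1] at x
        rw [y.1] at c
        rw [(onK_cel c).1 x] at b
        exact .inl (attB_mv a ho y.2 b)
      · exact (bt_zero _ x).elim
    · rw [if_neg (fun a => h6 ((ble_iff _ _).1 a)), capR, frN_eq, bt_land] at hi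
      obtain ⟨hi, hM⟩ := hi
      obtain ⟨a, b⟩ := mv (by omega) hM
      have x := (wh_kM lt hM).1
      rw [wh_kB, if_neg (by omega), if_neg (by omega), if_neg (by omega), if_neg (by omega),
        if_pos (by omega)] at x
      have m2 : ¬ 2 ≤ s.m := fun y => by
        rw [if_pos y] at x
        exact bt_zero _ x
      have r : s.r < 32 := by
        by_contra r
        simp only [St.m, r, if_false] at m2
        split_ifs at m2 <;> omega
      obtain ⟨y, z⟩ := capR_cel c hq hi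
      have sl : s.sl = s.r := by simp only [St.sl, r, if_true]
      obtain ⟨o, e1, e2⟩ := mv_r h a ho hq (by omega)
      refine .inr ⟨_, wmove_mv a ho hq b o, ?_⟩
      rw [bt_shr, kA1, kD1, selN_eq, selN_eq, kA_eq, kD_eq, if_neg (show ¬ kt k = 4 by omega),
        if_neg (show ¬ kt k = 4 by omega), if_neg (show ¬ kt k = 3 by omega)] at z
      simp only [beq_iff, add_eq, sub_eq, mod_eq, Nat.add_zero] at z
      rw [InT, e1, e2]
      exact z
  rw [selN_eq, if_neg (fun a => h5 ((ble_iff _ _).1 a)), frN_eq, bt_land, bt_shr, e, add_eq, sub_eq, kA_eq,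
    kD_eq, wh_kS] at hi
  obtain ⟨hi, hM⟩ := hi
  have x := (wh_kM lt hM).1
  rw [wh_kB] at x
  rcases (by omega : kt k = 0 ∨ kt k = 1 ∨ kt k = 2 ∨ kt k = 3 ∨ kt k = 4) with t | t | t | t | t
  · obtain ⟨a, b⟩ := mv (by omega) hM
    rw [if_pos (by omega)] at x
    obtain ⟨o, e1, e2⟩ := mv_E h a ho hq (empty_of h hq (g2 (by omega)) ((nq_cel c).1 x))
    refine .inr ⟨_, wmove_mv a ho hq b o, ?_⟩
    rw [InT, e1, e2]
    simpa only [t, Nat.reduceEqDiff, if_false, Nat.add_zero, Nat.zero_add, OfNat.zero_ne_ofNat, zero_ne_one] using hi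
  · obtain ⟨a, b⟩ := mv (by omega) hM
    rw [if_neg (by omega), if_pos t] at x
    have y := ((onB_cel c).1 x).2
    obtain ⟨o, e1, e2⟩ := mv_b h a ho hq y
    refine .inr ⟨_, wmove_mv a ho hq b o, ?_⟩
    rw [InT, e1, e2, ← shB_cel c (by omega), ← y]
    rw [if_neg (by omega), if_neg (by omega), if_neg (by omega), if_pos t, Nat.add_zero, St.ix, ← y] at hi
    exact hi
  · obtain ⟨a, b⟩ := mv (by omega) hM
    rw [if_neg (by omega), if_neg (by omega), if_pos t] at x
    have y := ((onN_cel c).1 x).2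
    obtain ⟨o, e1, e2⟩ := mv_n h a ho hq y
    refine .inr ⟨_, wmove_mv a ho hq b o, ?_⟩
    rw [InT, e1, e2, ← shN_cel c (by omega), ← y]
    rw [if_neg (by omega), if_neg (by omega), if_neg (by omega), if_neg (by omega), if_pos t, Nat.add_zero,
      St.ix, ← y] at hi
    exact hi
  · obtain ⟨a, b⟩ := mv (by omega) hM
    rw [if_neg (by omega), if_neg (by omega), if_neg (by omega), if_pos t] at x
    have y : ¬ (kq k % 4 = 2 ∨ (2 ≤ s.m ∧ kq k / 4 = 5)) := fun y => by
      rw [if_pos y] at x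
      exact bt_zero _ x
    have z := g5 t
    rw [jp_j h (by omega), St.pc] at z
    have w : s.isP (kq k) ∧ (s.r < 32 ∨ s.p (kq k % 4) < 6) := by
      unfold St.isP
      split_ifs at z with r
      · exact ⟨z, .inl r⟩
      · have : 2 ≤ s.m := by
          simp only [St.m, r, if_false]
          split_ifs <;> omega
        omega
    obtain ⟨o, e1, e2⟩ := mv_p h a ho hq w.1 (by omega) w.2
    refine .inr ⟨_, wmove_mv a ho hq b o, ?_⟩
    rw [InT, e1, e2]
    rw [if_neg (by omega), if_neg (by omega), if_pos t, if_neg (by omega), if_neg (by omega), Nat.zero_add] at hi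
    exact hi
  · rw [if_pos (by omega)] at x
    have hE := empty_of h hq (g2 (by omega)) ((nq_cel c).1 x)
    have p := path hM
    rw [kG_eq, if_pos t] at p g0
    have z := g3 t
    rw [jw_j h (by omega)] at z
    obtain ⟨e1, e2⟩ := setW_c h (f := ks k % 4) (by omega) (kq k / 4 + 1)
    have i : InT T (s.setW (ks k % 4) (kq k / 4 + 1)) := by
      rw [InT, e1, e2, z]
      rw [if_pos t, if_pos t, if_neg (by omega), if_neg (by omega), if_neg (by omega), Nat.add_zero,
        Nat.zero_add] at hi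
      exact hi
    rcases pgeo_spec g0 with ⟨a, b⟩ | ⟨a, b, d⟩
    · rw [show kq k / 4 + 1 = s.w (ks k % 4) + 1 by omega] at i
      exact .inr ⟨_, WMove.pawn _ (by omega) (by omega) (by omega)
        (by rw [show 4 * s.w (ks k % 4) + ks k % 4 = kq k by omega]; exact hE), i⟩
    · rw [show kq k / 4 + 1 = 4 by omega] at i
      exact .inr ⟨_, WMove.pawn2 _ (by omega) (by omega)
        (by rw [show 8 + ks k % 4 = ks k + 4 by omega]; exact p _ (by omega) d)
        (by rw [show 12 + ks k % 4 = kq k by omega]; exact hE), i⟩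

theorem iti_sound (h : Valid s) (hr : s.r < 32) (hc : Cel 0 s.k s.b s.n s.sl)
    (hi : Bt (iti s.j s.u k) s.ix0) : AttB s := by
  rw [iti, frN_eq] at hi
  obtain ⟨k, e, t⟩ : ∃ x, Nat.add 3072 (Nat.mod k 512) = x ∧ kt x = 6 :=
    ⟨_, rfl, by rw [kt, add_eq, mod_eq, div_eq]; omega⟩
  rw [e] at hi
  obtain ⟨hd, hi⟩ := wh_sel0 hi
  have hM := ((bt_lor _ _ _).1 hi).resolve_left (bt_zero _)
  obtain ⟨g0, g1, -, -, g4, -⟩ := test_spec (j_lt h) (u_lt h) (by omega) hd
  obtain ⟨x, p⟩ := wh_kM (cel_lt hc) hM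
  have p' (q : ℕ) (hq : q < 32) (b : Bt (kG k % 4294967296) q) : s.E q :=
    empty_of0 h hr hc hq (g1 q hq b) (p q b)
  rw [kG_eq, if_neg (by omega)] at p' g0
  have b := geo_spec (ka_lt k) g0 _ p'
  rw [wh_kB, if_neg (by omega), if_neg (by omega), if_neg (by omega), if_neg (by omega),
    if_neg (by omega)] at x
  split_ifs at x with y
  · rw [(onK_cel hc).1 x] at b
    exact attB_mv (wh_at h (g4 (by omega))) (ks_lt k) y.2 b
  · exact (bt_zero _ x).elim

end Pool.Agent.Lib.MP_15f43f_co
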